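import Pool.Agent.UNK.Defs

/-!
Project UNK (MP_e2be99_lc), module Zar.  Text: /team-store/unk_h34.md (section 1, generic properties).
Definitions in `Pool/Agent/UNK/Defs.lean`.

The filter `zar k σ` of the generic properties is not trivial over an infinite field; polynomial functions are
closed under sums, products, powers, composition, matrix products and determinants.
-/

set_option autoImplicit false

namespace Pool.Agent.UNK

open MvPolynomial

universe u

section

variable {k : Type u} [Field k] {σ : Type}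

theorem zar_neBot (k : Type u) [Field k] [Infinite k] (σ : Type) : (zar k σ).NeBot := by
  rw [Filter.neBot_iff]
  intro h
  have h1 : (∅ : Set (σ → k)) ∈ zar k σ := by
    rw [h]
    exact Filter.mem_bot
  obtain ⟨p, hp, h2⟩ := h1
  apply hp
  apply MvPolynomial.funext
  intro a
  rw [map_zero]
  by_contra h3
  exact h2 a h3

theorem PF.ev_ne {f : (σ → k) → k} (hf : PF f) (h : ∃ a, f a ≠ 0) : ∀ᶠ a in zar k σ, f a ≠ 0 := by
  obtain ⟨p, hp⟩ := hf
  obtain ⟨a, ha⟩ := h
  refine ⟨p, ?_, fun b hb => ?_⟩
  · rintro rfl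
    apply ha
    rw [hp, map_zero]
  · show f b ≠ 0
    rwa [hp]

theorem PF.const (c : k) : PF (fun _ : σ → k => c) :=
  ⟨C c, fun a => by rw [eval_C]⟩

theorem PF.coord (i : σ) : PF (fun a : σ → k => a i) :=
  ⟨X i, fun a => by rw [eval_X]⟩

theorem PF.add {f g : (σ → k) → k} (hf : PF f) (hg : PF g) : PF (fun a => f a + g a) := by
  obtain ⟨p, hp⟩ := hf
  obtain ⟨q, hq⟩ := hg
  exact ⟨p + q, fun a => by rw [map_add, ← hp, ← hq]⟩

theorem PF.mul {f g : (σ → k) → k} (hf : PF f) (hg : PF g) : PF (fun a => f a * g a) := by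
  obtain ⟨p, hp⟩ := hf
  obtain ⟨q, hq⟩ := hg
  exact ⟨p * q, fun a => by rw [map_mul, ← hp, ← hq]⟩

theorem PF.pow {f : (σ → k) → k} (hf : PF f) (n : ℕ) : PF (fun a => f a ^ n) := by
  obtain ⟨p, hp⟩ := hf
  exact ⟨p ^ n, fun a => by rw [map_pow, ← hp]⟩

theorem PF.sum {J : Type*} (s : Finset J) {f : J → (σ → k) → k} (hf : ∀ j ∈ s, PF (f j)) :
    PF (fun a => ∑ j ∈ s, f j a) := by
  classical
  induction s using Finset.induction_on with
  | empty =>
    simp only [Finset.sum_empty]
    exact PF.const 0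
  | insert j s hj ih =>
    simp only [Finset.sum_insert hj]
    exact PF.add (hf j (Finset.mem_insert_self j s))
      (ih fun i hi => hf i (Finset.mem_insert_of_mem hi))

theorem PF.prod {J : Type*} (s : Finset J) {f : J → (σ → k) → k} (hf : ∀ j ∈ s, PF (f j)) :
    PF (fun a => ∏ j ∈ s, f j a) := by
  classical
  induction s using Finset.induction_on with
  | empty =>
    simp only [Finset.prod_empty]
    exact PF.const 1
  | insert j s hj ih =>
    simp only [Finset.prod_insert hj]
    exact PF.mul (hf j (Finset.mem_insert_self j s))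
      (ih fun i hi => hf i (Finset.mem_insert_of_mem hi))

theorem PF.poly {f : (σ → k) → k} (hf : PF f) (p : Polynomial k) : PF (fun a => p.eval (f a)) := by
  obtain ⟨q, hq⟩ := hf
  refine ⟨Polynomial.aeval q p, fun a => ?_⟩
  have h1 : eval a (Polynomial.aeval q p) = Polynomial.eval (eval a q) p := by
    rw [Polynomial.aeval_def, Polynomial.hom_eval₂]
    have h2 : (eval a).comp (algebraMap k (MvPolynomial σ k)) = RingHom.id k := by
      ext c
      simp
    rw [h2, Polynomial.eval₂_id]
  rw [h1]
  show Polynomial.eval (f a) p = _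
  rw [hq]

theorem PF.comp {ρ : Type} {f : (ρ → k) → k} (hf : PF f) {g : (σ → k) → ρ → k}
    (hg : ∀ i, PF (fun a => g a i)) : PF (fun a => f (g a)) := by
  obtain ⟨p, hp⟩ := hf
  choose q hq using hg
  refine ⟨bind₁ q p, fun a => ?_⟩
  have h1 : eval a (bind₁ q p) = eval (fun i => eval a (q i)) p := by
    have h2 := MvPolynomial.eval₂Hom_bind₁ (RingHom.id k) a q p
    exact h2
  rw [h1]
  show f (g a) = _
  rw [hp, show g a = fun i => eval a (q i) from funext fun i => hq i a]

theorem PF.mmul {α β γ : Type} [Fintype β] {M : (σ → k) → Matrix α β k} {N : (σ → k) → Matrix β γ k}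
    (hM : ∀ p q, PF (fun a => M a p q)) (hN : ∀ p q, PF (fun a => N a p q)) (p : α) (q : γ) :
    PF (fun a => (M a * N a) p q) := by
  simp only [Matrix.mul_apply]
  exact PF.sum _ fun j _ => PF.mul (hM p j) (hN j q)

theorem PF.det {α : Type} [Fintype α] [DecidableEq α] {M : (σ → k) → Matrix α α k}
    (hM : ∀ p q, PF (fun a => M a p q)) : PF (fun a => (M a).det) := by
  simp only [Matrix.det_apply']
  exact PF.sum _ fun τ _ => PF.mul (PF.const _) (PF.prod _ fun i _ => hM _ _)

theorem PF.dot {α : Type} [Fintype α] (Φ : Matrix α α k) {M : (σ → k) → Matrix α α k}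
    (hM : ∀ p q, PF (fun a => M a p q)) : PF (fun a => dot Φ (M a)) := by
  unfold UNK.dot
  exact PF.sum _ fun p _ => PF.sum _ fun q _ => PF.mul (PF.const _) (hM p q)

end

end Pool.Agent.UNK
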