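import Pool.Agent.UNK.Defs

/-!
Project UNK (MP_e2be99_lc), module Blk.  Text: /team-store/unk_h34.md (sections 6 and 7, blocks).
Definitions in `Pool/Agent/UNK/Defs.lean`.

PLAN.
Pure lists.  Strong induction on `L.length`: if `P L` take `Bs = []`, `T = L`.  Otherwise let `B = P' ++ [u]` be the shortest prefix of `L` with `¬ P B` (`B ≠ []` as
`P []`; `P' = B.dropLast` satisfies `P`); `L = B ++ L'`; apply the induction hypothesis to `L'`.
-/

set_option autoImplicit false

namespace Pool.Agent.UNK

open MvPolynomial

universe u

theorem blk {α : Type} (P : List α → Prop) (h0 : P []) (L : List α) :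
    ∃ (Bs : List (List α)) (T : List α), L = Bs.flatten ++ T ∧ P T ∧
      ∀ B ∈ Bs, ¬ P B ∧ ∃ P' u, B = P' ++ [u] ∧ P P' := by
  classical
  induction hn : L.length using Nat.strong_induction_on generalizing L with
  | _ n ih =>
    by_cases hP : P L
    · exact ⟨[], L, by simp, hP, by simp⟩
    · have hex : ∃ k, ¬ P (L.take k) := ⟨L.length, by simpa using hP⟩
      obtain ⟨k, hk1, hkmin⟩ : ∃ k, ¬ P (L.take k) ∧ ∀ j < k, P (L.take j) :=
        ⟨Nat.find hex, Nat.find_spec hex, fun j hj => not_not.mp (Nat.find_min hex hj)⟩
      have hk0 : k ≠ 0 := by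
        intro h
        rw [h] at hk1
        exact hk1 (by simpa using h0)
      have hkle : k ≤ L.length := by
        by_contra hlt
        exact hP (by simpa using hkmin L.length (by omega))
      obtain ⟨j, hj⟩ := Nat.exists_eq_succ_of_ne_zero hk0
      have hjlt : j < L.length := by omega
      have htake : L.take k = L.take j ++ [L[j]] := by
        rw [hj, Nat.succ_eq_add_one, List.take_succ_eq_append_getElem hjlt]
      obtain ⟨Bs, T, h1, h2, h3⟩ := ih (L.drop k).length
        (by rw [List.length_drop]; omega) (L.drop k) rfl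
      refine ⟨L.take k :: Bs, T, ?_, h2, ?_⟩
      · rw [List.flatten_cons, List.append_assoc, ← h1, List.take_append_drop]
      · intro B hB
        rcases List.mem_cons.mp hB with rfl | hB
        · exact ⟨hk1, L.take j, L[j], htake, hkmin j (by omega)⟩
        · exact h3 B hB

end Pool.Agent.UNK
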