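import Pool.Agent.UNK.Rp

/-!
Project UNK (MP_e2be99_lc), module Tp.  Text: /team-store/unk_h34.md (section 1 and the end of section 5).
Definitions in `Pool/Agent/UNK/Defs.lean`.

Tensor powers and ranks: factorization of matrices of rank at most or at least `r`, the determinant as a
functional of the tensor power, rank of the tensor power.
-/

set_option autoImplicit false

namespace Pool.Agent.UNK

open MvPolynomial

universe u

section

variable {k : Type u} [Field k] {I : Type} [Fintype I] [DecidableEq I]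

private theorem tp_fin {s r : ℕ} (h : s ≤ r) : ∃ (ι : (Fin s → k) →ₗ[k] (Fin r → k))
    (π : (Fin r → k) →ₗ[k] (Fin s → k)), π ∘ₗ ι = LinearMap.id := by
  refine ⟨{ toFun := fun v l => if h : (l : ℕ) < s then v ⟨l, h⟩ else 0
            map_add' := fun v w => ?_
            map_smul' := fun c v => ?_ }, LinearMap.funLeft k k (Fin.castLE h), ?_⟩
  · funext l
    by_cases hl : (l : ℕ) < s
    · simp only [Pi.add_apply, dif_pos hl]
    · simp only [Pi.add_apply, dif_neg hl, add_zero]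
  · funext l
    by_cases hl : (l : ℕ) < s
    · simp only [Pi.smul_apply, dif_pos hl, RingHom.id_apply]
    · simp only [Pi.smul_apply, dif_neg hl, RingHom.id_apply, smul_zero]
  · refine LinearMap.ext fun v => funext fun i => ?_
    have h1 : ((Fin.castLE h i : Fin r) : ℕ) < s := i.2
    change (if h : ((Fin.castLE h i : Fin r) : ℕ) < s then v ⟨_, h⟩ else 0) = v i
    rw [dif_pos h1]
    rfl

private theorem tp_dec (M : Matrix I I k) : Matrix.toLin' M =
    (LinearMap.range (Matrix.toLin' M)).subtype ∘ₗ (Matrix.toLin' M).rangeRestrict :=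
  LinearMap.ext fun _ => rfl

private theorem tp_rank (M : Matrix I I k) :
    Module.finrank k (LinearMap.range (Matrix.toLin' M)) = M.rank := rfl

private theorem tp_equiv (M : Matrix I I k) :
    Nonempty (LinearMap.range (Matrix.toLin' M) ≃ₗ[k] (Fin M.rank → k)) := by
  refine ⟨LinearEquiv.ofFinrankEq _ _ ?_⟩
  rw [tp_rank, Module.finrank_fin_fun]

theorem fac_le {r : ℕ} {M : Matrix I I k} (h : M.rank ≤ r) :
    ∃ (C : Matrix I (Fin r) k) (R : Matrix (Fin r) I k), M = C * R := by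
  obtain ⟨ι, π, hπ⟩ := tp_fin (k := k) h
  obtain ⟨E⟩ := tp_equiv M
  refine ⟨LinearMap.toMatrix' ((LinearMap.range (Matrix.toLin' M)).subtype ∘ₗ
    (E.symm : (Fin M.rank → k) →ₗ[k] _) ∘ₗ π),
    LinearMap.toMatrix' (ι ∘ₗ (E : _ →ₗ[k] (Fin M.rank → k)) ∘ₗ (Matrix.toLin' M).rangeRestrict), ?_⟩
  rw [← LinearMap.toMatrix'_comp]
  have h1 : ((LinearMap.range (Matrix.toLin' M)).subtype ∘ₗ
      (E.symm : (Fin M.rank → k) →ₗ[k] _) ∘ₗ π) ∘ₗ
      (ι ∘ₗ (E : _ →ₗ[k] (Fin M.rank → k)) ∘ₗ (Matrix.toLin' M).rangeRestrict) =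
      Matrix.toLin' M := by
    refine LinearMap.ext fun v => ?_
    have h2 := LinearMap.congr_fun hπ (E ((Matrix.toLin' M).rangeRestrict v))
    simp only [LinearMap.comp_apply, LinearMap.id_apply] at h2
    simp only [LinearMap.comp_apply, LinearEquiv.coe_coe, h2, LinearEquiv.symm_apply_apply]
    rfl
  rw [h1, LinearMap.toMatrix'_toLin']

theorem fac_ge {r : ℕ} {M : Matrix I I k} (h : r ≤ M.rank) :
    ∃ (U : Matrix (Fin r) I k) (W : Matrix I (Fin r) k), U * M * W = 1 := by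
  obtain ⟨ι, π, hπ⟩ := tp_fin (k := k) h
  obtain ⟨E⟩ := tp_equiv M
  obtain ⟨p, hp⟩ := LinearMap.exists_leftInverse_of_injective
    (LinearMap.range (Matrix.toLin' M)).subtype (Submodule.ker_subtype _)
  obtain ⟨s, hs⟩ := LinearMap.exists_rightInverse_of_surjective
    (Matrix.toLin' M).rangeRestrict (LinearMap.range_rangeRestrict _)
  refine ⟨LinearMap.toMatrix' (π ∘ₗ (E : _ →ₗ[k] (Fin M.rank → k)) ∘ₗ p),
    LinearMap.toMatrix' (s ∘ₗ (E.symm : (Fin M.rank → k) →ₗ[k] _) ∘ₗ ι), ?_⟩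
  have h0 : LinearMap.toMatrix' (Matrix.toLin' M) = M := LinearMap.toMatrix'_toLin' M
  have h1 : (π ∘ₗ (E : _ →ₗ[k] (Fin M.rank → k)) ∘ₗ p) ∘ₗ Matrix.toLin' M ∘ₗ
      (s ∘ₗ (E.symm : (Fin M.rank → k) →ₗ[k] _) ∘ₗ ι) = LinearMap.id := by
    refine LinearMap.ext fun v => ?_
    have h2 := LinearMap.congr_fun hs (E.symm (ι v))
    have h3 := LinearMap.congr_fun hp (E.symm (ι v))
    have h4 := LinearMap.congr_fun hπ v
    simp only [LinearMap.comp_apply, LinearMap.id_apply] at h2 h3 h4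
    have h5 : Matrix.toLin' M (s (E.symm (ι v))) =
        (LinearMap.range (Matrix.toLin' M)).subtype (E.symm (ι v)) := by
      have h6 := congrArg (LinearMap.range (Matrix.toLin' M)).subtype h2
      exact h6
    simp only [LinearMap.comp_apply, LinearEquiv.coe_coe, h5, h3, LinearEquiv.apply_symm_apply, h4]
    rfl
  calc LinearMap.toMatrix' (π ∘ₗ (E : _ →ₗ[k] (Fin M.rank → k)) ∘ₗ p) * M *
      LinearMap.toMatrix' (s ∘ₗ (E.symm : (Fin M.rank → k) →ₗ[k] _) ∘ₗ ι)
      = LinearMap.toMatrix' (π ∘ₗ (E : _ →ₗ[k] (Fin M.rank → k)) ∘ₗ p) *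
        (LinearMap.toMatrix' (Matrix.toLin' M) *
          LinearMap.toMatrix' (s ∘ₗ (E.symm : (Fin M.rank → k) →ₗ[k] _) ∘ₗ ι)) := by
        rw [h0, Matrix.mul_assoc]
    _ = LinearMap.toMatrix' (LinearMap.id : (Fin r → k) →ₗ[k] (Fin r → k)) := by
        rw [← LinearMap.toMatrix'_comp, ← LinearMap.toMatrix'_comp, h1]
    _ = 1 := LinearMap.toMatrix'_id

theorem ge_of_fac {r : ℕ} {M : Matrix I I k} {U : Matrix (Fin r) I k} {W : Matrix I (Fin r) k}
    (h : (U * M * W).det ≠ 0) : r ≤ M.rank := by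
  have h1 := Matrix.rank_of_det_ne_zero (A := U * M * W) h
  rw [Fintype.card_fin] at h1
  calc r = (U * M * W).rank := h1.symm
    _ ≤ (U * M).rank := Matrix.rank_mul_le_left _ _
    _ ≤ M.rank := Matrix.rank_mul_le_right _ _

theorem det_tp (r : ℕ) : ∃ Φ : Matrix (Fin r → Fin r) (Fin r → Fin r) k,
    ∀ M : Matrix (Fin r) (Fin r) k, M.det = dot Φ (tp r M) := by
  classical
  refine ⟨Matrix.of fun p q => if q = id then ∑ σ : Equiv.Perm (Fin r),
    (if p = ⇑σ then ((Equiv.Perm.sign σ : ℤ) : k) else 0) else 0, fun M => ?_⟩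
  rw [Matrix.det_apply']
  unfold dot
  have h1 : ∀ p : Fin r → Fin r, ∑ q, (Matrix.of fun p q => if q = id then
      ∑ σ : Equiv.Perm (Fin r), (if p = ⇑σ then ((Equiv.Perm.sign σ : ℤ) : k) else 0) else 0 :
      Matrix (Fin r → Fin r) (Fin r → Fin r) k) p q * tp r M p q =
      ∑ σ : Equiv.Perm (Fin r), if p = ⇑σ then
        (((Equiv.Perm.sign σ : ℤ) : k) * ∏ i, M (p i) i) else 0 := by
    intro p
    rw [Finset.sum_eq_single (id : Fin r → Fin r)]
    · simp only [Matrix.of_apply, if_true, Finset.sum_mul, ite_mul, zero_mul, tp, id]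
    · intro q _ hq
      simp only [Matrix.of_apply, if_neg hq, zero_mul]
    · intro h
      exact absurd (Finset.mem_univ _) h
  rw [Finset.sum_congr rfl fun p _ => h1 p, Finset.sum_comm]
  refine Finset.sum_congr rfl fun σ _ => ?_
  rw [Finset.sum_ite_eq' Finset.univ (⇑σ : Fin r → Fin r)
    (fun p => ((Equiv.Perm.sign σ : ℤ) : k) * ∏ i, M (p i) i)]
  rw [if_pos (Finset.mem_univ _)]

private theorem tp_dot {J : Type} [Fintype J] (Φ M : Matrix J J k) :
    dot Φ M = (Φ.transpose * M).trace := by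
  unfold dot Matrix.trace
  rw [Finset.sum_comm]
  rfl

/-- the determinant of `U * M * W` is a functional of `tp r M` -/
theorem det_tp' (r : ℕ) (U : Matrix (Fin r) I k) (W : Matrix I (Fin r) k) :
    ∃ Φ : Matrix (Fin r → I) (Fin r → I) k,
      ∀ M : Matrix I I k, (U * M * W).det = dot Φ (tp r M) := by
  obtain ⟨Φ, hΦ⟩ := det_tp (k := k) r
  refine ⟨(tp r W * Φ.transpose * tp r U).transpose, fun M => ?_⟩
  rw [hΦ, tp_dot, tp_dot, tp_mul, tp_mul, Matrix.transpose_transpose]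
  calc (Φ.transpose * (tp r U * tp r M * tp r W)).trace
      = (Φ.transpose * (tp r U * tp r M) * tp r W).trace := by
        rw [Matrix.mul_assoc Φ.transpose]
    _ = (tp r W * (Φ.transpose * (tp r U * tp r M))).trace := Matrix.trace_mul_comm _ _
    _ = (tp r W * Φ.transpose * tp r U * tp r M).trace := by
        simp only [Matrix.mul_assoc]

theorem rk_le_tp (g : ℕ) {r : ℕ} {M : Matrix I I k} (h : M.rank ≤ r) : (tp g M).rank ≤ r ^ g := by
  obtain ⟨C, R, hCR⟩ := fac_le h
  rw [hCR, tp_mul]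
  calc (tp g C * tp g R).rank ≤ (tp g C).rank := Matrix.rank_mul_le_left _ _
    _ ≤ Fintype.card (Fin g → Fin r) := Matrix.rank_le_card_width _
    _ = r ^ g := by rw [Fintype.card_fun, Fintype.card_fin, Fintype.card_fin]

theorem rk_ge_tp (g : ℕ) {r : ℕ} {M : Matrix I I k} (h : r ≤ M.rank) : r ^ g ≤ (tp g M).rank := by
  obtain ⟨U, W, hUW⟩ := fac_ge h
  have h1 : tp g U * tp g M * tp g W = 1 := by
    rw [← tp_mul, ← tp_mul, hUW, tp_one]
  have h2 : (tp g U * tp g M * tp g W).rank = r ^ g := by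
    rw [h1, Matrix.rank_one, Fintype.card_fun, Fintype.card_fin, Fintype.card_fin]
  calc r ^ g = (tp g U * tp g M * tp g W).rank := h2.symm
    _ ≤ (tp g U * tp g M).rank := Matrix.rank_mul_le_left _ _
    _ ≤ (tp g M).rank := Matrix.rank_mul_le_right _ _

end

end Pool.Agent.UNK
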