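import Pool.Agent.UNK.Rp

/-!
Project UNK (MP_e2be99_lc), module Br.  Text: /team-store/unk_h34.md (section 2, last lines).
Definitions in `Pool/Agent/UNK/Defs.lean`.

Values of the derivatives of a row polynomial: they are the values at jets.
-/

set_option autoImplicit false

namespace Pool.Agent.UNK

open MvPolynomial

universe u

section

variable {k : Type u} [Field k] {V : Type} [DecidableEq V] {I : Type} [Fintype I] [DecidableEq I]

omit [DecidableEq V] in
private theorem br_eval_aeval (a : V → k) (u : V) (h : Polynomial k) :
    eval a (Polynomial.aeval (X u : MvPolynomial V k) h) = h.eval (a u) := by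
  rw [Polynomial.aeval_def, Polynomial.hom_eval₂]
  have h1 : (eval a).comp (algebraMap k (MvPolynomial V k)) = RingHom.id k := by
    ext c
    simp
  rw [h1, eval_X, Polynomial.eval₂_id]

omit [DecidableEq V] in
private theorem br_rpp_cons (A : V → Matrix I I (Polynomial k)) (w : V) (L : List V) :
    rpp A (w :: L) = (A w).map (fun h => Polynomial.aeval (X w : MvPolynomial V k) h) * rpp A L := by
  rw [rpp, rpp, List.map_cons, List.prod_cons]

omit [DecidableEq V] in
private theorem br_rp_cons (A : V → Matrix I I (Polynomial k)) (w : V) (L : List V) (lam : GP k V) :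
    rp A (w :: L) lam = (A w).map (lam w) * rp A L lam := by
  rw [rp, rp, List.map_cons, List.prod_cons]

omit [DecidableEq V] in
private theorem br_eval_rpp (A : V → Matrix I I (Polynomial k)) (L : List V) (a : V → k) (p q : I) :
    eval a (rpp A L p q) = rp A L (ev a) p q := by
  induction L generalizing p q with
  | nil =>
    rw [rpp, rp]
    simp only [List.map_nil, List.prod_nil]
    rw [Matrix.one_apply, Matrix.one_apply]
    split_ifs <;> simp
  | cons w L ih =>
    rw [br_rpp_cons, br_rp_cons, Matrix.mul_apply, Matrix.mul_apply, map_sum]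
    refine Finset.sum_congr rfl fun j _ => ?_
    rw [map_mul, ih, Matrix.map_apply, Matrix.map_apply, br_eval_aeval]
    rfl

theorem eval_fpoly (A : V → Matrix I I (Polynomial k)) (L : List V) (Φ : Matrix I I k) (a : V → k) :
    eval a (fpoly A L Φ) = dot Φ (rp A L (ev a)) := by
  rw [fpoly, dot, map_sum]
  refine Finset.sum_congr rfl fun p _ => ?_
  rw [map_sum]
  refine Finset.sum_congr rfl fun q _ => ?_
  rw [map_mul, eval_C, br_eval_rpp]

private theorem br_pd_aeval (u w : V) (h : Polynomial k) :
    pderiv u (Polynomial.aeval (X w : MvPolynomial V k) h) =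
      if w = u then Polynomial.aeval (X w : MvPolynomial V k) (Polynomial.derivative h) else 0 := by
  rw [Derivation.map_aeval, pderiv_X]
  split_ifs with h1
  · subst h1
    simp
  · rw [Pi.single_eq_of_ne h1, smul_zero]

omit [DecidableEq V] [DecidableEq I] in
private theorem br_dmul (u : V) (M N : Matrix I I (MvPolynomial V k)) (p q : I) :
    pderiv u ((M * N) p q) = ∑ j, (M p j * pderiv u (N j q) + N j q * pderiv u (M p j)) := by
  rw [Matrix.mul_apply, map_sum]
  refine Finset.sum_congr rfl fun j _ => ?_
  rw [Derivation.leibniz, smul_eq_mul, smul_eq_mul]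

private theorem br_pd_not (A : V → Matrix I I (Polynomial k)) (u : V) (L : List V) (hu : u ∉ L)
    (p q : I) : pderiv u (rpp A L p q) = 0 := by
  induction L generalizing p q with
  | nil =>
    rw [rpp]
    simp only [List.map_nil, List.prod_nil]
    rw [Matrix.one_apply]
    split_ifs <;> simp
  | cons w L ih =>
    rw [br_rpp_cons, br_dmul]
    refine Finset.sum_eq_zero fun j _ => ?_
    rw [List.mem_cons, not_or] at hu
    rw [ih hu.2, mul_zero, Matrix.map_apply, br_pd_aeval, if_neg (fun h => hu.1 h.symm), mul_zero,
      add_zero]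

omit [DecidableEq V] in
private theorem br_rpp_congr (A A' : V → Matrix I I (Polynomial k)) (L : List V)
    (h : ∀ u ∈ L, A u = A' u) : rpp A L = rpp A' L := by
  rw [rpp, rpp]
  congr 1
  exact List.map_congr_left fun u hu => by rw [h u hu]

private theorem br_pd_mem (A : V → Matrix I I (Polynomial k)) (u : V) (L : List V) (hL : L.Nodup)
    (hu : u ∈ L) (p q : I) : pderiv u (rpp A L p q) =
      rpp (Function.update A u ((A u).map Polynomial.derivative)) L p q := by
  induction L generalizing p q with
  | nil => simp at hu
  | cons w L ih =>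
    rw [br_rpp_cons, br_rpp_cons, br_dmul, Matrix.mul_apply]
    rw [List.nodup_cons] at hL
    refine Finset.sum_congr rfl fun j _ => ?_
    by_cases hw : w = u
    · subst hw
      rw [br_pd_not A w L hL.1, mul_zero, zero_add, Matrix.map_apply, br_pd_aeval, if_pos rfl,
        Function.update_self, Matrix.map_apply, Matrix.map_apply, mul_comm]
      rw [br_rpp_congr (Function.update A w ((A w).map Polynomial.derivative)) A L]
      intro x hx
      rw [Function.update_of_ne]
      rintro rfl
      exact hL.1 hx
    · have hu' : u ∈ L := by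
        rcases List.mem_cons.1 hu with h | h
        · exact absurd h.symm hw
        · exact h
      rw [ih hL.2 hu', Matrix.map_apply, br_pd_aeval, if_neg hw, mul_zero, add_zero,
        Function.update_of_ne hw, Matrix.map_apply]

private theorem br_pd_fpoly (A : V → Matrix I I (Polynomial k)) (u : V) (L : List V) (hL : L.Nodup)
    (hu : u ∈ L) (Φ : Matrix I I k) : pderiv u (fpoly A L Φ) =
      fpoly (Function.update A u ((A u).map Polynomial.derivative)) L Φ := by
  rw [fpoly, fpoly, map_sum]
  refine Finset.sum_congr rfl fun p _ => ?_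
  rw [map_sum]
  refine Finset.sum_congr rfl fun q _ => ?_
  rw [← smul_eq_C_mul, ← smul_eq_C_mul, Derivation.map_smul, br_pd_mem A u L hL hu]

private theorem br_dd_fpoly (A : V → Matrix I I (Polynomial k)) (L : List V) (hL : L.Nodup)
    (Φ : Matrix I I k) (l : List V) (hl : ∀ u ∈ l, u ∈ L) : dd l (fpoly A L Φ) =
      fpoly (fun u => (A u).map (Polynomial.derivative^[l.count u])) L Φ := by
  induction l with
  | nil =>
    rw [dd, List.foldr_nil]
    rfl
  | cons w l ih =>
    have h1 : dd (w :: l) (fpoly A L Φ) = pderiv w (dd l (fpoly A L Φ)) := by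
      rw [dd, dd, List.foldr_cons]
    rw [h1, ih fun u hu => hl u (List.mem_cons_of_mem _ hu),
      br_pd_fpoly _ w L hL (hl w List.mem_cons_self)]
    congr 1
    funext u
    by_cases hw : u = w
    · subst hw
      rw [Function.update_self]
      ext p q : 1
      rw [Matrix.map_apply, Matrix.map_apply, Matrix.map_apply, List.count_cons_self,
        Function.iterate_succ_apply']
    · rw [Function.update_of_ne hw, List.count_cons_of_ne (Ne.symm hw)]

theorem br (A : V → Matrix I I (Polynomial k)) (L : List V) (hL : L.Nodup) (Φ : Matrix I I k)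
    (v : V → k) (l : List V) (hl : ∀ u ∈ l, u ∈ L) :
    eval v (dd l (fpoly A L Φ)) = dot Φ (rp A L (jet (fun u => l.count u) v)) := by
  rw [br_dd_fpoly A L hL Φ l hl, eval_fpoly]
  congr 1
  rw [rp, rp]
  congr 1
  refine List.map_congr_left fun u _ => ?_
  ext p q
  rw [Matrix.map_apply, Matrix.map_apply, Matrix.map_apply]
  show Polynomial.leval (v u) _ = ((Polynomial.leval (v u)).comp
    (Polynomial.derivative ^ (l.count u) : Module.End k (Polynomial k))) _
  rw [LinearMap.comp_apply, Module.End.pow_apply]

omit [DecidableEq V] in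
private theorem br_comm (u w : V) (f : MvPolynomial V k) :
    pderiv u (pderiv w f) = pderiv w (pderiv u f) := by
  have h : ⁅(pderiv u : Derivation k (MvPolynomial V k) (MvPolynomial V k)),
      (pderiv w : Derivation k (MvPolynomial V k) (MvPolynomial V k))⁆ = 0 := by
    classical
    apply MvPolynomial.derivation_ext
    intro i
    rw [Derivation.commutator_apply, pderiv_X, pderiv_X, Derivation.zero_apply]
    by_cases h1 : i = w <;> by_cases h2 : i = u
    · subst h1
      subst h2
      simp
    · subst h1
      rw [Pi.single_eq_of_ne h2]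
      simp
    · subst h2
      rw [Pi.single_eq_of_ne h1]
      simp
    · rw [Pi.single_eq_of_ne h1, Pi.single_eq_of_ne h2]
      simp
  have h2 := congrArg (fun D : Derivation k (MvPolynomial V k) (MvPolynomial V k) => D f) h
  simp only [Derivation.commutator_apply, Derivation.zero_apply] at h2
  exact sub_eq_zero.1 h2

omit [DecidableEq V] in
private theorem br_pd_dd (u : V) (l : List V) (f : MvPolynomial V k) (hf : pderiv u f = 0) :
    pderiv u (dd l f) = 0 := by
  induction l with
  | nil => simpa [dd] using hf
  | cons w l ih =>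
    have h1 : dd (w :: l) f = pderiv w (dd l f) := by
      rw [dd, dd, List.foldr_cons]
    rw [h1, br_comm, ih, map_zero]

omit [DecidableEq V] in
private theorem br_dd_zero (u : V) (l : List V) (f : MvPolynomial V k) (hf : pderiv u f = 0)
    (hu : u ∈ l) : dd l f = 0 := by
  induction l with
  | nil => simp at hu
  | cons w l ih =>
    have h1 : dd (w :: l) f = pderiv w (dd l f) := by
      rw [dd, dd, List.foldr_cons]
    rw [h1]
    rcases List.mem_cons.1 hu with h | h
    · subst h
      exact br_pd_dd u l f hf
    · rw [ih h, map_zero]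

theorem br0 (A : V → Matrix I I (Polynomial k)) (L : List V) (Φ : Matrix I I k)
    (v : V → k) (l : List V) (hl : ∃ u ∈ l, u ∉ L) :
    eval v (dd l (fpoly A L Φ)) = 0 := by
  obtain ⟨u, hu, huL⟩ := hl
  rw [br_dd_zero u l _ _ hu, map_zero]
  rw [fpoly, map_sum]
  refine Finset.sum_eq_zero fun p _ => ?_
  rw [map_sum]
  refine Finset.sum_eq_zero fun q _ => ?_
  rw [← smul_eq_C_mul, Derivation.map_smul, br_pd_not A u L huL, smul_zero]

end

end Pool.Agent.UNK
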