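import Pool.Agent.UNK.Dl
import Pool.Agent.UNK.Br

/-!
Project UNK (MP_e2be99_lc), module Ldr.  Text: /team-store/unk_h34.md (section 2, for rows).
Definitions in `Pool/Agent/UNK/Defs.lean`.

* `ldr`: replace the row `B` by `B' u = B u` for `u ∈ Y` and the constant matrix `(B u).map (fun h => C (kap u h))` for `u ∉ Y`, and `e` by
  `e' = e` on `L ∩ Y`, 0 elsewhere.
* `ldF`: the same for the polynomial `∑ fpoly R.A R.L R.Φ` (`dd` is additive), all lists contain all variables.
-/

set_option autoImplicit false

namespace Pool.Agent.UNK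

open MvPolynomial

universe u

section

variable {k : Type u} [Field k] [Infinite k] {V : Type} [Fintype V] [DecidableEq V]

/-- a list with given multiplicities -/
private lemma exists_list {V : Type} [Fintype V] [DecidableEq V] (e : V → ℕ) :
    ∃ l : List V, (∀ u, l.count u = e u) ∧ l.length = ∑ u, e u := by
  classical
  refine ⟨(∑ x : V, e x • ({x} : Multiset V)).toList, fun u => ?_, ?_⟩
  · rw [← Multiset.coe_count, Multiset.coe_toList, Multiset.count_sum']
    simp only [Multiset.count_nsmul, Multiset.count_singleton]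
    rw [Finset.sum_eq_single u]
    · simp
    · intro b _ hb
      rw [if_neg (Ne.symm hb), mul_zero]
    · intro h
      exact absurd (Finset.mem_univ u) h
  · rw [Multiset.length_toList, Multiset.card_sum]
    refine Finset.sum_congr rfl fun x _ => ?_
    simp

private lemma rp_congr_Ldr {k : Type u} [Field k] {V : Type} {I : Type} [Fintype I] [DecidableEq I]
    (A B : V → Matrix I I (Polynomial k)) (L : List V) (lam kap : GP k V)
    (h : ∀ u ∈ L, (A u).map (lam u) = (B u).map (kap u)) : rp A L lam = rp B L kap := by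
  unfold rp
  congr 1
  exact List.map_congr_left h

theorem ldr {I : Type} [Fintype I] [DecidableEq I] (wt : V → ℕ) (hwt : Function.Injective wt)
    (B : V → Matrix I I (Polynomial k)) (L : List V) (hL : L.Nodup) (Φ : Matrix I I k) (j : ℕ)
    (v : V → k) (Y : Set V) (kap : GP k V) (e : V → ℕ) (he : ∑ u, e u ≤ j)
    (h : dot Φ (rp B L (mix Y (jet e v) kap)) ≠ 0) :
    ∃ θ : Fin j ⊕ Fin j → k, dot Φ (rp B L (mix Y (ev (v + vp wt j θ)) kap)) ≠ 0 := by
  classical
  set B' : V → Matrix I I (Polynomial k) := fun u =>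
    if u ∈ Y then B u else (B u).map (fun q => Polynomial.C (kap u q)) with hB'
  set e' : V → ℕ := fun u => if u ∈ Y ∧ u ∈ L then e u else 0 with he'
  have h1 : rp B' L (jet e' v) = rp B L (mix Y (jet e v) kap) := by
    refine rp_congr_Ldr _ _ _ _ _ fun u hu => ?_
    by_cases hY : u ∈ Y
    · simp only [hB', he', mix, jet, if_pos hY, hY, hu, and_self, if_true]
    · ext p q
      simp [hB', he', mix, jet, hY, Polynomial.leval]
  have h2 : ∀ b : V → k, rp B' L (ev b) = rp B L (mix Y (ev b) kap) := by
    intro b
    refine rp_congr_Ldr _ _ _ _ _ fun u hu => ?_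
    by_cases hY : u ∈ Y
    · simp only [hB', mix, if_pos hY]
    · ext p q
      simp [hB', mix, ev, hY, Polynomial.leval]
  obtain ⟨l, hl1, hl2⟩ := exists_list e'
  have hlL : ∀ u ∈ l, u ∈ L := by
    intro u hu
    have hc : 0 < l.count u := List.count_pos_iff.mpr hu
    rw [hl1] at hc
    by_contra hcon
    simp only [he'] at hc
    rw [if_neg (fun hh => hcon hh.2)] at hc
    exact lt_irrefl _ hc
  have hlen : l.length ≤ j := by
    rw [hl2]
    refine le_trans (Finset.sum_le_sum fun u _ => ?_) he
    simp only [he']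
    split_ifs
    · exact le_rfl
    · exact Nat.zero_le _
  have h3 : eval v (dd l (fpoly B' L Φ)) ≠ 0 := by
    rw [br B' L hL Φ v l hlL]
    have : (fun u => l.count u) = e' := funext hl1
    rw [this, h1]
    exact h
  by_contra hcon
  push Not at hcon
  apply h3
  refine dl wt hwt j _ v (fun θ => ?_) l hlen
  rw [eval_fpoly, h2]
  exact hcon θ

private lemma dd_sum {k : Type u} [Field k] {V : Type} (l : List V) {α : Type*} (Rs : List α)
    (f : α → MvPolynomial V k) : dd l ((Rs.map f).sum) = (Rs.map fun R => dd l (f R)).sum := by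
  have hadd : ∀ (l : List V) (p q : MvPolynomial V k), dd l (p + q) = dd l p + dd l q := by
    intro l p q
    induction l with
    | nil => rfl
    | cons a l ih =>
      have : ∀ r : MvPolynomial V k, dd (a :: l) r = pderiv a (dd l r) := fun r => rfl
      rw [this, this, this, ih, map_add]
  have hzero : ∀ l : List V, dd l (0 : MvPolynomial V k) = 0 := by
    intro l
    induction l with
    | nil => rfl
    | cons a l ih =>
      have : ∀ r : MvPolynomial V k, dd (a :: l) r = pderiv a (dd l r) := fun r => rfl
      rw [this, ih, map_zero]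
  induction Rs with
  | nil => simpa using hzero l
  | cons R Rs ih => rw [List.map_cons, List.sum_cons, hadd, ih, List.map_cons, List.sum_cons]

theorem ldF {w : ℕ} (wt : V → ℕ) (hwt : Function.Injective wt) (Rs : List (Row k V w))
    (hR : ∀ R ∈ Rs, R.L.Nodup ∧ ∀ u, u ∈ R.L) (j : ℕ) (v : V → k) (e : V → ℕ) (he : ∑ u, e u ≤ j)
    (h : FF Rs (jet e v) ≠ 0) :
    ∃ θ : Fin j ⊕ Fin j → k, FF Rs (ev (v + vp wt j θ)) ≠ 0 := by
  classical
  obtain ⟨l, hl1, hl2⟩ := exists_list e
  have hlen : l.length ≤ j := by rw [hl2]; exact he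
  have hle : (fun u => l.count u) = e := funext hl1
  have h3 : eval v (dd l ((Rs.map fun R => fpoly R.A R.L R.Φ).sum)) ≠ 0 := by
    rw [dd_sum, map_list_sum, List.map_map]
    have : (Rs.map (⇑(eval v) ∘ fun R => dd l (fpoly R.A R.L R.Φ)))
        = Rs.map fun R => dot R.Φ (rp R.A R.L (jet e v)) := by
      refine List.map_congr_left fun R hRR => ?_
      simp only [Function.comp]
      rw [br R.A R.L (hR R hRR).1 R.Φ v l (fun u _ => (hR R hRR).2 u), hle]
    rw [this]
    exact h
  by_contra hcon
  push Not at hcon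
  apply h3
  refine dl wt hwt j _ v (fun θ => ?_) l hlen
  rw [map_list_sum, List.map_map]
  have : (Rs.map (⇑(eval (v + vp wt j θ)) ∘ fun R => fpoly R.A R.L R.Φ))
      = Rs.map fun R => dot R.Φ (rp R.A R.L (ev (v + vp wt j θ))) := by
    refine List.map_congr_left fun R _ => ?_
    simp only [Function.comp]
    rw [eval_fpoly]
  rw [this]
  exact hcon θ

end

end Pool.Agent.UNK
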