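import Pool.Agent.UNK.Gd
import Pool.Agent.UNK.Ldr

/-!
Project UNK (MP_e2be99_lc), module Gl.  Text: /team-store/unk_h34.md (section 4, Lemma G).
Definitions in `Pool/Agent/UNK/Defs.lean`.  Replace the `sorry`; keep the statements; helper lemmas private.

PLAN.
* `cpl_mono`: `vp_mono`.  `cpl_nil`: `rp A [] = 1` for all points.  `cpl_single`: `rp A [u] (ev a) = (A u).map (eval (a u))` depends on `a u` only:
  `vp_one` with `c = a u`.
* `glue`: let the value `dot Φ (tp g (rp A (L1 ++ L2) (ev a))) ≠ 0`.  Take `θ₀` with both lists good at `v = vp wt K θ₀` (`good_ev`,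
  `zar_neBot`, `Filter.Eventually.exists`).  `rp (tr g A) (L1 ++ L2) lam = rp (tr g A) L1 lam * rp (tr g A) L2 lam`.  First replace `ev a` on `L1` by
  `jet e1 v` (`dot_mid`, `Good`, `rp_tr`), then `ev a` on `L2` by `jet e2 v`; `e = e1 + e2` (supports disjoint: `hnd`), `∑ e ≤ 2 * DD w`;
  `ldr` with `Y = univ` for the row `tr g A`; `vp_add`.
-/

set_option autoImplicit false

namespace Pool.Agent.UNK

open MvPolynomial

universe u

section

variable {k : Type u} [Field k] [CharZero k] {V : Type} [Fintype V] [DecidableEq V] {w : ℕ}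

theorem cpl_mono (wt : V → ℕ) (A : V → Matrix (Fin w) (Fin w) (Polynomial k)) {K K' : ℕ}
    (hK : K ≤ K') {L : List V} (h : Cpl wt A K L) : Cpl wt A K' L := by
  intro g hg Φ ha
  obtain ⟨θ, hθ⟩ := h g hg Φ ha
  obtain ⟨θ', hθ'⟩ := vp_mono wt hK θ
  refine ⟨θ', ?_⟩
  rw [hθ']
  exact hθ

theorem cpl_nil (wt : V → ℕ) (A : V → Matrix (Fin w) (Fin w) (Polynomial k)) (K : ℕ) :
    Cpl wt A K [] := by
  intro g hg Φ ha
  obtain ⟨a, ha⟩ := ha
  refine ⟨0, ?_⟩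
  rw [rp_nil] at ha ⊢
  exact ha

theorem cpl_single (wt : V → ℕ) (A : V → Matrix (Fin w) (Fin w) (Polynomial k)) {K : ℕ}
    (hK : 1 ≤ K) (u : V) : Cpl wt A K [u] := by
  intro g hg Φ ha
  obtain ⟨a, ha⟩ := ha
  obtain ⟨θ, hθ⟩ := vp_one wt K hK (a u)
  refine ⟨θ, ?_⟩
  have h1 : rp A [u] (ev (vp wt K θ)) = rp A [u] (ev a) := by
    rw [rp_single, rp_single]
    have h2 : (ev (vp wt K θ)) u = (ev a) u := by
      rw [hθ]
      rfl
    rw [h2]
  rw [h1]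
  exact ha

theorem glue (wt : V → ℕ) (hwt : Function.Injective wt)
    (A : V → Matrix (Fin w) (Fin w) (Polynomial k)) {K : ℕ} {L1 L2 : List V}
    (hnd : (L1 ++ L2).Nodup) (h1 : Cpl wt A K L1) (h2 : Cpl wt A K L2) :
    Cpl wt A (K + 2 * DD w) (L1 ++ L2) := by
  haveI : Infinite k := Infinite.of_injective (Nat.cast : ℕ → k) Nat.cast_injective
  haveI : (zar k (Fin K ⊕ Fin K)).NeBot := zar_neBot k _
  obtain ⟨hn1, hn2, hdis⟩ := List.nodup_append'.mp hnd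
  intro g hg Φ ha
  obtain ⟨a, ha⟩ := ha
  obtain ⟨θ₀, hg1, hg2⟩ := ((good_ev wt A K L1 hn1 h1).and (good_ev wt A K L2 hn2 h2)).exists
  set v : V → k := vp wt K θ₀ with hv
  set B := tr g A with hB
  have hval : dot Φ (rp B L1 (ev a) * rp B L2 (ev a)) ≠ 0 := by
    rw [← rp_append, hB, rp_tr]
    exact ha
  -- the first list
  obtain ⟨Ψ1, hΨ1⟩ := dot_mid Φ 1 (rp B L2 (ev a))
  have hv1 : dot Ψ1 (tp g (rp A L1 (ev a))) ≠ 0 := by
    rw [← rp_tr, ← hΨ1, Matrix.one_mul]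
    exact hval
  obtain ⟨e1, hs1, hd1, hj1⟩ := hg1 g hg Ψ1 ⟨a, hv1⟩
  rw [← hΨ1, Matrix.one_mul] at hj1
  -- the second list
  obtain ⟨Ψ2, hΨ2⟩ := dot_mid Φ (rp B L1 (jet e1 v)) 1
  have hv2 : dot Ψ2 (tp g (rp A L2 (ev a))) ≠ 0 := by
    rw [← rp_tr, ← hΨ2, Matrix.mul_one]
    exact hj1
  obtain ⟨e2, hs2, hd2, hj2⟩ := hg2 g hg Ψ2 ⟨a, hv2⟩
  rw [← hΨ2, Matrix.mul_one] at hj2
  have hc1 : rp B L1 (jet e1 v) = rp B L1 (jet (e1 + e2) v) := by
    refine rp_congr B L1 fun u hu => ?_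
    have h3 : e2 u = 0 := hs2 u fun h4 => hdis hu h4
    unfold jet
    rw [Pi.add_apply, h3, add_zero]
  have hc2 : rp B L2 (jet e2 v) = rp B L2 (jet (e1 + e2) v) := by
    refine rp_congr B L2 fun u hu => ?_
    have h3 : e1 u = 0 := hs1 u fun h4 => hdis h4 hu
    unfold jet
    rw [Pi.add_apply, h3, zero_add]
  have hmix : ∀ lam : GP k V, mix Set.univ lam lam = lam := by
    intro lam
    funext u
    unfold mix
    rw [if_pos (Set.mem_univ u)]
  have hmix' : ∀ lam kap : GP k V, mix Set.univ lam kap = lam := by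
    intro lam kap
    funext u
    unfold mix
    rw [if_pos (Set.mem_univ u)]
  have hjet : dot Φ (rp B (L1 ++ L2) (mix Set.univ (jet (e1 + e2) v) (ev v))) ≠ 0 := by
    rw [hmix', rp_append, ← hc1, ← hc2]
    exact hj2
  have hsum : ∑ u, (e1 + e2) u ≤ 2 * DD w := by
    have : ∑ u, (e1 + e2) u = ∑ u, e1 u + ∑ u, e2 u := by
      rw [← Finset.sum_add_distrib]
      rfl
    omega
  obtain ⟨θ1, hθ1⟩ := ldr wt hwt B (L1 ++ L2) hnd Φ (2 * DD w) v Set.univ (ev v) (e1 + e2) hsum hjet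
  rw [hmix'] at hθ1
  obtain ⟨θ2, hθ2⟩ := vp_add wt K (2 * DD w) θ₀ θ1
  refine ⟨θ2, ?_⟩
  rw [hθ2, ← rp_tr]
  exact hθ1

end

end Pool.Agent.UNK
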