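import Pool.Agent.UNK.Lq
import Pool.Agent.UNK.Gl

/-!
Project UNK (MP_e2be99_lc), module S3.  Text: /team-store/unk_h34.md (section 6, step 3).
Definitions in `Pool/Agent/UNK/Defs.lean`.

PLAN.
Here `L = con O E (t+1)`: blocks `O 0, E 0, O 1, .., E t, O (t+1)`.  Shift: `con O E (t+1) = O 0 ++ con E (fun i => O (i+1)) t ++ O (t+1)` (induction on
`t`).  `v = vp wt K θ`, `θ` generic at level `K`: all `O i`, `i ≤ t+1`, good at `v` (`good_ev`); for `i < t`: `r ≤ rank (rp A (E i ++ O (i+1) ++ E (i+1)) (ev v))` (`rk_ev`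
with `X = Y = 1` for the complete list `E i ++ O (i+1) ++ E (i+1)`; at the point `a` its rank is at least `r`, an infix of `L`); the value in hypothesis `h` is nonzero
at `mix {O's} (ev a) (ev v)` (the value is a polynomial function of `θ`: `rp_pf`, `PF.dot`, `PF.comp`, `vp_pf`, `PF.ev_ne`).
Let `a' = a` on the `O i` and `v` elsewhere (`mix_ev`).  `lemQ` with constants `O := E`, moving blocks `E := fun i => O (i+1)`, number `t`, `Xl = O 0`,
`Yl = O (t+1)`, point `a'`: on the `E i` `ev a' = ev v`; `hO`: `hE` at `a'`; `hB`: `rp A (E i) (ev v) * rp A (O (i+1)) (ev v) * rp A (E (i+1)) (ev v)`.  It gives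
`e` (zero on the `E i`), `∑ e ≤ (DD w + 2) * DD w` and a nonzero value at a generalised point which on `L` is `jet e v`.  `ldr` with `Y = univ` for the row `tr g A`;
`vp_add`; `rp_tr`.
-/

set_option autoImplicit false

namespace Pool.Agent.UNK

open MvPolynomial

universe u

private theorem s3_last {α : Type} (O E : ℕ → List α) (t : ℕ) : ∃ X, con O E t = X ++ O t := by
  cases t with
  | zero => exact ⟨[], rfl⟩
  | succ t => exact ⟨con O E t ++ E t, rfl⟩

private theorem s3_mid {α : Type} (O E : ℕ → List α) (t : ℕ) (i : ℕ) (hi : i < t) :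
    ∃ X Y, con O E t = X ++ (O i ++ E i ++ O (i + 1)) ++ Y := by
  induction t with
  | zero => exact absurd hi (Nat.not_lt_zero _)
  | succ t ih =>
    rcases Nat.lt_or_ge i t with h | h
    · obtain ⟨X, Y, hXY⟩ := ih h
      refine ⟨X, Y ++ E t ++ O (t + 1), ?_⟩
      show con O E t ++ E t ++ O (t + 1) = _
      rw [hXY]
      simp only [List.append_assoc]
    · have hit : i = t := by omega
      subst hit
      obtain ⟨X, hX⟩ := s3_last O E i
      refine ⟨X, [], ?_⟩
      show con O E i ++ E i ++ O (i + 1) = _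
      rw [hX]
      simp only [List.append_assoc, List.append_nil]

private theorem s3_shift {α : Type} (O E : ℕ → List α) (t : ℕ) :
    con O E (t + 1) = O 0 ++ con E (fun i => O (i + 1)) t ++ O (t + 1) := by
  induction t with
  | zero => rfl
  | succ t ih =>
    show con O E (t + 1) ++ E (t + 1) ++ O (t + 2) = _
    rw [ih]
    show _ = O 0 ++ (con E (fun i => O (i + 1)) t ++ O (t + 1) ++ E (t + 1)) ++ O (t + 2)
    simp only [List.append_assoc]

private theorem s3_mem {α : Type} (O E : ℕ → List α) (t : ℕ) (u : α) :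
    u ∈ con O E t ↔ (∃ i ≤ t, u ∈ O i) ∨ ∃ i < t, u ∈ E i := by
  induction t with
  | zero =>
    constructor
    · intro h; exact Or.inl ⟨0, le_rfl, h⟩
    · rintro (⟨i, hi, h⟩ | ⟨i, hi, h⟩)
      · have : i = 0 := by omega
        subst this; exact h
      · omega
  | succ t ih =>
    have hc : con O E (t + 1) = con O E t ++ E t ++ O (t + 1) := rfl
    rw [hc, List.mem_append, List.mem_append, ih]
    constructor
    · rintro (((⟨i, hi, h⟩ | ⟨i, hi, h⟩) | h) | h)
      · exact Or.inl ⟨i, by omega, h⟩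
      · exact Or.inr ⟨i, by omega, h⟩
      · exact Or.inr ⟨t, by omega, h⟩
      · exact Or.inl ⟨t + 1, le_rfl, h⟩
    · rintro (⟨i, hi, h⟩ | ⟨i, hi, h⟩)
      · rcases Nat.lt_or_ge i (t + 1) with h1 | h1
        · exact Or.inl (Or.inl (Or.inl ⟨i, by omega, h⟩))
        · have : i = t + 1 := by omega
          subst this; exact Or.inr h
      · rcases Nat.lt_or_ge i t with h1 | h1
        · exact Or.inl (Or.inl (Or.inr ⟨i, h1, h⟩))
        · have : i = t := by omega
          subst this; exact Or.inl (Or.inr h)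

private theorem s3_disj {α : Type} (O E : ℕ → List α) (t : ℕ) (h : (con O E t).Nodup) (u : α)
    {i j : ℕ} (hi : i ≤ t) (hj : j < t) (h1 : u ∈ O i) (h2 : u ∈ E j) : False := by
  induction t generalizing i j with
  | zero => omega
  | succ t ih =>
    have hc : con O E (t + 1) = con O E t ++ E t ++ O (t + 1) := rfl
    rw [hc] at h
    obtain ⟨ha, hb, hd⟩ := List.nodup_append.1 h
    obtain ⟨ha', hb', hd'⟩ := List.nodup_append.1 ha
    rcases Nat.lt_or_ge i (t + 1) with hi' | hi'
    · rcases Nat.lt_or_ge j t with hj' | hj'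
      · exact ih ha' (by omega) hj' h1 h2
      · have : j = t := by omega
        subst this
        exact hd' u ((s3_mem O E j u).2 (Or.inl ⟨i, by omega, h1⟩)) u h2 rfl
    · have : i = t + 1 := by omega
      subst this
      refine hd u ?_ u h1 rfl
      rw [List.mem_append]
      rcases Nat.lt_or_ge j t with hj' | hj'
      · exact Or.inl ((s3_mem O E t u).2 (Or.inr ⟨j, hj', h2⟩))
      · have : j = t := by omega
        subst this
        exact Or.inr h2

private theorem s3_mix {k : Type u} [Field k] {V : Type} (S : Set V) (lam kap : GP k V) :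
    mix S lam kap = mix Sᶜ kap lam := by
  funext u
  unfold mix
  by_cases h : u ∈ S
  · rw [if_pos h, if_neg (by simpa using h)]
  · rw [if_neg h, if_pos (show u ∈ Sᶜ from h)]

private theorem s3_univ {k : Type u} [Field k] {V : Type} (lam kap : GP k V) :
    mix Set.univ lam kap = lam := by
  funext u
  unfold mix
  rw [if_pos (Set.mem_univ u)]

private theorem s3_jet {k : Type u} [Field k] {V : Type} (e : V → ℕ) (v : V → k) (u : V)
    (h : e u = 0) : jet e v u = ev v u := by
  have := congrFun (jet_zero v) u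
  rw [← this]
  unfold jet
  rw [h]
  rfl

private theorem s3_nodup {α : Type} (O E : ℕ → List α) (t : ℕ) (h : (con O E t).Nodup)
    {i : ℕ} (hi : i ≤ t) : (O i).Nodup := by
  induction t generalizing i with
  | zero =>
    have : i = 0 := by omega
    subst this; exact h
  | succ t ih =>
    have hc : con O E (t + 1) = con O E t ++ E t ++ O (t + 1) := rfl
    rw [hc] at h
    obtain ⟨ha, hb, hd⟩ := List.nodup_append.1 h
    obtain ⟨ha', hb', hd'⟩ := List.nodup_append.1 ha
    rcases Nat.lt_or_ge i (t + 1) with hi' | hi'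
    · exact ih ha' (by omega)
    · have : i = t + 1 := by omega
      subst this; exact hb

theorem step3 {k : Type u} [Field k] [CharZero k] {V : Type} [Fintype V] [DecidableEq V] {w : ℕ}
    (wt : V → ℕ) (hwt : Function.Injective wt) (A : V → Matrix (Fin w) (Fin w) (Polynomial k))
    (K r t : ℕ) (O E : ℕ → List V) (hnd : (con O E (t + 1)).Nodup)
    (hO : ∀ i ≤ t + 1, Cpl wt A K (O i)) (hT : ∀ i < t, Cpl wt A K (E i ++ O (i + 1) ++ E (i + 1)))
    (hE : ∀ i ≤ t, ∀ a, (rp A (E i) (ev a)).rank ≤ r) (g : ℕ) (hg : g ≤ w)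
    (Φ : Matrix (Fin g → Fin w) (Fin g → Fin w) k) (a : V → k)
    (ha : r ≤ (rp A (con O E (t + 1)) (ev a)).rank) (θ₁ : Fin K ⊕ Fin K → k)
    (h : dot Φ (rp (tr g A) (con O E (t + 1))
      (mix {u | ∃ i ≤ t + 1, u ∈ O i} (ev a) (ev (vp wt K θ₁)))) ≠ 0) :
    ∃ θ : Fin (K + (DD w + 2) * DD w) ⊕ Fin (K + (DD w + 2) * DD w) → k,
      dot Φ (tp g (rp A (con O E (t + 1)) (ev (vp wt (K + (DD w + 2) * DD w) θ)))) ≠ 0 := by
  have hinf : Infinite k := inferInstance
  set S : Set V := {u | ∃ i ≤ t + 1, u ∈ O i} with hS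
  set L := con O E (t + 1) with hL
  have hsh : L = O 0 ++ con E (fun i => O (i + 1)) t ++ O (t + 1) := s3_shift O E t
  -- the three generic conditions
  have h1 : ∀ᶠ θ in zar k (Fin K ⊕ Fin K), ∀ i ∈ Finset.range (t + 2),
      Good A (DD w) (O i) (vp wt K θ) := by
    rw [Filter.eventually_all_finset]
    intro i hi
    have hi' : i ≤ t + 1 := by have := Finset.mem_range.1 hi; omega
    exact good_ev wt A K (O i) (s3_nodup O E (t + 1) hnd hi') (hO i hi')
  have h2 : ∀ᶠ θ in zar k (Fin K ⊕ Fin K), ∀ i ∈ Finset.range t,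
      r ≤ (1 * rp A (E i ++ O (i + 1) ++ E (i + 1)) (ev (vp wt K θ)) * 1).rank := by
    rw [Filter.eventually_all_finset]
    intro i hi
    have hi' : i < t := Finset.mem_range.1 hi
    refine rk_ev wt A K _ (hT i hi') r 1 1 a ?_
    rw [one_mul, mul_one]
    obtain ⟨X, Y, hXY⟩ := s3_mid E (fun i => O (i + 1)) t i hi'
    refine ha.trans ?_
    rw [hsh, hXY]
    have : O 0 ++ (X ++ (E i ++ O (i + 1) ++ E (i + 1)) ++ Y) ++ O (t + 1) =
        (O 0 ++ X) ++ (E i ++ O (i + 1) ++ E (i + 1)) ++ (Y ++ O (t + 1)) := by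
      simp only [List.append_assoc]
    rw [this]
    exact rk_mid A _ _ _ (ev a)
  have h3 : ∀ᶠ θ in zar k (Fin K ⊕ Fin K),
      dot Φ (rp (tr g A) L (mix S (ev a) (ev (vp wt K θ)))) ≠ 0 := by
    refine PF.ev_ne ?_ ⟨θ₁, h⟩
    refine PF.dot Φ (M := fun θ => rp (tr g A) L (mix S (ev a) (ev (vp wt K θ)))) ?_
    intro p q
    have hpf := PF.comp (rp_pf (tr g A) L Sᶜ (ev a) p q) (g := vp wt K) (fun u => vp_pf wt K u)
    have heq : (fun θ : Fin K ⊕ Fin K → k => rp (tr g A) L (mix S (ev a) (ev (vp wt K θ))) p q) =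
        fun θ => rp (tr g A) L (mix Sᶜ (ev (vp wt K θ)) (ev a)) p q := by
      funext θ
      rw [s3_mix S]
    rw [heq]
    exact hpf
  have := zar_neBot k (Fin K ⊕ Fin K)
  obtain ⟨θ, hθ1, hθ2, hθ3⟩ := (h1.and (h2.and h3)).exists
  set v := vp wt K θ with hv
  classical
  set a' : V → k := fun u => if u ∈ S then a u else v u with ha'
  have hmix : mix S (ev a) (ev v) = ev a' := mix_ev S a v
  rw [hmix, rp_tr] at hθ3
  have hnE : ∀ i ≤ t, ∀ u ∈ E i, u ∉ S := by
    rintro i hi u hu ⟨j, hj, hu'⟩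
    exact s3_disj O E (t + 1) hnd u hj (by omega : i < t + 1) hu' hu
  have haE : ∀ i ≤ t, ∀ u ∈ E i, ev a' u = ev v u := by
    intro i hi u hu
    have : a' u = v u := if_neg (hnE i hi u hu)
    show Polynomial.leval (a' u) = Polynomial.leval (v u)
    rw [this]
  obtain ⟨e, he1, he2, he3⟩ := lemQ A (DD w) r t (fun g hg => DD_ge hg) E (fun i => O (i + 1))
    (O 0) (O (t + 1)) L hsh hnd v a' (hθ1 0 (by simp)) (hθ1 (t + 1) (by simp))
    (fun i hi => hθ1 (i + 1) (Finset.mem_range.2 (by omega))) (fun i hi => hE i hi a') (by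
      intro i hi
      rw [rp_congr A (E i) (haE i (by omega)), rp_congr A (E (i + 1)) (haE (i + 1) (by omega)),
        ← rp_append, ← rp_append]
      have := hθ2 i (Finset.mem_range.2 hi)
      rwa [one_mul, mul_one] at this) g hg Φ hθ3
  have hjet : mix {u | ∃ i ≤ t, u ∈ E i} (ev a') (jet e v) = jet e v := by
    funext u
    unfold mix
    split_ifs with hu
    · obtain ⟨i, hi, hui⟩ := hu
      rw [haE i hi u hui, s3_jet e v u (he1 u ⟨i, hi, hui⟩)]
    · rfl
  rw [hjet, ← s3_univ (jet e v) (ev a)] at he3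
  obtain ⟨θ', hθ'⟩ := ldr wt hwt (tr g A) L hnd Φ ((DD w + 2) * DD w) v _ (ev a) e he2 he3
  rw [s3_univ, rp_tr] at hθ'
  obtain ⟨θ'', hθ''⟩ := vp_add wt K ((DD w + 2) * DD w) θ θ'
  refine ⟨θ'', ?_⟩
  rw [hθ'']
  exact hθ'

end Pool.Agent.UNK
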