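import Pool.Agent.UNK.S2
import Pool.Agent.UNK.S3

/-!
Project UNK (MP_e2be99_lc), module Co.  Text: /team-store/unk_h34.md (section 6, CORE).
Definitions in `Pool/Agent/UNK/Defs.lean`.  Replace the `sorry`; keep the statements; helper lemmas private.

PLAN.
`Bs.flatten = con O E t` with `O i = Bs.getD (2 i) []`, `E i = Bs.getD (2 i + 1) []` (`bs_con`, induction on `t`, `Bs = Bs' ++ [x, y]` or by
`List.getD`).  `t = 0`: one block, `cpl_mono`.  `t = s + 1`: let `dot Φ (tp g (rp A L (ev a₁))) ≠ 0`, `g ≤ w`.  Choose one point `a` with this and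
`r ≤ rank (rp A L (ev a))`: both are generic properties of `a` in `zar k V` (`rp_pf'`, `tp_pf`, `PF.dot`, `PF.ev_ne`; for the rank: `fac_ge` at the given
point, the determinant of `U * rp A L (ev a) * W` is a polynomial function, `ge_of_fac`).  `step2` at level `K`: `θ₁` at level `K + (DD w + 2) * DD w`, by `vp_mono` a `θ₁` at
level `K3 = K + QQ w`, `QQ w = (DD w + 4) * DD w`.  `step3` at level `K3`: `O i` complete (`cpl_mono`), `E i ++ O (i+1) ++ E (i+1)` complete at level `K + 4 * DD w ≤ K3`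
(`glue` twice, sublists of a nodup list; `4 * DD w ≤ QQ w`), `hE` from `hr`.  Result at level `K3 + (DD w + 2) * DD w ≤ K + 2 * QQ w`: `vp_mono`.
-/

set_option autoImplicit false

namespace Pool.Agent.UNK

open MvPolynomial

universe u

private theorem Co_congr {α : Type} {O E O' E' : ℕ → List α} (t : ℕ) (hO : ∀ i ≤ t, O i = O' i)
    (hE : ∀ i < t, E i = E' i) : con O E t = con O' E' t := by
  induction t with
  | zero => exact hO 0 le_rfl
  | succ t ih =>
    show con O E t ++ E t ++ O (t + 1) = con O' E' t ++ E' t ++ O' (t + 1)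
    rw [ih (fun i hi => hO i (by omega)) (fun i hi => hE i (by omega)), hE t (by omega),
      hO (t + 1) le_rfl]

theorem bs_con {α : Type} (t : ℕ) (Bs : List (List α)) (h : Bs.length = 2 * t + 1) :
    Bs.flatten = con (fun i => Bs.getD (2 * i) []) (fun i => Bs.getD (2 * i + 1) []) t := by
  induction t generalizing Bs with
  | zero =>
    obtain ⟨x, rfl⟩ := List.length_eq_one_iff.1 h
    simp [con]
  | succ t ih =>
    have h1 : 2 * t + 1 < Bs.length := by omega
    have h2 : 2 * t + 2 < Bs.length := by omega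
    have e1 : Bs = Bs.take (2 * t + 1) ++ [Bs.getD (2 * t + 1) [], Bs.getD (2 * t + 2) []] := by
      conv_lhs => rw [← List.take_append_drop (2 * t + 1) Bs]
      congr 1
      rw [List.getD_eq_getElem _ _ h1, List.getD_eq_getElem _ _ h2, List.drop_eq_getElem_cons h1,
        List.drop_eq_getElem_cons h2, List.drop_eq_nil_of_le (by omega)]
    have h3 : (Bs.take (2 * t + 1)).length = 2 * t + 1 := by
      rw [List.length_take]
      omega
    have e2 : Bs.flatten = (Bs.take (2 * t + 1)).flatten ++ Bs.getD (2 * t + 1) [] ++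
        Bs.getD (2 * t + 2) [] := by
      conv_lhs => rw [e1]
      simp
    have e3 : ∀ i < 2 * t + 1, (Bs.take (2 * t + 1)).getD i [] = Bs.getD i [] := by
      intro i hi
      rw [List.getD_eq_getElem _ _ (by omega), List.getD_eq_getElem _ _ (by omega),
        List.getElem_take]
    rw [e2, ih _ h3]
    show _ = con _ _ t ++ Bs.getD (2 * t + 1) [] ++ Bs.getD (2 * (t + 1)) []
    rw [Co_congr t (fun i hi => e3 (2 * i) (by omega)) (fun i hi => e3 (2 * i + 1) (by omega))]
    rfl

private theorem Co_last {α : Type} (O E : ℕ → List α) (t : ℕ) : ∃ X, con O E t = X ++ O t := by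
  cases t with
  | zero => exact ⟨[], rfl⟩
  | succ t => exact ⟨con O E t ++ E t, rfl⟩

private theorem Co_mid {α : Type} (O E : ℕ → List α) (t : ℕ) (i : ℕ) (hi : i + 1 < t) :
    ∃ X Y, con O E t = X ++ (E i ++ O (i + 1) ++ E (i + 1)) ++ Y := by
  induction t with
  | zero => exact absurd hi (Nat.not_lt_zero _)
  | succ t ih =>
    rcases Nat.lt_or_ge (i + 1) t with h | h
    · obtain ⟨X, Y, hXY⟩ := ih h
      refine ⟨X, Y ++ E t ++ O (t + 1), ?_⟩
      show con O E t ++ E t ++ O (t + 1) = _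
      rw [hXY]
      simp only [List.append_assoc]
    · have hit : t = i + 1 := by omega
      subst hit
      refine ⟨con O E i, O (i + 1 + 1), ?_⟩
      show con O E i ++ E i ++ O (i + 1) ++ E (i + 1) ++ O (i + 1 + 1) = _
      simp only [List.append_assoc]

theorem core {k : Type u} [Field k] [CharZero k] {V : Type} [Fintype V] [DecidableEq V] {w : ℕ}
    (wt : V → ℕ) (hwt : Function.Injective wt) (A : V → Matrix (Fin w) (Fin w) (Polynomial k))
    (K r t : ℕ) (Bs : List (List V)) (hlen : Bs.length = 2 * t + 1) (hnd : Bs.flatten.Nodup)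
    (hc : ∀ B ∈ Bs, Cpl wt A K B) (hr : ∀ B ∈ Bs, ∀ a, (rp A B (ev a)).rank ≤ r)
    (ha : ∃ a, r ≤ (rp A Bs.flatten (ev a)).rank) : Cpl wt A (K + 2 * QQ w) Bs.flatten := by
  have hinf : Infinite k := inferInstance
  have hmem : ∀ i < 2 * t + 1, Bs.getD i [] ∈ Bs := by
    intro i hi
    rw [List.getD_eq_getElem _ _ (by omega)]
    exact List.getElem_mem _
  obtain ⟨O, hO⟩ : ∃ O : ℕ → List V, O = fun i => Bs.getD (2 * i) [] := ⟨_, rfl⟩
  obtain ⟨E, hE⟩ : ∃ E : ℕ → List V, E = fun i => Bs.getD (2 * i + 1) [] := ⟨_, rfl⟩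
  have hOm : ∀ i ≤ t, O i ∈ Bs := fun i hi => by
    rw [hO]
    exact hmem _ (by omega)
  have hEm : ∀ i < t, E i ∈ Bs := fun i hi => by
    rw [hE]
    exact hmem _ (by omega)
  have hcon : Bs.flatten = con O E t := by
    rw [bs_con t Bs hlen, hO, hE]
  rw [hcon] at hnd ha ⊢
  rcases t with _ | s
  · exact cpl_mono wt A (Nat.le_add_right _ _) (hc _ (hOm 0 le_rfl))
  intro g hg Φ h1
  -- one point with both properties
  have hev1 : ∀ᶠ a in zar k V, dot Φ (tp g (rp A (con O E (s + 1)) (ev a))) ≠ 0 :=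
    PF.ev_ne (PF.dot Φ (tp_pf g (rp_pf' A (con O E (s + 1))))) h1
  have hev2 : ∀ᶠ a in zar k V, r ≤ (rp A (con O E (s + 1)) (ev a)).rank := by
    obtain ⟨a₀, ha₀⟩ := ha
    obtain ⟨U, W, hUW⟩ := fac_ge ha₀
    have hpf : PF (fun a : V → k => (U * rp A (con O E (s + 1)) (ev a) * W).det) := by
      refine PF.det ?_
      intro p q
      refine PF.mmul (M := fun a : V → k => U * rp A (con O E (s + 1)) (ev a)) (N := fun _ => W) ?_
        (fun _ _ => PF.const _) p q
      intro p' q'
      exact PF.mmul (M := fun _ : V → k => U) (N := fun a : V → k => rp A (con O E (s + 1)) (ev a))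
        (fun _ _ => PF.const _) (rp_pf' A (con O E (s + 1))) p' q'
    have h2 := PF.ev_ne hpf ⟨a₀, by rw [hUW, Matrix.det_one]; exact one_ne_zero⟩
    filter_upwards [h2] with a ha
    exact ge_of_fac ha
  have := zar_neBot k V
  obtain ⟨a, ha1, ha2⟩ := (hev1.and hev2).exists
  -- step 2
  obtain ⟨θ, hθ⟩ := step2 wt hwt A K r (s + 1) O E hnd (fun i hi => hc _ (hEm i hi))
    (fun i hi a => hr _ (hOm i hi) a) g hg Φ a ha2 ha1
  have hle1 : K + (DD w + 2) * DD w ≤ K + QQ w := by
    unfold QQ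
    exact Nat.add_le_add_left (Nat.mul_le_mul_right _ (by omega)) _
  obtain ⟨θ₁, hθ₁⟩ := vp_mono wt hle1 θ
  rw [← hθ₁] at hθ
  -- step 3
  have hle2 : K + 2 * DD w + 2 * DD w ≤ K + QQ w := by
    unfold QQ
    have h3 : 4 * DD w ≤ (DD w + 4) * DD w := Nat.mul_le_mul_right _ (by omega)
    omega
  have hT : ∀ i < s, Cpl wt A (K + QQ w) (E i ++ O (i + 1) ++ E (i + 1)) := by
    intro i hi
    obtain ⟨X, Y, hXY⟩ := Co_mid O E (s + 1) i (by omega)
    have hnd3 : (E i ++ O (i + 1) ++ E (i + 1)).Nodup := by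
      rw [hXY] at hnd
      exact (List.nodup_append.1 (List.nodup_append.1 hnd).1).2.1
    have hnd2 : (E i ++ O (i + 1)).Nodup := (List.nodup_append.1 hnd3).1
    have c1 := glue wt hwt A hnd2 (hc _ (hEm i (by omega))) (hc _ (hOm (i + 1) (by omega)))
    have c2 := glue wt hwt A hnd3 c1
      (cpl_mono wt A (Nat.le_add_right _ _) (hc _ (hEm (i + 1) (by omega))))
    exact cpl_mono wt A hle2 c2
  obtain ⟨θ₂, hθ₂⟩ := step3 wt hwt A (K + QQ w) r s O E hnd
    (fun i hi => cpl_mono wt A (Nat.le_add_right _ _) (hc _ (hOm i hi))) hT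
    (fun i hi a => hr _ (hEm i (by omega)) a) g hg Φ a ha2 θ₁ hθ
  have hle3 : K + QQ w + (DD w + 2) * DD w ≤ K + 2 * QQ w := by
    have h3 : (DD w + 2) * DD w ≤ QQ w := Nat.mul_le_mul_right _ (by omega)
    omega
  obtain ⟨θ₃, hθ₃⟩ := vp_mono wt hle3 θ₂
  exact ⟨θ₃, by rw [hθ₃]; exact hθ₂⟩

end Pool.Agent.UNK
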