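import Pool.Agent.UNK.T1
import Pool.Agent.UNK.Blk
import Pool.Agent.UNK.Co

/-!
Project UNK (MP_e2be99_lc), module Ca.  Text: /team-store/unk_h34.md (section 7, Lemma C).
Definitions in `Pool/Agent/UNK/Defs.lean`.  

PLAN.
`hp b g S J` is the product over `J` with `g x` for `x ∈ S`, `b x` otherwise.
* `crit_infix`: `Ψ' M = Ψ (hp .. X * M * hp .. Y)` with all of `X`, `Y` at `g`: for a choice `S` on `J` use the choice `S ∪ X ∪ Y` on
  `X ++ J ++ Y` (minus nothing: nodup); the ranks condition is inherited.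
* `crit_blocks`: let `Bs.length ≥ 2 t + 1`; the first `2 t + 1` blocks are `con O E t` (`bs_con`; `O i = Bs.getD (2i) []`, `E i = Bs.getD (2i+1) []`).  `t1` (`ρ = r`) with
  `D i = hp b g univ (O i)`, `B i = hp b g ∅ (E i)`, `E i = hp b g univ (E i)` (`g` resp. `b` everywhere), the functional being `X ↦ Ψ (X * rest)`
  (`dot_fun`): the ranks of mixed products of consecutive blocks equal those of the all-`g` product: `≥ r` (infix of `Bs.flatten`).  It gives `S` with `|S| ≤ w ^ 2`; the
  blocks `E i` are nonempty, so by criticality `S = range t`: `t ≤ w ^ 2`.  Hence `Bs.length ≤ 2 * w ^ 2 + 2`.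
* `crit_rec`: induction on `j`: if `Crit` and (`J = []` or `w + 1 - j ≤ rank` of the all-`g` product) then `J.length ≤ Fc w j`.  `j = 0`: `J = []` (rank `≤ w`).  Step,
  `r = w + 1 - (j+1)`: `blk` with `P J' := J' = [] ∨ r + 1 ≤ rank (hp .. univ J')`; pieces `P'`, `T` have length `≤ Fc w j` (`crit_infix`, induction hypothesis), the number of
  blocks is `≤ 2 w ^ 2 + 2`: length `≤ (2 w ^ 2 + 2) * (Fc w j + 1) + Fc w j ≤ Fc w (j + 1)`.  (If `j + 1 > w + 1` then `r = 0` twice: only `j ≤ w + 1` is
  needed.)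
* `lemC`: `j = w + 1`.
-/

set_option autoImplicit false

namespace Pool.Agent.UNK

open MvPolynomial

universe u

section

variable {k : Type u} [Field k] {α : Type} {w : ℕ}

open scoped Classical in
/-- product over the list with the choice `S` -/
noncomputable def hp (b g : α → Matrix (Fin w) (Fin w) k) (S : Set α) (J : List α) :
    Matrix (Fin w) (Fin w) k :=
  (J.map fun x => if x ∈ S then g x else b x).prod

/-- critical lists -/
def Crit (b g : α → Matrix (Fin w) (Fin w) k) (Ψ : Matrix (Fin w) (Fin w) k →ₗ[k] k)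
    (J : List α) : Prop :=
  (∀ J' : List α, J' <:+: J → ∀ S T : Set α, (hp b g S J').rank = (hp b g T J').rank) ∧
    Ψ (hp b g Set.univ J) ≠ 0 ∧ ∀ S : Set α, (∃ x ∈ J, x ∉ S) → Ψ (hp b g S J) = 0

private theorem hp_nil (b g : α → Matrix (Fin w) (Fin w) k) (S : Set α) : hp b g S [] = 1 := by
  simp [hp]

private theorem hp_append (b g : α → Matrix (Fin w) (Fin w) k) (S : Set α) (J J' : List α) :
    hp b g S (J ++ J') = hp b g S J * hp b g S J' := by
  simp [hp]

private theorem hp_congr (b g : α → Matrix (Fin w) (Fin w) k) (S T : Set α) (J : List α)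
    (h : ∀ x ∈ J, (x ∈ S ↔ x ∈ T)) : hp b g S J = hp b g T J := by
  classical
  unfold hp
  congr 1
  apply List.map_congr_left
  intro x hx
  by_cases hS : x ∈ S
  · rw [if_pos hS, if_pos ((h x hx).1 hS)]
  · rw [if_neg hS, if_neg (fun hT => hS ((h x hx).2 hT))]

theorem crit_infix (b g : α → Matrix (Fin w) (Fin w) k) (Ψ : Matrix (Fin w) (Fin w) k →ₗ[k] k)
    (X J Y : List α) (hnd : (X ++ J ++ Y).Nodup) (h : Crit b g Ψ (X ++ J ++ Y)) :
    ∃ Ψ' : Matrix (Fin w) (Fin w) k →ₗ[k] k, Crit b g Ψ' J := by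
  refine ⟨Ψ ∘ₗ (LinearMap.mulRight k (hp b g Set.univ Y)) ∘ₗ
    (LinearMap.mulLeft k (hp b g Set.univ X)), ?_, ?_, ?_⟩
  · intro J' hJ' S T
    apply h.1
    exact hJ'.trans ⟨X, Y, rfl⟩
  · have h2 := h.2.1
    rw [hp_append, hp_append] at h2
    simpa using h2
  · intro S hS
    obtain ⟨x, hxJ, hxS⟩ := hS
    have hdX : ∀ y ∈ X, y ∉ J := by
      intro y hy hyJ
      have h1 := (List.nodup_append.1 (List.nodup_append.1 hnd).1).2.2 y hy y hyJ
      exact h1 rfl
    have hdY : ∀ y ∈ Y, y ∉ J := by
      intro y hy hyJ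
      have h1 := (List.nodup_append.1 hnd).2.2 y (List.mem_append_right _ hyJ) y hy
      exact h1 rfl
    have h3 := h.2.2 {y | y ∈ S ∨ y ∉ J} ⟨x, by simp [hxJ], by
      intro hh
      rcases hh with hh | hh
      · exact hxS hh
      · exact hh hxJ⟩
    rw [hp_append, hp_append] at h3
    have e1 : hp b g {y | y ∈ S ∨ y ∉ J} X = hp b g Set.univ X := by
      apply hp_congr
      intro y hy
      exact ⟨fun _ => Set.mem_univ _, fun _ => Or.inr (hdX y hy)⟩
    have e2 : hp b g {y | y ∈ S ∨ y ∉ J} Y = hp b g Set.univ Y := by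
      apply hp_congr
      intro y hy
      exact ⟨fun _ => Set.mem_univ _, fun _ => Or.inr (hdY y hy)⟩
    have e3 : hp b g {y | y ∈ S ∨ y ∉ J} J = hp b g S J := by
      apply hp_congr
      intro y hy
      constructor
      · intro hh
        rcases hh with hh | hh
        · exact hh
        · exact absurd hy hh
      · intro hh
        exact Or.inl hh
    rw [e1, e2, e3] at h3
    simpa using h3

private theorem con_suffix (O E : ℕ → List α) (t : ℕ) : ∃ Y, con O E t = Y ++ O t := by
  cases t with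
  | zero => exact ⟨[], by simp [con]⟩
  | succ t => exact ⟨con O E t ++ E t, by simp [con]⟩

private theorem con_infix (O E : ℕ → List α) (t : ℕ) :
    ∀ i < t, (O i ++ E i ++ O (i + 1)) <:+: con O E t := by
  induction t with
  | zero => intro i hi; omega
  | succ t ih =>
    intro i hi
    rcases Nat.lt_succ_iff_lt_or_eq.1 hi with h | h
    · refine (ih i h).trans ⟨[], E t ++ O (t + 1), ?_⟩
      simp [con]
    · subst h
      obtain ⟨Y, hY⟩ := con_suffix O E i
      refine ⟨Y, [], ?_⟩
      simp [con, hY]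

private theorem mcon_hp (b g : α → Matrix (Fin w) (Fin w) k) (O E : ℕ → List α) (S : ℕ → Prop)
    [DecidablePred S] (T : Set α) (t : ℕ) (hO : ∀ i ≤ t, ∀ x ∈ O i, x ∈ T)
    (hE1 : ∀ i < t, S i → ∀ x ∈ E i, x ∈ T) (hE2 : ∀ i < t, ¬ S i → ∀ x ∈ E i, x ∉ T) :
    mcon (fun i => hp b g Set.univ (O i))
      (fun i => if S i then hp b g Set.univ (E i) else hp b g ∅ (E i)) t = hp b g T (con O E t) := by
  induction t with
  | zero =>
    simp only [mcon, con]
    apply hp_congr
    intro x hx
    exact ⟨fun _ => hO 0 (le_refl 0) x hx, fun _ => Set.mem_univ x⟩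
  | succ t ih =>
    simp only [mcon, con]
    rw [ih (fun i hi => hO i (by omega)) (fun i hi => hE1 i (by omega))
      (fun i hi => hE2 i (by omega)), hp_append, hp_append]
    congr 1
    · congr 1
      by_cases hS : S t
      · rw [if_pos hS]
        apply hp_congr
        intro x hx
        exact ⟨fun _ => hE1 t (by omega) hS x hx, fun _ => Set.mem_univ x⟩
      · rw [if_neg hS]
        apply hp_congr
        intro x hx
        exact ⟨fun h => absurd h (Set.notMem_empty x), fun h => absurd h (hE2 t (by omega) hS x hx)⟩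
    · apply hp_congr
      intro x hx
      exact ⟨fun _ => hO (t + 1) (le_refl _) x hx, fun _ => Set.mem_univ x⟩

private theorem rank_infix (b g : α → Matrix (Fin w) (Fin w) k) (S : Set α) {J L : List α}
    (h : J <:+: L) : (hp b g S L).rank ≤ (hp b g S J).rank := by
  obtain ⟨X, Y, rfl⟩ := h
  rw [hp_append, hp_append]
  exact (Matrix.rank_mul_le_left _ _).trans (Matrix.rank_mul_le_right _ _)

theorem crit_blocks (b g : α → Matrix (Fin w) (Fin w) k) (Ψ : Matrix (Fin w) (Fin w) k →ₗ[k] k)
    (r : ℕ) (Bs : List (List α)) (hnd : Bs.flatten.Nodup) (h : Crit b g Ψ Bs.flatten)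
    (hne : ∀ B ∈ Bs, B ≠ []) (hle : ∀ B ∈ Bs, (hp b g Set.univ B).rank ≤ r)
    (hge : r ≤ (hp b g Set.univ Bs.flatten).rank) : Bs.length ≤ 2 * w ^ 2 + 2 := by
  classical
  by_contra hcon
  push Not at hcon
  obtain ⟨t, ht⟩ : ∃ t, t = w ^ 2 + 1 := ⟨_, rfl⟩
  have hlen : 2 * t + 1 ≤ Bs.length := by omega
  obtain ⟨Bs1, Bs2, hBs, hl1⟩ : ∃ Bs1 Bs2 : List (List α), Bs = Bs1 ++ Bs2 ∧ Bs1.length = 2 * t + 1 :=
    ⟨Bs.take (2 * t + 1), Bs.drop (2 * t + 1), (List.take_append_drop _ _).symm, by
      rw [List.length_take]; omega⟩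
  set O : ℕ → List α := fun i => Bs1.getD (2 * i) [] with hOdef
  set E : ℕ → List α := fun i => Bs1.getD (2 * i + 1) [] with hEdef
  have hcon' : Bs1.flatten = con O E t := bs_con t Bs1 hl1
  have hflat : Bs.flatten = con O E t ++ Bs2.flatten := by
    rw [hBs, List.flatten_append, hcon']
  have hmem : ∀ m < 2 * t + 1, Bs1.getD m [] ∈ Bs := by
    intro m hm
    rw [List.getD_eq_getElem _ _ (by omega), hBs]
    exact List.mem_append_left _ (List.getElem_mem _)
  have hnd1 : Bs1.flatten.Nodup := by
    rw [hBs, List.flatten_append] at hnd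
    exact (List.nodup_append.1 hnd).1
  have hdisj : ∀ m n, m < 2 * t + 1 → n < 2 * t + 1 → m ≠ n → ∀ x, x ∈ Bs1.getD m [] →
      x ∉ Bs1.getD n [] := by
    intro m n hm hn hmn x hx hx'
    rw [List.getD_eq_getElem _ _ (by omega)] at hx hx'
    have hp := (List.nodup_flatten.1 hnd1).2
    rw [List.pairwise_iff_getElem] at hp
    rcases Nat.lt_or_gt_of_ne hmn with hlt | hlt
    · exact hp m n (by omega) (by omega) hlt hx hx'
    · exact hp n m (by omega) (by omega) hlt hx' hx
  have hnd' : (con O E t).Nodup := by rw [← hcon']; exact hnd1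
  have hsub : ∀ J, J <:+: con O E t → J <:+: Bs.flatten := by
    intro J hJ
    rw [hflat]
    exact hJ.trans ⟨[], Bs2.flatten, by simp⟩
  obtain ⟨Φ, hΦ⟩ := dot_fun (Ψ ∘ₗ (LinearMap.mulRight k (hp b g Set.univ Bs2.flatten)))
  have hΦ' : ∀ M, dot Φ M = Ψ (M * hp b g Set.univ Bs2.flatten) := by
    intro M
    rw [← hΦ]
    simp
  obtain ⟨S, hSt, hSc, hS⟩ := t1 r t (fun i => hp b g Set.univ (O i)) (fun i => hp b g ∅ (E i))
    (fun i => hp b g Set.univ (E i)) Φ
    (fun i hi => hle _ (hmem (2 * i) (by omega)))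
    (by
      intro i hi
      have e : hp b g Set.univ (O i) * hp b g ∅ (E i) * hp b g Set.univ (O (i + 1)) =
          hp b g {x | x ∉ E i} (O i ++ E i ++ O (i + 1)) := by
        rw [hp_append, hp_append]
        congr 1
        · congr 1
          · apply hp_congr
            intro x hx
            exact ⟨fun _ => hdisj (2 * i) (2 * i + 1) (by omega) (by omega) (by omega) x hx,
              fun _ => Set.mem_univ x⟩
          · apply hp_congr
            intro x hx
            exact ⟨fun h => absurd h (Set.notMem_empty x), fun h => absurd hx h⟩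
        · apply hp_congr
          intro x hx
          exact ⟨fun _ => hdisj (2 * (i + 1)) (2 * i + 1) (by omega) (by omega) (by omega) x hx,
            fun _ => Set.mem_univ x⟩
      have hin := hsub _ (con_infix O E t i hi)
      show r ≤ (hp b g Set.univ (O i) * hp b g ∅ (E i) * hp b g Set.univ (O (i + 1))).rank
      rw [e, h.1 _ hin _ Set.univ]
      exact hge.trans (rank_infix b g Set.univ hin))
    (by
      rw [hΦ']
      have e := mcon_hp b g O E (fun _ => True) Set.univ t (fun _ _ x _ => Set.mem_univ x)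
        (fun _ _ _ x _ => Set.mem_univ x) (fun _ _ hn => absurd trivial hn)
      simp only [if_true] at e
      rw [e, ← hp_append, ← hflat]
      exact h.2.1)
  rw [Fintype.card_fin] at hSc
  have hex : ∃ i0 < t, i0 ∉ S := by
    by_contra hno
    push Not at hno
    have : Finset.range t ⊆ S := fun i hi => hno i (Finset.mem_range.1 hi)
    have := Finset.card_le_card this
    rw [Finset.card_range] at this
    omega
  obtain ⟨i0, hi0, hi0S⟩ := hex
  apply hS
  rw [hΦ']
  let T : Set α := {x | ∀ i < t, i ∉ S → x ∉ E i}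
  have e := mcon_hp b g O E (fun i => i ∈ S) T t
    (by
      intro i hi x hx i' hi' _
      exact hdisj (2 * i) (2 * i' + 1) (by omega) (by omega) (by omega) x hx)
    (by
      intro i hi hiS x hx i' hi' hi'S
      exact hdisj (2 * i + 1) (2 * i' + 1) (by omega) (by omega) (by
        intro hh
        have : i = i' := by omega
        rw [this] at hiS
        exact hi'S hiS) x hx)
    (by
      intro i hi hiS x hx hxT
      exact hxT i hi hiS hx)
  rw [e]
  have e2 : hp b g Set.univ Bs2.flatten = hp b g T Bs2.flatten := by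
    apply hp_congr
    intro x hx
    constructor
    · intro _ i hi _ hxE
      rw [hflat] at hnd
      have h1 := (List.nodup_append.1 hnd).2.2 x (by
        have h2 := con_infix O E t i hi
        exact h2.subset (by simp [hxE])) x hx
      exact h1 rfl
    · intro _
      exact Set.mem_univ x
  rw [e2, ← hp_append, ← hflat]
  apply h.2.2
  have hEne : E i0 ≠ [] := hne _ (hmem (2 * i0 + 1) (by omega))
  obtain ⟨x, hx⟩ := List.exists_mem_of_ne_nil _ hEne
  refine ⟨x, ?_, fun hxT => hxT i0 hi0 hi0S hx⟩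
  exact (hsub _ (con_infix O E t i0 hi0)).subset (by simp [hx])

theorem crit_rec (b g : α → Matrix (Fin w) (Fin w) k) (j : ℕ) (hj : j ≤ w + 1) (J : List α)
    (hJ : J.Nodup) (Ψ : Matrix (Fin w) (Fin w) k →ₗ[k] k) (h : Crit b g Ψ J)
    (hr : J = [] ∨ w + 1 ≤ (hp b g Set.univ J).rank + j) : J.length ≤ Fc w j := by
  induction j generalizing J Ψ with
  | zero =>
    rcases hr with hr | hr
    · rw [hr]; simp
    · have := Matrix.rank_le_width (hp b g Set.univ J)
      omega
  | succ j ih =>
    rcases hr with hr | hr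
    · rw [hr]; simp
    obtain ⟨Bs, T, hL, hT, hB⟩ := blk (fun J' : List α => J' = [] ∨
      w + 1 ≤ (hp b g Set.univ J').rank + j) (Or.inl rfl) J
    have hTlen : T.length ≤ Fc w j := by
      obtain ⟨Ψ', hΨ'⟩ := crit_infix b g Ψ Bs.flatten T [] (by rw [List.append_nil, ← hL]; exact hJ)
        (by rw [List.append_nil, ← hL]; exact h)
      exact ih (by omega) T (by rw [hL] at hJ; exact (List.nodup_append.1 hJ).2.1) Ψ' hΨ' hT
    have hBlen : ∀ B ∈ Bs, B.length ≤ Fc w j + 1 := by
      intro B hBm
      obtain ⟨P', u, hBP, hP'⟩ := (hB B hBm).2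
      obtain ⟨s, t, hst⟩ := List.append_of_mem hBm
      have e : J = s.flatten ++ P' ++ ([u] ++ t.flatten ++ T) := by
        rw [hL, hst, hBP]
        simp
      obtain ⟨Ψ', hΨ'⟩ := crit_infix b g Ψ s.flatten P' ([u] ++ t.flatten ++ T)
        (by rw [← e]; exact hJ) (by rw [← e]; exact h)
      have := ih (by omega) P' (by
        rw [e] at hJ
        exact (List.nodup_append.1 (List.nodup_append.1 hJ).1).2.1) Ψ' hΨ' hP'
      rw [hBP]
      simp only [List.length_append, List.length_singleton]
      omega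
    have hnum : Bs.length ≤ 2 * w ^ 2 + 2 := by
      obtain ⟨Ψ', hΨ'⟩ := crit_infix b g Ψ [] Bs.flatten T (by rw [List.nil_append, ← hL]; exact hJ)
        (by rw [List.nil_append, ← hL]; exact h)
      refine crit_blocks b g Ψ' (w - j) Bs (by rw [hL] at hJ; exact (List.nodup_append.1 hJ).1)
        hΨ' ?_ ?_ ?_
      · intro B hBm hBn
        exact (hB B hBm).1 (Or.inl hBn)
      · intro B hBm
        have := (hB B hBm).1
        push Not at this
        have := this.2
        omega
      · have h1 : (hp b g Set.univ J).rank ≤ (hp b g Set.univ Bs.flatten).rank :=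
          rank_infix b g Set.univ ⟨[], T, by rw [List.nil_append]; exact hL.symm⟩
        omega
    have hsum : Bs.flatten.length ≤ Bs.length * (Fc w j + 1) := by
      rw [List.length_flatten]
      have := List.sum_le_card_nsmul (Bs.map List.length) (Fc w j + 1) (by
        intro x hx
        obtain ⟨B, hBm, rfl⟩ := List.mem_map.1 hx
        exact hBlen B hBm)
      rw [List.length_map, smul_eq_mul] at this
      exact this
    have hJlen : J.length = Bs.flatten.length + T.length := by
      rw [hL, List.length_append]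
    have hmul : Bs.length * (Fc w j + 1) ≤ (2 * w ^ 2 + 2) * (Fc w j + 1) :=
      Nat.mul_le_mul_right _ hnum
    have hFc : Fc w (j + 1) = (2 * w ^ 2 + 4) * (Fc w j + 1) := rfl
    have hexp : (2 * w ^ 2 + 4) * (Fc w j + 1) = (2 * w ^ 2 + 2) * (Fc w j + 1) + 2 * (Fc w j + 1) := by
      ring
    rw [hFc, hexp, hJlen]
    omega

theorem lemC (b g : α → Matrix (Fin w) (Fin w) k) (J : List α) (hJ : J.Nodup)
    (Ψ : Matrix (Fin w) (Fin w) k →ₗ[k] k) (h : Crit b g Ψ J) : J.length ≤ fc w :=
  crit_rec b g (w + 1) (le_refl _) J hJ Ψ h (Or.inr (by omega))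

end

end Pool.Agent.UNK
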