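import Pool.Agent.UNK.Rp

/-!
Project UNK (MP_e2be99_lc), module Mr.  Text: /team-store/unk_h34.md (section 8, functions linear in every variable).
Definitions in `Pool/Agent/UNK/Defs.lean`.

Values of rows and of sums of rows are in every variable constant or linear in the generalised point; such functions
which are nonzero at a generalised point are nonzero at a point, and evaluations can be replaced by jets of bounded order.
-/

set_option autoImplicit false
set_option linter.unusedSectionVars false
set_option linter.unusedSimpArgs false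

namespace Pool.Agent.UNK

open MvPolynomial

universe u

section

variable {k : Type u} [Field k] {V : Type} [Fintype V] [DecidableEq V] {w : ℕ}

omit [Fintype V] in
private theorem mr_aux (A : V → Matrix (Fin w) (Fin w) (Polynomial k)) (L' : List V) (hL : L'.Nodup)
    (Z : Set V) (u : V) (hu : u ∈ L') (huZ : u ∈ Z) (kap lam : GP k V) :
    ∃ X Y : Matrix (Fin w) (Fin w) k, ∀ nu : Polynomial k →ₗ[k] k,
      rp A L' (mix Z (Function.update lam u nu) kap) = X * (A u).map nu * Y := by
  obtain ⟨L₁, L₂, rfl⟩ := List.append_of_mem hu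
  rw [List.nodup_append] at hL
  obtain ⟨_, h2, h3⟩ := hL
  have hu1 : u ∉ L₁ := fun h => h3 u h u List.mem_cons_self rfl
  have hu2 : u ∉ L₂ := (List.nodup_cons.1 h2).1
  have hmix : ∀ nu, ∀ x, x ≠ u → mix Z (Function.update lam u nu) kap x = mix Z lam kap x := by
    intro nu x hx
    unfold mix
    rw [Function.update_of_ne hx]
  refine ⟨rp A L₁ (mix Z lam kap), rp A L₂ (mix Z lam kap), fun nu => ?_⟩
  have e1 : L₁ ++ u :: L₂ = L₁ ++ [u] ++ L₂ := by simp
  rw [e1, rp_append, rp_append, rp_single]
  have e2 : mix Z (Function.update lam u nu) kap u = nu := by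
    unfold mix
    rw [if_pos huZ, Function.update_self]
  rw [e2, rp_congr A L₁ (fun x hx => hmix nu x (fun h => hu1 (h ▸ hx))),
    rp_congr A L₂ (fun x hx => hmix nu x (fun h => hu2 (h ▸ hx)))]

private theorem mr_lin {M : Type*} [AddCommGroup M] [Module k M]
    (Θ : Matrix (Fin w) (Fin w) k →ₗ[k] M) (B : Matrix (Fin w) (Fin w) k) :
    Θ B = ∑ p, ∑ q, B p q • Θ (Matrix.single p q 1) := by
  conv_lhs => rw [Matrix.matrix_eq_sum_single B]
  rw [map_sum]
  refine Finset.sum_congr rfl fun p _ => ?_
  rw [map_sum]
  refine Finset.sum_congr rfl fun q _ => ?_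
  rw [← map_smul, Matrix.smul_single, smul_eq_mul, mul_one]

private theorem mr_lin' (Θ : Matrix (Fin w) (Fin w) k →ₗ[k] k)
    (B : Matrix (Fin w) (Fin w) (Polynomial k)) (nu : Polynomial k →ₗ[k] k) :
    Θ (B.map nu) = nu (∑ p, ∑ q, Θ (Matrix.single p q 1) • B p q) := by
  rw [mr_lin Θ, map_sum]
  refine Finset.sum_congr rfl fun p _ => ?_
  rw [map_sum]
  refine Finset.sum_congr rfl fun q _ => ?_
  rw [map_smul, Matrix.map_apply, smul_eq_mul, smul_eq_mul, mul_comm]

private theorem mr_span (Θ : Matrix (Fin w) (Fin w) k →ₗ[k] k)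
    (B : Matrix (Fin w) (Fin w) (Polynomial k)) :
    ∑ p, ∑ q, Θ (Matrix.single p q 1) • B p q ∈ Submodule.span k {h | ∃ p q, h = B p q} :=
  Submodule.sum_mem _ fun p _ => Submodule.sum_mem _ fun q _ =>
    Submodule.smul_mem _ _ (Submodule.subset_span ⟨p, q, rfl⟩)

theorem mr_row (A : V → Matrix (Fin w) (Fin w) (Polynomial k)) (L' : List V) (hL : L'.Nodup)
    (Z : Set V) {τ : Type} [Fintype τ] (kap : τ → GP k V)
    (Ψ : (τ → Matrix (Fin w) (Fin w) k) →ₗ[k] k) :
    MRH (fun u => Submodule.span k {h | ∃ p q, h = A u p q})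
      (fun lam => Ψ (fun l => rp A L' (mix Z lam (kap l)))) := by
  intro lam u
  by_cases hZ : u ∈ Z
  · by_cases hu : u ∈ L'
    · right
      choose X Y hXY using fun l : τ => mr_aux A L' hL Z u hu hZ (kap l) lam
      let Λ : Matrix (Fin w) (Fin w) k →ₗ[k] (τ → Matrix (Fin w) (Fin w) k) :=
        { toFun := fun M l => X l * M * Y l
          map_add' := fun M N => by
            funext l
            simp [Matrix.mul_add, Matrix.add_mul]
          map_smul' := fun c M => by
            funext l
            simp }
      let Θ : Matrix (Fin w) (Fin w) k →ₗ[k] k := Ψ.comp Λ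
      refine ⟨_, mr_span Θ (A u), fun nu => ?_⟩
      rw [← mr_lin']
      show Ψ (fun l => rp A L' (mix Z (Function.update lam u nu) (kap l))) =
        Ψ (fun l => X l * (A u).map nu * Y l)
      congr 1
      funext l
      exact hXY l nu
    · left
      intro nu
      show Ψ (fun l => rp A L' (mix Z (Function.update lam u nu) (kap l))) =
        Ψ (fun l => rp A L' (mix Z lam (kap l)))
      congr 1
      funext l
      refine rp_congr A L' fun x hx => ?_
      have hx' : x ≠ u := fun h => hu (h ▸ hx)
      unfold mix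
      rw [Function.update_of_ne hx']
  · left
    intro nu
    show Ψ (fun l => rp A L' (mix Z (Function.update lam u nu) (kap l))) =
      Ψ (fun l => rp A L' (mix Z lam (kap l)))
    congr 1
    funext l
    refine rp_congr A L' fun x _ => ?_
    unfold mix
    by_cases hx : x ∈ Z
    · have hx' : x ≠ u := fun h => hZ (h ▸ hx)
      rw [Function.update_of_ne hx']
    · rw [if_neg hx, if_neg hx]

omit [Fintype V] in
private theorem mr_FF (Z : Set V) (kap lam : GP k V) (u : V) (hu : u ∈ Z) :
    ∀ Rs : List (Row k V w), (∀ R ∈ Rs, R.L.Nodup ∧ u ∈ R.L) →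
      ∃ h ∈ HH Rs u, ∀ nu, FF Rs (mix Z (Function.update lam u nu) kap) = nu h := by
  intro Rs
  induction Rs with
  | nil =>
    intro _
    refine ⟨0, Submodule.zero_mem _, fun nu => ?_⟩
    rw [map_zero]
    rfl
  | cons R Rs ih =>
    intro hR
    obtain ⟨h, hh, hn⟩ := ih fun R' hR' => hR R' (List.mem_cons_of_mem _ hR')
    obtain ⟨h1, h2⟩ := hR R List.mem_cons_self
    obtain ⟨X, Y, hXY⟩ := mr_aux R.A R.L h1 Z u h2 hu kap lam
    let Θ : Matrix (Fin w) (Fin w) k →ₗ[k] k :=
      { toFun := fun M => dot R.Φ (X * M * Y)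
        map_add' := fun M N => by
          simp only [dot, Matrix.add_mul, Matrix.mul_add, Matrix.add_apply, mul_add,
            Finset.sum_add_distrib]
        map_smul' := fun c M => by
          simp only [dot, Matrix.mul_smul, Matrix.smul_mul, Matrix.smul_apply, smul_eq_mul,
            RingHom.id_apply, Finset.mul_sum]
          refine Finset.sum_congr rfl fun p _ => Finset.sum_congr rfl fun q _ => ?_
          ring }
    refine ⟨(∑ p, ∑ q, Θ (Matrix.single p q 1) • R.A u p q) + h, ?_, fun nu => ?_⟩
    · refine Submodule.add_mem _ (Submodule.span_mono ?_ (mr_span Θ (R.A u)))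
        (Submodule.span_mono ?_ hh)
      · rintro x ⟨p, q, rfl⟩
        exact ⟨R, List.mem_cons_self, p, q, rfl⟩
      · rintro x ⟨R', hR', p, q, rfl⟩
        exact ⟨R', List.mem_cons_of_mem _ hR', p, q, rfl⟩
    · have e1 : FF (R :: Rs) (mix Z (Function.update lam u nu) kap) =
          dot R.Φ (rp R.A R.L (mix Z (Function.update lam u nu) kap)) +
            FF Rs (mix Z (Function.update lam u nu) kap) := by
        simp [FF]
      rw [e1, hn nu, hXY nu, map_add, ← mr_lin']
      rfl

theorem mr_GG (Rs : List (Row k V w)) (hR : ∀ R ∈ Rs, R.L.Nodup ∧ ∀ u, u ∈ R.L) (Z : Set V)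
    {τ : Type} [Fintype τ] (gam : τ → k) (kap : τ → GP k V) (lam : GP k V) (u : V) (hu : u ∈ Z) :
    ∃ h ∈ HH Rs u, ∀ nu, GG Rs Z gam kap (Function.update lam u nu) = nu h := by
  choose h hh hn using fun l : τ =>
    mr_FF Z (kap l) lam u hu Rs fun R hRR => ⟨(hR R hRR).1, (hR R hRR).2 u⟩
  refine ⟨∑ l, gam l • h l, Submodule.sum_mem _ fun l _ => Submodule.smul_mem _ _ (hh l),
    fun nu => ?_⟩
  unfold GG
  rw [map_sum]
  refine Finset.sum_congr rfl fun l _ => ?_
  rw [map_smul, smul_eq_mul, hn l nu]

theorem mr_pt [Infinite k] (H : V → Submodule k (Polynomial k)) (W : GP k V → k) (hW : MRH H W)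
    (lam : GP k V) (h : W lam ≠ 0) : ∃ a : V → k, W (ev a) ≠ 0 := by
  have key : ∀ S : Finset V, ∃ lam' : GP k V, (∀ u ∈ S, ∃ c, lam' u = Polynomial.leval c) ∧
      W lam' ≠ 0 := by
    intro S
    induction S using Finset.induction_on with
    | empty => exact ⟨lam, by simp, h⟩
    | insert u S _ ih =>
      obtain ⟨lam', h1, h2⟩ := ih
      obtain ⟨c, hc⟩ : ∃ c : k, W (Function.update lam' u (Polynomial.leval c)) ≠ 0 := by
        rcases hW lam' u with hc | ⟨g, _, hg⟩
        · exact ⟨0, by rw [hc]; exact h2⟩
        · have hg0 : g ≠ 0 := by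
            rintro rfl
            apply h2
            have := hg (lam' u)
            rw [Function.update_eq_self, map_zero] at this
            exact this
          by_contra hno
          push Not at hno
          apply hg0
          apply Polynomial.funext
          intro r
          have := hno r
          rw [hg] at this
          rw [Polynomial.eval_zero]
          exact this
      refine ⟨Function.update lam' u (Polynomial.leval c), ?_, hc⟩
      intro x hx
      by_cases hxu : x = u
      · exact ⟨c, by rw [hxu, Function.update_self]⟩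
      · obtain ⟨c', hc'⟩ := h1 x ((Finset.mem_insert.1 hx).resolve_left hxu)
        exact ⟨c', by rw [Function.update_of_ne hxu, hc']⟩
  obtain ⟨lam', h1, h2⟩ := key Finset.univ
  choose a ha using fun u => h1 u (Finset.mem_univ u)
  refine ⟨a, ?_⟩
  have : ev a = lam' := by
    funext u
    exact (ha u).symm
  rw [this]
  exact h2

theorem dual (H : V → Submodule k (Polynomial k)) (N : ℕ) (v : V → k) (hv : UG H N v) (u : V)
    (nu : Polynomial k →ₗ[k] k) :
    ∃ η : ℕ → k, ∀ h ∈ H u,
      nu h = ∑ e ∈ Finset.range (N + 1), η e * (Polynomial.derivative^[e] h).eval (v u) := by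
  let D : H u →ₗ[k] (Fin (N + 1) → k) := LinearMap.pi fun e =>
    ((Polynomial.leval (v u)).comp
      (Polynomial.derivative ^ (e : ℕ) : Module.End k (Polynomial k))).comp (H u).subtype
  have hD : ∀ (h : H u) (e : Fin (N + 1)), D h e =
      (Polynomial.derivative^[(e : ℕ)] (h : Polynomial k)).eval (v u) := by
    intro h e
    show Polynomial.eval (v u) ((Polynomial.derivative ^ (e : ℕ) : Module.End k (Polynomial k))
      (h : Polynomial k)) = _
    rw [Module.End.pow_apply]
  have hker : LinearMap.ker D = ⊥ := by
    rw [LinearMap.ker_eq_bot']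
    intro h h0
    apply Subtype.ext
    apply hv u h h.2
    intro e he
    rw [← hD h ⟨e, by omega⟩, h0]
    rfl
  obtain ⟨g, hg⟩ := LinearMap.exists_leftInverse_of_injective D hker
  refine ⟨fun e => if he : e < N + 1 then nu (g (Pi.single ⟨e, he⟩ 1)) else 0, fun h hh => ?_⟩
  have h1 : (g (D ⟨h, hh⟩) : Polynomial k) = h := by
    have := LinearMap.congr_fun hg ⟨h, hh⟩
    rw [LinearMap.comp_apply] at this
    rw [this]
    rfl
  have h2 : D ⟨h, hh⟩ = ∑ e : Fin (N + 1), D ⟨h, hh⟩ e • (Pi.single e 1 : Fin (N + 1) → k) := by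
    funext i
    rw [Finset.sum_apply, Finset.sum_eq_single i]
    · simp
    · intro j _ hj
      simp [Pi.single_apply, hj.symm]
    · simp
  calc nu h = nu (g (D ⟨h, hh⟩) : Polynomial k) := by rw [h1]
    _ = ∑ e : Fin (N + 1), D ⟨h, hh⟩ e * nu (g (Pi.single e 1) : Polynomial k) := by
        conv_lhs => rw [h2]
        rw [map_sum, Submodule.coe_sum, map_sum]
        refine Finset.sum_congr rfl fun e _ => ?_
        rw [map_smul, Submodule.coe_smul, map_smul, smul_eq_mul]
    _ = _ := by
        rw [Finset.sum_range]
        refine Finset.sum_congr rfl fun e _ => ?_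
        show _ = (if he : (e : ℕ) < N + 1 then nu (g (Pi.single ⟨e, he⟩ 1)) else 0) * _
        rw [dif_pos e.2, hD, mul_comm]

theorem mr_jet (H : V → Submodule k (Polynomial k)) (W : GP k V → k) (hW : MRH H W) (N : ℕ)
    (v : V → k) (hv : UG H N v) (S : Finset V) (a : V → k)
    (h : W (mix (S : Set V) (ev a) (ev v)) ≠ 0) :
    ∃ e : V → ℕ, (∀ u, u ∉ S → e u = 0) ∧ ∑ u, e u ≤ S.card * N ∧ W (jet e v) ≠ 0 := by
  have key : ∀ S : Finset V, ∀ e : V → ℕ, (∀ u ∈ S, e u = 0) →
      W (mix (S : Set V) (ev a) (jet e v)) ≠ 0 →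
      ∃ e' : V → ℕ, (∀ u, u ∉ S → e' u = e u) ∧ (∀ u ∈ S, e' u ≤ N) ∧ W (jet e' v) ≠ 0 := by
    intro S
    induction S using Finset.induction_on with
    | empty =>
      intro e _ h0
      refine ⟨e, fun _ _ => rfl, by simp, ?_⟩
      have : mix ((∅ : Finset V) : Set V) (ev a) (jet e v) = jet e v := by
        funext x
        unfold mix
        rw [if_neg (by simp)]
      rwa [this] at h0
    | insert u S hu ih =>
      intro e he h0
      set lam : GP k V := mix ((insert u S : Finset V) : Set V) (ev a) (jet e v) with hlam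
      have hother : ∀ e1 : V → ℕ, (∀ x, x ≠ u → e1 x = e x) →
          mix (S : Set V) (ev a) (jet e1 v) = Function.update lam u (jet e1 v u) := by
        intro e1 he1
        funext x
        by_cases hxu : x = u
        · rw [hxu, Function.update_self]
          unfold mix
          rw [if_neg (by simpa using hu)]
        · rw [Function.update_of_ne hxu, hlam]
          have hj : jet e1 v x = jet e v x := by
            unfold jet
            rw [he1 x hxu]
          unfold mix
          by_cases hxS : x ∈ S
          · rw [if_pos (by simpa using hxS), if_pos (by simp [hxS])]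
          · rw [if_neg (by simpa using hxS), if_neg (by simp [hxS, hxu]), hj]
      obtain ⟨e1, h1, h2, h3⟩ : ∃ e1 : V → ℕ, (∀ x, x ≠ u → e1 x = e x) ∧ e1 u ≤ N ∧
          W (mix (S : Set V) (ev a) (jet e1 v)) ≠ 0 := by
        rcases hW lam u with hc | ⟨g, hgH, hg⟩
        · refine ⟨e, fun _ _ => rfl, by rw [he u (Finset.mem_insert_self _ _)]; exact Nat.zero_le _,
            ?_⟩
          rw [hother e (fun _ _ => rfl), hc]
          exact h0
        · have hg0 : g ≠ 0 := by
            rintro rfl
            apply h0
            have := hg (lam u)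
            rw [Function.update_eq_self, map_zero] at this
            exact this
          obtain ⟨e0, he0, he0'⟩ : ∃ e0 ≤ N, (Polynomial.derivative^[e0] g).eval (v u) ≠ 0 := by
            by_contra hno
            push Not at hno
            exact hg0 (hv u g hgH hno)
          refine ⟨Function.update e u e0, fun x hx => Function.update_of_ne hx _ _, by
            rw [Function.update_self]; exact he0, ?_⟩
          rw [hother _ (fun x hx => Function.update_of_ne hx _ _), hg]
          have : jet (Function.update e u e0) v u g = (Polynomial.derivative^[e0] g).eval (v u) := by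
            show Polynomial.eval (v u) ((Polynomial.derivative ^ (Function.update e u e0 u) :
              Module.End k (Polynomial k)) g) = _
            rw [Function.update_self, Module.End.pow_apply]
          rw [this]
          exact he0'
      obtain ⟨e', h4, h5, h6⟩ := ih e1 (fun x hx => by
        have hxu : x ≠ u := fun hh => hu (hh ▸ hx)
        rw [h1 x hxu]
        exact he x (Finset.mem_insert_of_mem hx)) h3
      refine ⟨e', fun x hx => ?_, fun x hx => ?_, h6⟩
      · rw [Finset.mem_insert, not_or] at hx
        rw [h4 x hx.2, h1 x hx.1]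
      · by_cases hxu : x = u
        · rw [hxu, h4 u hu]
          exact h2
        · exact h5 x ((Finset.mem_insert.1 hx).resolve_left hxu)
  obtain ⟨e', h1, h2, h3⟩ := key S 0 (fun _ _ => rfl) (by rw [jet_zero]; exact h)
  refine ⟨e', h1, ?_, h3⟩
  calc ∑ u, e' u = ∑ u ∈ S, e' u := by
        symm
        apply Finset.sum_subset (Finset.subset_univ _)
        intro x _ hx
        exact h1 x hx
    _ ≤ S.card * N := by
        have := Finset.sum_le_card_nsmul S e' N h2
        simpa using this

end

end Pool.Agent.UNK
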