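import Pool.Agent.UNK.Defs

/-!
Project UNK (MP_e2be99_lc), module Sc.  Text: /team-store/unk_h34.md (section 8 (a), pure lists).
Definitions in `Pool/Agent/UNK/Defs.lean`.  Replace the `sorry`; keep the statements; helper lemmas private.

PLAN.
* `seg_count`: induction on the number of elements with `p`: if there is none, take `X = Y = []`.  Else `L = J ++ s :: L'` with `s` the first element with `p s`
  (so `¬ q s`): `L.filter q = J.filter q ++ L'.filter q`; `J` contributes at most `B`, `L'` at most `B * (number + 1)` by induction (its segments are segments of `L`).
* `cut`: induction on `J`: pieces ending (except the last one) just before the next element with `q`.  E.g. for `x :: J` with `q x` false: if `J.filter q = []` then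
  `(x :: J).filter q = []`, excluded; otherwise prepend `x` to the first piece; with `q x` true: if `J.filter q = []` the only piece is `x :: J`, otherwise new piece
  `[x]`.
-/

set_option autoImplicit false

namespace Pool.Agent.UNK

open MvPolynomial

universe u

open scoped Classical in
private theorem Sc_split {α : Type} (p : α → Prop) (L : List α) :
    (∀ x ∈ L, ¬ p x) ∨ ∃ J s L', L = J ++ s :: L' ∧ (∀ x ∈ J, ¬ p x) ∧ p s := by
  induction L with
  | nil => exact Or.inl (by simp)
  | cons x L ih =>
    by_cases hx : p x
    · exact Or.inr ⟨[], x, L, rfl, by simp, hx⟩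
    · rcases ih with h | ⟨J, s, L', rfl, h1, h2⟩
      · refine Or.inl fun y hy => ?_
        rcases List.mem_cons.1 hy with rfl | hy
        · exact hx
        · exact h y hy
      · refine Or.inr ⟨x :: J, s, L', rfl, fun y hy => ?_, h2⟩
        rcases List.mem_cons.1 hy with rfl | hy
        · exact hx
        · exact h1 y hy

open scoped Classical in
private theorem Sc_aux {α : Type} (p q : α → Prop) (B : ℕ) (hpq : ∀ x, p x → ¬ q x) (n : ℕ) :
    ∀ L : List α, L.length = n →
    (∀ X J Y, L = X ++ J ++ Y → (∀ x ∈ J, ¬ p x) → (J.filter (fun x => q x)).length ≤ B) →
    (L.filter (fun x => q x)).length ≤ B * ((L.filter (fun x => p x)).length + 1) := by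
  induction n using Nat.strong_induction_on with
  | _ n ih =>
    intro L hn h
    rcases Sc_split p L with h0 | ⟨J, s, L', rfl, h1, h2⟩
    · refine (h [] L [] (by simp) h0).trans ?_
      exact Nat.le_mul_of_pos_right _ (Nat.succ_pos _)
    · have hJ := h [] J (s :: L') (by simp) h1
      have hL' : (L'.filter (fun x => q x)).length ≤ B * ((L'.filter (fun x => p x)).length + 1) := by
        refine ih L'.length ?_ L' rfl ?_
        · rw [← hn]
          simp
          omega
        · intro X J' Y he hp
          exact h (J ++ s :: X) J' Y (by rw [he]; simp) hp
      have e1 : (J ++ s :: L').filter (fun x => q x) = J.filter (fun x => q x) ++ L'.filter (fun x => q x) := by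
        rw [List.filter_append, List.filter_cons_of_neg]
        simpa using hpq s h2
      have e2 : (J ++ s :: L').filter (fun x => p x) = s :: L'.filter (fun x => p x) := by
        rw [List.filter_append, List.filter_cons_of_pos (by simpa using h2)]
        have e3 : J.filter (fun x => p x) = [] := by
          rw [List.filter_eq_nil_iff]
          intro x hx
          simpa using h1 x hx
        rw [e3]
        rfl
      rw [e1, e2, List.length_append, List.length_cons]
      calc _ ≤ B + B * ((L'.filter (fun x => p x)).length + 1) := Nat.add_le_add hJ hL'
        _ = _ := by ring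

open scoped Classical in
theorem seg_count {α : Type} (p q : α → Prop) (L : List α) (B : ℕ) (hpq : ∀ x, p x → ¬ q x)
    (h : ∀ X J Y, L = X ++ J ++ Y → (∀ x ∈ J, ¬ p x) → (J.filter (fun x => q x)).length ≤ B) :
    (L.filter (fun x => q x)).length ≤ B * ((L.filter (fun x => p x)).length + 1) := by
  exact Sc_aux p q B hpq _ L rfl h

open scoped Classical in
theorem cut {α : Type} (q : α → Prop) (J : List α) (h : J.filter (fun x => q x) ≠ []) :
    ∃ πs : List (List α), J = πs.flatten ∧ (∀ π ∈ πs, (π.filter (fun x => q x)).length = 1) ∧
      πs.length = (J.filter (fun x => q x)).length := by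
  induction J with
  | nil => exact absurd rfl h
  | cons x J ih =>
    by_cases hx : q x
    · have e1 : (x :: J).filter (fun x => q x) = x :: J.filter (fun x => q x) :=
        List.filter_cons_of_pos (by simpa using hx)
      by_cases hJ : J.filter (fun x => q x) = []
      · refine ⟨[x :: J], by simp, ?_, ?_⟩
        · intro π hπ
          rw [List.mem_singleton] at hπ
          rw [hπ, e1, hJ]
          rfl
        · rw [e1, hJ]
          rfl
      · obtain ⟨πs, h1, h2, h3⟩ := ih hJ
        refine ⟨[x] :: πs, ?_, ?_, ?_⟩
        · rw [List.flatten_cons, ← h1]
          rfl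
        · intro π hπ
          rcases List.mem_cons.1 hπ with rfl | hπ
          · rw [List.filter_cons_of_pos (by simpa using hx)]
            rfl
          · exact h2 π hπ
        · rw [e1, List.length_cons, List.length_cons, h3]
    · have e1 : (x :: J).filter (fun x => q x) = J.filter (fun x => q x) :=
        List.filter_cons_of_neg (by simpa using hx)
      rw [e1] at h
      obtain ⟨πs, h1, h2, h3⟩ := ih h
      cases πs with
      | nil =>
        exfalso
        rw [List.flatten_nil] at h1
        rw [h1] at h
        exact h rfl
      | cons π πs =>
        refine ⟨(x :: π) :: πs, ?_, ?_, ?_⟩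
        · rw [h1]
          simp
        · intro π' hπ'
          rcases List.mem_cons.1 hπ' with rfl | hπ'
          · rw [List.filter_cons_of_neg (by simpa using hx)]
            exact h2 π List.mem_cons_self
          · exact h2 π' (List.mem_cons_of_mem _ hπ')
        · rw [e1, ← h3]
          rfl

end Pool.Agent.UNK
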