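import Pool.Agent.UNK.Ca
import Pool.Agent.UNK.Sc
import Pool.Agent.UNK.Mr

/-!
Project UNK (MP_e2be99_lc), module Cs.  Text: /team-store/unk_h34.md (section 8 (a), critical sets).
Definitions in `Pool/Agent/UNK/Defs.lean`.

PLAN.
* `crit_seg`: if `J.filter (· ∈ S)` is empty: clear.  `cut` with `q u := u ∈ S`: pieces `πs`, each with exactly one element of `S`; `πs` is nodup (nonempty disjoint lists).  `lemC` with
  `α = List V`, `b π = rp A π (ev v)`, `g π = rp A π (mix S (ev a) (ev v))`, the list `πs`: for a set `T` of pieces and an infix `Js` of `πs`: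
  `hp b g T Js = rp A Js.flatten (mix {u | u ∈ S ∧ ∃ π ∈ Js, π ∈ T ∧ u ∈ π} (ev a) (ev v))` (`rp_append`, `rp_congr`, disjoint pieces); ranks by `hrk`; all pieces in `T`: the value `h1`; a
  piece missing: its element of `S` is missing: `h0`.
* `crit_set`: choose `a'` generic (`zar k V`): `Ψ (..) ≠ 0` at `ev a'` (polynomial function: `rp_pf`, a linear functional on `τ → Matrix` is a finite linear combination of entries) and
  for all infixes `J` of `L'` (finitely many) and all sets `Y` (finitely many): `rank (rp A J (ev v)) ≤ rank (rp A J (mix Y (ev a') (ev v)))` (generic, true for `a' = v`: `fac_ge`,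
  determinant, `ge_of_fac`); `≤` the other way by `Alive` (`mix_ev`), so equality.  Let `S ⊆ L'.toFinset ∩ Z` be minimal for inclusion with nonzero value (for `S = L'.toFinset ∩ Z` the value is
  that at `ev a'`).  For `L' = X ++ J ++ Y` with no element of `Sp` in `J`: `rp A L' (mix Z (mix T (ev a') (ev v)) (kap l)) = rp .. X .. * rp A J (mix T (ev a') (ev v)) * rp .. Y ..`
  (on `J` all copies agree with `ev v` outside `Z`), so `crit_seg` applies with the functional `M ↦ Ψ (fun l => X l * M * Y l)` (outside of `J` the choice `S`): `|S ∩ J| ≤ fc w`.  `seg_count`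
  (`p u := u ∈ Sp`, `q u := u ∈ S`): `|S| ≤ fc w * (|Sp| + 1)`.
-/

set_option autoImplicit false

namespace Pool.Agent.UNK

open MvPolynomial

universe u

section

variable {k : Type u} [Field k] {V : Type} [Fintype V] [DecidableEq V] {w : ℕ}

/-- the products over lists of pieces -/
private theorem cs_hp (A : V → Matrix (Fin w) (Fin w) (Polynomial k)) (v a : V → k)
    (S : Finset V) (S' : Set (List V)) (Js : List (List V)) (hnd : Js.flatten.Nodup) :
    hp (fun π => rp A π (ev v)) (fun π => rp A π (mix (S : Set V) (ev a) (ev v))) S' Js =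
      rp A Js.flatten (mix {u | u ∈ S ∧ ∃ π ∈ Js, π ∈ S' ∧ u ∈ π} (ev a) (ev v)) := by
  classical
  induction Js with
  | nil => simp [hp, rp]
  | cons π Js ih =>
    rw [List.flatten_cons] at hnd
    have hnd2 := List.nodup_append.1 hnd
    have hd : ∀ u ∈ π, ∀ π' ∈ Js, u ∉ π' := by
      intro u hu π' hπ' hu'
      exact hnd2.2.2 u hu u (List.mem_flatten.2 ⟨π', hπ', hu'⟩) rfl
    have ih' := ih hnd2.2.1
    have e0 : hp (fun π => rp A π (ev v)) (fun π => rp A π (mix (S : Set V) (ev a) (ev v))) S'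
        (π :: Js) = (if π ∈ S' then rp A π (mix (S : Set V) (ev a) (ev v)) else rp A π (ev v)) *
        hp (fun π => rp A π (ev v)) (fun π => rp A π (mix (S : Set V) (ev a) (ev v))) S' Js := by
      simp [hp]
    rw [e0, ih', List.flatten_cons, rp_append]
    congr 1
    · by_cases hπ : π ∈ S'
      · rw [if_pos hπ]
        refine rp_congr A π fun u hu => ?_
        unfold mix
        by_cases huS : u ∈ S
        · rw [if_pos (by simpa using huS), if_pos]
          exact ⟨huS, π, List.mem_cons_self, hπ, hu⟩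
        · rw [if_neg (by simpa using huS), if_neg]
          exact fun h => huS h.1
      · rw [if_neg hπ]
        refine rp_congr A π fun u hu => ?_
        unfold mix
        rw [if_neg]
        rintro ⟨_, π', hπ', h1, h2⟩
        rcases List.mem_cons.1 hπ' with h3 | h3
        · exact hπ (h3 ▸ h1)
        · exact hd u hu π' h3 h2
    · refine rp_congr A Js.flatten fun u hu => ?_
      have huπ : u ∉ π := by
        intro h
        exact hnd2.2.2 u h u hu rfl
      unfold mix
      by_cases hX : u ∈ {u | u ∈ S ∧ ∃ π ∈ Js, π ∈ S' ∧ u ∈ π}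
      · rw [if_pos hX, if_pos]
        obtain ⟨h1, π', h2, h3⟩ := hX
        exact ⟨h1, π', List.mem_cons_of_mem _ h2, h3⟩
      · rw [if_neg hX, if_neg]
        rintro ⟨h1, π', h2, h3, h4⟩
        rcases List.mem_cons.1 h2 with h5 | h5
        · exact huπ (h5 ▸ h4)
        · exact hX ⟨h1, π', h5, h3, h4⟩

theorem crit_seg (A : V → Matrix (Fin w) (Fin w) (Polynomial k)) (J : List V) (hJ : J.Nodup)
    (v a : V → k)
    (hrk : ∀ J' : List V, J' <:+: J → ∀ S : Set V,
      (rp A J' (mix S (ev a) (ev v))).rank = (rp A J' (ev v)).rank)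
    (S : Finset V) (Ψ : Matrix (Fin w) (Fin w) k →ₗ[k] k)
    (h1 : Ψ (rp A J (mix (S : Set V) (ev a) (ev v))) ≠ 0)
    (h0 : ∀ T : Finset V, T ⊆ S → (∃ u ∈ J, u ∈ S ∧ u ∉ T) →
      Ψ (rp A J (mix (T : Set V) (ev a) (ev v))) = 0) :
    (J.filter (fun u => u ∈ S)).length ≤ fc w := by
  classical
  by_cases hem : J.filter (fun u => u ∈ S) = []
  · rw [hem]
    exact Nat.zero_le _
  obtain ⟨πs, hflat, hone, hlen⟩ := cut (fun u => u ∈ S) J (by
    intro h
    apply hem
    rw [← h]
    apply List.filter_congr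
    intro x _
    congr)
  have hlen' : (J.filter (fun u => u ∈ S)).length = πs.length := by
    rw [hlen]
    congr 1
    apply List.filter_congr
    intro x _
    congr
  rw [hlen']
  have hel : ∀ π ∈ πs, ∃ u ∈ π, u ∈ S := by
    intro π hπ
    have h2 := hone π hπ
    obtain ⟨x, hx⟩ := List.length_eq_one_iff.1 h2
    have h3 : x ∈ π.filter (fun u => u ∈ S) := by
      rw [show π.filter (fun u => u ∈ S) = [x] from by
        rw [← hx]
        apply List.filter_congr
        intro x _
        congr]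
      exact List.mem_singleton_self x
    rw [List.mem_filter] at h3
    exact ⟨x, h3.1, by simpa using h3.2⟩
  have hnd : πs.flatten.Nodup := hflat ▸ hJ
  have hdis : πs.Pairwise List.Disjoint := (List.nodup_flatten.1 hnd).2
  have hnd' : πs.Nodup := by
    refine (List.pairwise_iff_forall_sublist.2 ?_)
    intro x y hxy he
    subst he
    have hx : x ∈ πs := hxy.subset (by simp)
    obtain ⟨u, hu, _⟩ := hel x hx
    exact (List.pairwise_iff_forall_sublist.1 hdis hxy) hu hu
  have hsame : ∀ π ∈ πs, ∀ π' ∈ πs, ∀ u, u ∈ π → u ∈ π' → π = π' := by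
    intro π hπ π' hπ' u hu hu'
    by_contra hne
    haveI : Std.Symm (List.Disjoint : List V → List V → Prop) := ⟨fun _ _ h => h.symm⟩
    exact (List.Pairwise.forall hdis hπ hπ' hne) hu hu'
  refine lemC (fun π => rp A π (ev v)) (fun π => rp A π (mix (S : Set V) (ev a) (ev v))) πs hnd' Ψ
    ⟨?_, ?_, ?_⟩
  · intro Js hJs S' T'
    obtain ⟨X, Y, hXY⟩ := hJs
    have hinf : Js.flatten <:+: J := by
      refine ⟨X.flatten, Y.flatten, ?_⟩
      rw [hflat, ← hXY]
      simp
    have hndJ : Js.flatten.Nodup := hJ.sublist hinf.sublist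
    rw [cs_hp A v a S S' Js hndJ, cs_hp A v a S T' Js hndJ, hrk _ hinf, hrk _ hinf]
  · rw [cs_hp A v a S Set.univ πs hnd, ← hflat]
    have e : rp A J (mix {u | u ∈ S ∧ ∃ π ∈ πs, π ∈ (Set.univ : Set (List V)) ∧ u ∈ π} (ev a)
        (ev v)) = rp A J (mix (S : Set V) (ev a) (ev v)) := by
      refine rp_congr A J fun u hu => ?_
      rw [hflat] at hu
      obtain ⟨π, hπ, huπ⟩ := List.mem_flatten.1 hu
      unfold mix
      by_cases huS : u ∈ S
      · rw [if_pos (show u ∈ (S : Set V) by simpa using huS), if_pos]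
        exact ⟨huS, π, hπ, Set.mem_univ _, huπ⟩
      · rw [if_neg (show u ∉ (S : Set V) by simpa using huS), if_neg]
        exact fun h => huS h.1
    rw [e]
    exact h1
  · rintro S' ⟨π0, hπ0, hπS⟩
    rw [cs_hp A v a S S' πs hnd, ← hflat]
    have e : rp A J (mix {u | u ∈ S ∧ ∃ π ∈ πs, π ∈ S' ∧ u ∈ π} (ev a) (ev v)) =
        rp A J (mix ((S.filter fun u => ∃ π ∈ πs, π ∈ S' ∧ u ∈ π : Finset V) : Set V) (ev a)
          (ev v)) := by
      congr 2
      ext u
      simp
    rw [e]
    apply h0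
    · exact Finset.filter_subset _ _
    · obtain ⟨u, hu, huS⟩ := hel π0 hπ0
      refine ⟨u, ?_, huS, ?_⟩
      · rw [hflat]
        exact List.mem_flatten.2 ⟨π0, hπ0, hu⟩
      · intro h
        obtain ⟨_, π', hπ', h2, h3⟩ := Finset.mem_filter.1 h
        rw [hsame π0 hπ0 π' hπ' u hu h3] at hπS
        exact hπS h2

private theorem cs_lin {τ : Type} [Fintype τ] (Ψ : (τ → Matrix (Fin w) (Fin w) k) →ₗ[k] k) :
    ∃ Φ : τ → Matrix (Fin w) (Fin w) k, ∀ M, Ψ M = ∑ l, dot (Φ l) (M l) := by
  classical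
  choose Φ hΦ using fun l : τ => dot_fun (Ψ ∘ₗ LinearMap.single k (fun _ : τ =>
    Matrix (Fin w) (Fin w) k) l)
  refine ⟨Φ, fun M => ?_⟩
  have e : M = ∑ l, Pi.single l (M l) := (Finset.univ_sum_single M).symm
  conv_lhs => rw [e]
  rw [map_sum]
  refine Finset.sum_congr rfl fun l _ => ?_
  rw [← hΦ l (M l)]
  rfl

private theorem cs_rank (A : V → Matrix (Fin w) (Fin w) (Polynomial k)) (v : V → k) (J : List V)
    (Y : Set V) : ∀ᶠ a in zar k V,
      (rp A J (ev v)).rank ≤ (rp A J (mix Y (ev a) (ev v))).rank := by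
  classical
  obtain ⟨U, W, hUW⟩ := fac_ge (le_refl (rp A J (ev v)).rank)
  have hPF : PF (fun a : V → k => (U * rp A J (mix Y (ev a) (ev v)) * W).det) := by
    apply PF.det
    intro p q
    apply PF.mmul (M := fun a : V → k => U * rp A J (mix Y (ev a) (ev v))) (N := fun _ => W)
    · intro p q
      apply PF.mmul (M := fun _ : V → k => U) (N := fun a : V → k => rp A J (mix Y (ev a) (ev v)))
      · intro p q
        exact PF.const _
      · intro p q
        exact rp_pf A J Y (ev v) p q
    · intro p q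
      exact PF.const _
  have hne := hPF.ev_ne ⟨v, by
    have e : mix Y (ev v) (ev v) = ev v := by
      funext u
      unfold mix
      split <;> rfl
    rw [e, hUW, Matrix.det_one]
    exact one_ne_zero⟩
  filter_upwards [hne] with a ha
  exact ge_of_fac ha

theorem crit_set [Infinite k] (A : V → Matrix (Fin w) (Fin w) (Polynomial k)) (L' : List V)
    (hL : L'.Nodup) (v : V → k) (hal : Alive A L' v) (Z : Set V) {τ : Type} [Fintype τ]
    (kap : τ → GP k V) (Sp : Finset V) (hSp : ∀ u ∈ Sp, u ∉ Z)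
    (hk : ∀ l, ∀ u, u ∉ Z → u ∉ Sp → kap l u = ev v u)
    (Ψ : (τ → Matrix (Fin w) (Fin w) k) →ₗ[k] k) (a : V → k)
    (h : Ψ (fun l => rp A L' (mix Z (ev a) (kap l))) ≠ 0) :
    ∃ (S : Finset V) (a' : V → k), (∀ u ∈ S, u ∈ Z) ∧ S.card ≤ fc w * (Sp.card + 1) ∧
      Ψ (fun l => rp A L' (mix Z (mix (S : Set V) (ev a') (ev v)) (kap l))) ≠ 0 := by
  classical
  have hg1 : ∀ᶠ a' in zar k V, Ψ (fun l => rp A L' (mix Z (ev a') (kap l))) ≠ 0 := by
    obtain ⟨Φ, hΦ⟩ := cs_lin Ψ
    have hPF : PF (fun a' : V → k => Ψ (fun l => rp A L' (mix Z (ev a') (kap l)))) := by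
      simp only [hΦ]
      apply PF.sum
      intro l _
      apply PF.dot (Φ l) (M := fun a' : V → k => rp A L' (mix Z (ev a') (kap l)))
      intro p q
      exact rp_pf A L' Z (kap l) p q
    exact hPF.ev_ne ⟨a, h⟩
  have hfin : {J : List V | J <:+: L'}.Finite := by
    refine Set.Finite.subset (L'.sublists.toFinset.finite_toSet) ?_
    intro J hJ
    simpa using hJ.sublist
  have hg2 : ∀ᶠ a' in zar k V, ∀ J ∈ {J : List V | J <:+: L'}, ∀ Y : Set V,
      (rp A J (ev v)).rank ≤ (rp A J (mix Y (ev a') (ev v))).rank := by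
    rw [Filter.eventually_all_finite hfin]
    intro J _
    rw [Filter.eventually_all]
    intro Y
    exact cs_rank A v J Y
  haveI := zar_neBot k V
  obtain ⟨a', ha1, ha2⟩ := (hg1.and hg2).exists
  have hrk : ∀ J : List V, J <:+: L' → ∀ Y : Set V,
      (rp A J (mix Y (ev a') (ev v))).rank = (rp A J (ev v)).rank := by
    intro J hJ Y
    apply le_antisymm
    · rw [mix_ev]
      exact hal J hJ _
    · exact ha2 J hJ Y
  let P : Finset V → Prop := fun S => S ⊆ L'.toFinset.filter (fun u => u ∈ Z) ∧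
    Ψ (fun l => rp A L' (mix Z (mix (S : Set V) (ev a') (ev v)) (kap l))) ≠ 0
  have hP0 : P (L'.toFinset.filter (fun u => u ∈ Z)) := by
    refine ⟨Finset.Subset.refl _, ?_⟩
    have e : (fun l => rp A L' (mix Z (mix ((L'.toFinset.filter (fun u => u ∈ Z) : Finset V) :
        Set V) (ev a') (ev v)) (kap l))) = fun l => rp A L' (mix Z (ev a') (kap l)) := by
      funext l
      refine rp_congr A L' fun u hu => ?_
      unfold mix
      by_cases huZ : u ∈ Z
      · rw [if_pos huZ, if_pos huZ, if_pos]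
        simp [hu, huZ]
      · rw [if_neg huZ, if_neg huZ]
    rw [e]
    exact ha1
  obtain ⟨S, ⟨hS1, hS2⟩, hmin⟩ := (Finset.isWellFounded_ssubset (α := V)).wf.has_min {S | P S}
    ⟨_, hP0⟩
  have hSZ : ∀ u ∈ S, u ∈ Z := fun u hu => (Finset.mem_filter.1 (hS1 hu)).2
  have hSL : ∀ u ∈ S, u ∈ L' := fun u hu => List.mem_toFinset.1 (Finset.mem_filter.1 (hS1 hu)).1
  refine ⟨S, a', hSZ, ?_, hS2⟩
  have hseg : ∀ X J Y, L' = X ++ J ++ Y → (∀ x ∈ J, ¬ x ∈ Sp) →
      (J.filter (fun u => u ∈ S)).length ≤ fc w := by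
    intro X J Y hXJY hJSp
    have hinf : J <:+: L' := ⟨X, Y, hXJY.symm⟩
    have hJnd : J.Nodup := hL.sublist hinf.sublist
    have hnd2 := List.nodup_append.1 (hXJY ▸ hL : (X ++ J ++ Y).Nodup)
    have hnd3 := List.nodup_append.1 hnd2.1
    have hXJ : ∀ u ∈ X, u ∉ J := fun u hu hu' => hnd3.2.2 u hu u hu' rfl
    have hYJ : ∀ u ∈ Y, u ∉ J := fun u hu hu' =>
      hnd2.2.2 u (List.mem_append_right _ hu') u hu rfl
    let lm : Finset V → τ → GP k V := fun T l => mix Z (mix (T : Set V) (ev a') (ev v)) (kap l)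
    let Λ : Matrix (Fin w) (Fin w) k →ₗ[k] (τ → Matrix (Fin w) (Fin w) k) :=
      { toFun := fun M l => rp A X (lm S l) * M * rp A Y (lm S l)
        map_add' := fun M N => by
          funext l
          simp [Matrix.mul_add, Matrix.add_mul]
        map_smul' := fun c M => by
          funext l
          simp }
    have hkey : ∀ T T' : Finset V, T' ⊆ S → (∀ u ∈ X, u ∈ T' ↔ u ∈ S) →
        (∀ u ∈ Y, u ∈ T' ↔ u ∈ S) → (∀ u ∈ J, u ∈ T' ↔ u ∈ T) →
        (Ψ ∘ₗ Λ) (rp A J (mix (T : Set V) (ev a') (ev v))) = Ψ (fun l => rp A L' (lm T' l)) := by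
      intro T T' hT' hX hY hJ'
      show Ψ (fun l => rp A X (lm S l) * rp A J (mix (T : Set V) (ev a') (ev v)) *
        rp A Y (lm S l)) = _
      congr 1
      funext l
      rw [hXJY, rp_append, rp_append]
      congr 1
      · congr 1
        · refine rp_congr A X fun u hu => ?_
          simp only [lm]
          unfold mix
          simp only [Finset.mem_coe, hX u hu]
        · refine rp_congr A J fun u hu => ?_
          simp only [lm]
          unfold mix
          simp only [Finset.mem_coe, ← hJ' u hu]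
          by_cases huZ : u ∈ Z
          · rw [if_pos huZ]
          · rw [if_neg huZ, if_neg (fun h => huZ (hSZ u (hT' h)))]
            exact (hk l u huZ (hJSp u hu)).symm
      · refine rp_congr A Y fun u hu => ?_
        simp only [lm]
        unfold mix
        simp only [Finset.mem_coe, hY u hu]
    refine crit_seg A J hJnd v a' (fun J' hJ' Y' => hrk J' (hJ'.trans hinf) Y') S (Ψ ∘ₗ Λ) ?_ ?_
    · rw [hkey S S (Finset.Subset.refl _) (fun _ _ => Iff.rfl) (fun _ _ => Iff.rfl)
        (fun _ _ => Iff.rfl)]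
      exact hS2
    · rintro T hTS ⟨u0, hu0J, hu0S, hu0T⟩
      rw [hkey T (S.filter fun u => u ∈ J → u ∈ T) (Finset.filter_subset _ _)
        (fun u hu => by
          rw [Finset.mem_filter]
          exact ⟨fun h => h.1, fun h => ⟨h, fun h' => absurd h' (hXJ u hu)⟩⟩)
        (fun u hu => by
          rw [Finset.mem_filter]
          exact ⟨fun h => h.1, fun h => ⟨h, fun h' => absurd h' (hYJ u hu)⟩⟩)
        (fun u hu => by
          rw [Finset.mem_filter]
          exact ⟨fun h => h.2 hu, fun h => ⟨hTS h, fun _ => h⟩⟩)]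
      by_contra hne
      refine hmin (S.filter fun u => u ∈ J → u ∈ T) ⟨(Finset.filter_subset _ _).trans hS1, hne⟩ ?_
      refine ⟨Finset.filter_subset _ _, fun hsub => ?_⟩
      exact hu0T ((Finset.mem_filter.1 (hsub hu0S)).2 hu0J)
  have hcount := seg_count (fun u => u ∈ Sp) (fun u => u ∈ S) L' (fc w)
    (fun x hx hx' => hSp x hx (hSZ x hx')) (by
      intro X J Y hXJY hJ
      refine le_trans (le_of_eq ?_) (hseg X J Y hXJY hJ)
      congr 1
      apply List.filter_congr
      intro x _
      congr)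
  have hc1 : S.card ≤ (L'.filter (fun u => u ∈ S)).length := by
    have e : S = (L'.filter (fun u => u ∈ S)).toFinset := by
      ext u
      simp only [List.mem_toFinset, List.mem_filter, decide_eq_true_eq]
      exact ⟨fun hu => ⟨hSL u hu, hu⟩, fun hu => hu.2⟩
    calc S.card = (L'.filter (fun u => u ∈ S)).toFinset.card := by rw [← e]
      _ ≤ _ := List.toFinset_card_le _
  have hc2 : (L'.filter (fun u => u ∈ Sp)).length ≤ Sp.card := by
    rw [← List.toFinset_card_of_nodup (hL.filter _)]
    apply Finset.card_le_card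
    intro u hu
    simp only [List.mem_toFinset, List.mem_filter, decide_eq_true_eq] at hu
    exact hu.2
  have e1 : (L'.filter (fun u => u ∈ S)).length ≤
      fc w * ((L'.filter (fun u => u ∈ Sp)).length + 1) := by
    refine le_trans (le_of_eq ?_) (le_trans hcount (le_of_eq ?_))
    · congr 1
      apply List.filter_congr
      intro x _
      congr
    · congr 3
      apply List.filter_congr
      intro x _
      congr
  calc S.card ≤ (L'.filter (fun u => u ∈ S)).length := hc1
    _ ≤ fc w * ((L'.filter (fun u => u ∈ Sp)).length + 1) := e1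
    _ ≤ fc w * (Sp.card + 1) := Nat.mul_le_mul_left _ (by omega)

end

end Pool.Agent.UNK
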