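import Mathlib

/-!
Project UNK (MP_e2be99_lc): sums of `c` read-once oblivious programs of width `w` in arbitrary unknown
orders.  Definitions.  Text of the proof: /team-store/unk_h34.md
-/

set_option autoImplicit false

namespace Pool.Agent.UNK

open MvPolynomial

universe u

section basic

variable {k : Type u} [Field k] {V : Type}

/-- the point of level `K` with parameters `θ = (c, s)`: `v_u = ∑ j < K, c_j * s_j ^ (wt u)` -/
def vp (wt : V → ℕ) (K : ℕ) (θ : Fin K ⊕ Fin K → k) : V → k :=
  fun u => ∑ j : Fin K, θ (Sum.inl j) * θ (Sum.inr j) ^ wt u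

/-- the generic point of level `K` -/
noncomputable def gv (k : Type u) [Field k] (wt : V → ℕ) (K : ℕ) :
    V → MvPolynomial (Fin K ⊕ Fin K) k :=
  fun u => ∑ j : Fin K, X (Sum.inl j) * X (Sum.inr j) ^ wt u

/-- iterated partial derivative along a list of variables -/
noncomputable def dd (l : List V) (f : MvPolynomial V k) : MvPolynomial V k :=
  l.foldr (fun u p => pderiv u p) f

/-- generalised points: a linear functional on `k[X]` for every variable -/
abbrev GP (k : Type u) [Field k] (V : Type) : Type u := V → (Polynomial k →ₗ[k] k)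

/-- the generalised point of a point -/
noncomputable def ev (a : V → k) : GP k V := fun u => Polynomial.leval (a u)

/-- the jet of order `e` at the point `v` (the `e u`-th derivative at `v u` for every `u`) -/
noncomputable def jet (e : V → ℕ) (v : V → k) : GP k V :=
  fun u => (Polynomial.leval (v u)).comp (Polynomial.derivative ^ (e u) : Module.End k (Polynomial k))

variable {I : Type} [Fintype I] [DecidableEq I]

/-- value of the row `A` on the list `L` of variables at a generalised point -/
noncomputable def rp (A : V → Matrix I I (Polynomial k)) (L : List V) (lam : GP k V) :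
    Matrix I I k :=
  (L.map fun u => (A u).map (lam u)).prod

/-- the row `A` on the list `L` as a matrix of polynomials -/
noncomputable def rpp (A : V → Matrix I I (Polynomial k)) (L : List V) :
    Matrix I I (MvPolynomial V k) :=
  (L.map fun u => (A u).map (fun h => Polynomial.aeval (X u : MvPolynomial V k) h)).prod

/-- linear functional given by a matrix -/
def dot {I : Type} [Fintype I] (Φ M : Matrix I I k) : k := ∑ p, ∑ q, Φ p q * M p q

/-- the polynomial of a functional applied to the row -/
noncomputable def fpoly (A : V → Matrix I I (Polynomial k)) (L : List V) (Φ : Matrix I I k) :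
    MvPolynomial V k :=
  ∑ p, ∑ q, C (Φ p q) * rpp A L p q

end basic

/-- tensor power of a matrix -/
def tp {R : Type*} [CommMonoid R] (g : ℕ) {α β : Type*} (M : Matrix α β R) :
    Matrix (Fin g → α) (Fin g → β) R :=
  Matrix.of fun f f' => ∏ i, M (f i) (f' i)

/-- tensor power of a row -/
def tr {R : Type*} [CommMonoid R] {V I : Type} (g : ℕ) (A : V → Matrix I I R) :
    V → Matrix (Fin g → I) (Fin g → I) R :=
  fun u => tp g (A u)

/-- the list `O 0 ++ E 0 ++ O 1 ++ E 1 ++ ... ++ E (t-1) ++ O t` -/
def con {α : Type} (O E : ℕ → List α) : ℕ → List α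
  | 0 => O 0
  | t + 1 => con O E t ++ E t ++ O (t + 1)

/-- the product `D 0 * H 0 * D 1 * H 1 * ... * H (t-1) * D t` -/
def mcon {R : Type*} [Mul R] (D H : ℕ → R) : ℕ → R
  | 0 => D 0
  | t + 1 => mcon D H t * H t * D (t + 1)

section mixing

variable {k : Type u} [Field k] {V : Type}

open scoped Classical in
/-- `lam` on `Y`, `kap` outside -/
noncomputable def mix (Y : Set V) (lam kap : GP k V) : GP k V :=
  fun u => if u ∈ Y then lam u else kap u

/-- a row with an order of the variables and a functional -/
structure Row (k : Type u) [Field k] (V : Type) (w : ℕ) where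
  A : V → Matrix (Fin w) (Fin w) (Polynomial k)
  L : List V
  Φ : Matrix (Fin w) (Fin w) k

variable {w : ℕ}

/-- value of a sum of rows at a generalised point -/
noncomputable def FF (Rs : List (Row k V w)) (lam : GP k V) : k :=
  (Rs.map fun R => dot R.Φ (rp R.A R.L lam)).sum

/-- the space spanned by the entries of the matrices of the variable `u` -/
noncomputable def HH (Rs : List (Row k V w)) (u : V) : Submodule k (Polynomial k) :=
  Submodule.span k {h | ∃ R ∈ Rs, ∃ p q, h = R.A u p q}

/-- at `v` all products of consecutive matrices have their greatest rank -/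
def Alive (A : V → Matrix (Fin w) (Fin w) (Polynomial k)) (L : List V) (v : V → k) : Prop :=
  ∀ J : List V, J <:+: L → ∀ a : V → k, (rp A J (ev a)).rank ≤ (rp A J (ev v)).rank

/-- the jets of order at most `N` at `v u` determine the elements of `H u` -/
def UG (H : V → Submodule k (Polynomial k)) (N : ℕ) (v : V → k) : Prop :=
  ∀ u, ∀ h ∈ H u, (∀ e ≤ N, (Polynomial.derivative^[e] h).eval (v u) = 0) → h = 0

/-- `W` is in every variable either constant or linear, given by an element of `H u` -/
def MRH [DecidableEq V] (H : V → Submodule k (Polynomial k)) (W : GP k V → k) : Prop :=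
  ∀ (lam : GP k V) (u : V), (∀ nu, W (Function.update lam u nu) = W lam) ∨
    ∃ h ∈ H u, ∀ nu, W (Function.update lam u nu) = nu h

/-- the combination of values of a sum of rows at the copies `kap l` -/
noncomputable def GG (Rs : List (Row k V w)) (Z : Set V) {τ : Type} [Fintype τ] (gam : τ → k)
    (kap : τ → GP k V) (lam : GP k V) : k :=
  ∑ l, gam l * FF Rs (mix Z lam (kap l))

end mixing

section filt

variable {k : Type u} [Field k] {σ : Type}

/-- the filter of the generic properties of points of `k ^ σ` -/
def zar (k : Type u) [Field k] (σ : Type) : Filter (σ → k) where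
  sets := {s | ∃ p : MvPolynomial σ k, p ≠ 0 ∧ ∀ a, eval a p ≠ 0 → a ∈ s}
  univ_sets := ⟨1, one_ne_zero, fun _ _ => Set.mem_univ _⟩
  sets_of_superset := by
    rintro s t ⟨p, hp, h⟩ hst
    exact ⟨p, hp, fun a ha => hst (h a ha)⟩
  inter_sets := by
    rintro s t ⟨p, hp, h⟩ ⟨q, hq, h'⟩
    refine ⟨p * q, mul_ne_zero hp hq, fun a ha => ?_⟩
    rw [map_mul] at ha
    exact ⟨h a (left_ne_zero_of_mul ha), h' a (right_ne_zero_of_mul ha)⟩

/-- polynomial functions -/
def PF (f : (σ → k) → k) : Prop := ∃ p : MvPolynomial σ k, ∀ a, f a = eval a p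

end filt

section complete

variable {k : Type u} [Field k] {V : Type} [Fintype V] {w : ℕ}

/-- `L` is complete at level `K` for the row `A` -/
def Cpl (wt : V → ℕ) (A : V → Matrix (Fin w) (Fin w) (Polynomial k)) (K : ℕ) (L : List V) : Prop :=
  ∀ g ≤ w, ∀ Φ : Matrix (Fin g → Fin w) (Fin g → Fin w) k,
    (∃ a : V → k, dot Φ (tp g (rp A L (ev a))) ≠ 0) →
      ∃ θ : Fin K ⊕ Fin K → k, dot Φ (tp g (rp A L (ev (vp wt K θ)))) ≠ 0

/-- `L` is good at the point `v` (with order `D`) for the row `A` -/
def Good (A : V → Matrix (Fin w) (Fin w) (Polynomial k)) (D : ℕ) (L : List V) (v : V → k) : Prop :=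
  ∀ g ≤ w, ∀ Φ : Matrix (Fin g → Fin w) (Fin g → Fin w) k,
    (∃ a : V → k, dot Φ (tp g (rp A L (ev a))) ≠ 0) →
      ∃ e : V → ℕ, (∀ u, u ∉ L → e u = 0) ∧ ∑ u, e u ≤ D ∧
        dot Φ (rp (tr g A) L (jet e v)) ≠ 0

end complete

/-- the constant `D` -/
def DD (w : ℕ) : ℕ := w ^ (2 * w)

/-- the constant `Q` -/
def QQ (w : ℕ) : ℕ := (DD w + 4) * DD w

/-- the level for one program -/
def K1 (w : ℕ) : ℕ := 1 + (w + 1) * (2 * QQ w + 6 * DD w)

/-- the recursion for the critical number -/
def Fc (w : ℕ) : ℕ → ℕ
  | 0 => 0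
  | j + 1 => (2 * w ^ 2 + 4) * (Fc w j + 1)

/-- the critical number -/
def fc (w : ℕ) : ℕ := Fc w (w + 1)

/-- order of the spanning jets -/
def D1 (w N μ q : ℕ) : ℕ := fc w * (μ * q + 1) * N

/-- the order of the jets needed for `j` rows, `μ` copies, `q` special variables -/
def Dg (w N : ℕ) : ℕ → ℕ → ℕ → ℕ
  | 0, _, _ => 0
  | j + 1, μ, q => (D1 w N μ q + N) + Dg w N j (μ * (1 + μ * w ^ 2)) (q + (D1 w N μ q + N))

/-- the level for sums of `c` programs of width `w` -/
def KK (w c : ℕ) : ℕ := K1 w + Dg w (c * w ^ 2) c 1 0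

end Pool.Agent.UNK
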