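import Pool.Agent.UNK.Rp

/-!
Project UNK (MP_e2be99_lc), module Dl.  Text: /team-store/unk_h34.md (section 2).
Definitions in `Pool/Agent/UNK/Defs.lean`.

If `f` vanishes at all points `v + vp wt j θ` then all partial derivatives of `f` of order at most `j` vanish at `v`: the coefficient of
the last parameter `c` is, for all `s`, the sum of `s ^ wt u` times the partial derivatives at the points of level `j - 1`.
-/

set_option autoImplicit false

namespace Pool.Agent.UNK

open MvPolynomial

universe u

private theorem Dl_chain {k : Type u} [Field k] {V : Type} [Fintype V] [DecidableEq V]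
    (φ : V → Polynomial k) (f : MvPolynomial V k) :
    Polynomial.derivative (aeval φ f) = ∑ i, Polynomial.derivative (φ i) * aeval φ (pderiv i f) := by
  induction f using MvPolynomial.induction_on with
  | C a =>
    rw [aeval_C]
    have h1 : Polynomial.derivative (algebraMap k (Polynomial k) a) = 0 := Polynomial.derivative_C
    rw [h1]
    symm
    refine Finset.sum_eq_zero fun i _ => ?_
    rw [pderiv_C, map_zero, mul_zero]
  | add p q hp hq =>
    rw [map_add, map_add, hp, hq, ← Finset.sum_add_distrib]
    refine Finset.sum_congr rfl fun i _ => ?_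
    rw [map_add, map_add, mul_add]
  | mul_X p i hp =>
    rw [map_mul, aeval_X, Polynomial.derivative_mul, hp]
    have h1 : ∀ j, Polynomial.derivative (φ j) * aeval φ (pderiv j (p * X i)) =
        (Polynomial.derivative (φ j) * aeval φ (pderiv j p)) * φ i +
          (if i = j then aeval φ p * Polynomial.derivative (φ i) else 0) := by
      intro j
      rw [pderiv_mul, map_add, map_mul, map_mul, aeval_X, pderiv_X]
      by_cases h : i = j
      · subst h
        rw [Pi.single_eq_same, map_one, if_pos rfl]
        ring
      · rw [Pi.single_eq_of_ne h, map_zero, if_neg h]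
        ring
    rw [Finset.sum_congr rfl fun j _ => h1 j, Finset.sum_add_distrib, ← Finset.sum_mul,
      Finset.sum_ite_eq, if_pos (Finset.mem_univ i)]

private theorem Dl_zero {k : Type u} [Field k] [Infinite k] {g : Polynomial k} (h : ∀ c, g.eval c = 0) :
    g = 0 := Polynomial.funext fun c => by rw [h c, Polynomial.eval_zero]

private theorem Dl_line {k : Type u} [Field k] [Infinite k] {V : Type} [Fintype V] [DecidableEq V]
    (p b : V → k) (f : MvPolynomial V k) (h : ∀ c : k, eval (fun i => p i + c * b i) f = 0) :
    ∑ i, b i * eval p (pderiv i f) = 0 := by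
  have h0 : aeval (fun i => Polynomial.C (p i) + Polynomial.X * Polynomial.C (b i)) f = 0 := by
    refine Dl_zero fun c => ?_
    rw [← h c]
    have h1 : (Polynomial.evalRingHom c).comp
        (aeval (fun i => Polynomial.C (p i) + Polynomial.X * Polynomial.C (b i)) :
          MvPolynomial V k →ₐ[k] Polynomial k).toRingHom = eval (fun i => p i + c * b i) := by
      apply MvPolynomial.ringHom_ext
      · intro r
        simp
      · intro i
        simp
        ring
    exact DFunLike.congr_fun h1 f
  have h2 := Dl_chain (fun i => Polynomial.C (p i) + Polynomial.X * Polynomial.C (b i)) f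
  rw [h0, map_zero] at h2
  have h3 := congrArg (Polynomial.eval 0) h2
  rw [Polynomial.eval_zero, Polynomial.eval_finsetSum] at h3
  rw [h3]
  refine Finset.sum_congr rfl fun i _ => ?_
  have h4 : (Polynomial.evalRingHom 0).comp
      (aeval (fun i => Polynomial.C (p i) + Polynomial.X * Polynomial.C (b i)) :
        MvPolynomial V k →ₐ[k] Polynomial k).toRingHom = eval p := by
    apply MvPolynomial.ringHom_ext
    · intro r
      simp
    · intro i
      simp
  have h5 : Polynomial.eval 0 (aeval (fun i => Polynomial.C (p i) + Polynomial.X * Polynomial.C (b i))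
      (pderiv i f)) = eval p (pderiv i f) := DFunLike.congr_fun h4 (pderiv i f)
  rw [Polynomial.eval_mul, h5]
  simp

private theorem Dl_coef {k : Type u} [Field k] [Infinite k] {V : Type} [Fintype V] [DecidableEq V] (wt : V → ℕ)
    (hwt : Function.Injective wt) (a : V → k) (h : ∀ s : k, ∑ i, s ^ wt i * a i = 0) (i : V) : a i = 0 := by
  have h0 : ∑ i, Polynomial.C (a i) * Polynomial.X ^ wt i = 0 := by
    refine Dl_zero fun s => ?_
    rw [Polynomial.eval_finsetSum, ← h s]
    refine Finset.sum_congr rfl fun i _ => ?_
    rw [Polynomial.eval_mul, Polynomial.eval_C, Polynomial.eval_pow, Polynomial.eval_X, mul_comm]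
  have h1 := congrArg (fun g : Polynomial k => g.coeff (wt i)) h0
  simp only [Polynomial.finsetSum_coeff, Polynomial.coeff_C_mul, Polynomial.coeff_X_pow,
    Polynomial.coeff_zero] at h1
  rw [Finset.sum_eq_single i] at h1
  · rw [if_pos rfl, mul_one] at h1
    exact h1
  · intro j _ hj
    rw [if_neg fun e => hj (hwt e.symm), mul_zero]
  · intro h2
    exact absurd (Finset.mem_univ i) h2

private theorem Dl_step {k : Type u} [Field k] [Infinite k] {V : Type} [Fintype V] [DecidableEq V] (wt : V → ℕ)
    (hwt : Function.Injective wt) (j : ℕ) (f : MvPolynomial V k) (v : V → k)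
    (h : ∀ θ : Fin (j + 1) ⊕ Fin (j + 1) → k, eval (v + vp wt (j + 1) θ) f = 0) (i : V)
    (θ : Fin j ⊕ Fin j → k) : eval (v + vp wt j θ) (pderiv i f) = 0 := by
  refine Dl_coef wt hwt (fun i => eval (v + vp wt j θ) (pderiv i f)) (fun s => ?_) i
  refine Dl_line (v + vp wt j θ) (fun i => s ^ wt i) f fun c => ?_
  have h1 := h (Sum.elim (Fin.snoc (fun m => θ (Sum.inl m)) c : Fin (j + 1) → k)
    (Fin.snoc (fun m => θ (Sum.inr m)) s : Fin (j + 1) → k))
  have h2 : (v + vp wt (j + 1) (Sum.elim (Fin.snoc (fun m => θ (Sum.inl m)) c : Fin (j + 1) → k)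
      (Fin.snoc (fun m => θ (Sum.inr m)) s : Fin (j + 1) → k))) =
      fun i => (v + vp wt j θ) i + c * s ^ wt i := by
    funext i
    show v i + ∑ m : Fin (j + 1), _ = v i + ∑ m : Fin j, _ + c * s ^ wt i
    rw [Fin.sum_univ_castSucc]
    simp only [Sum.elim_inl, Sum.elim_inr, Fin.snoc_castSucc, Fin.snoc_last]
    rw [add_assoc]
  rw [h2] at h1
  exact h1

private theorem Dl_main {k : Type u} [Field k] [Infinite k] {V : Type} [Fintype V] [DecidableEq V] (wt : V → ℕ)
    (hwt : Function.Injective wt) (j : ℕ) : ∀ (f : MvPolynomial V k) (v : V → k),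
    (∀ θ : Fin j ⊕ Fin j → k, eval (v + vp wt j θ) f = 0) → ∀ l : List V, l.length ≤ j →
      eval v (dd l f) = 0 := by
  have h0 : ∀ (j : ℕ) (f : MvPolynomial V k) (v : V → k),
      (∀ θ : Fin j ⊕ Fin j → k, eval (v + vp wt j θ) f = 0) → eval v (dd [] f) = 0 := by
    intro j f v h
    have h1 := h 0
    have h2 : v + vp wt j (0 : Fin j ⊕ Fin j → k) = v := by
      funext i
      show v i + ∑ m : Fin j, (0 : k) * (0 : k) ^ wt i = v i
      simp
    rw [h2] at h1
    exact h1
  induction j with
  | zero =>
    intro f v h l hl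
    rw [List.eq_nil_of_length_eq_zero (Nat.le_zero.1 hl)]
    exact h0 0 f v h
  | succ j ih =>
    intro f v h l hl
    rcases List.eq_nil_or_concat l with rfl | ⟨l', i, rfl⟩
    · exact h0 (j + 1) f v h
    · have h1 : dd (l' ++ [i]) f = dd l' (pderiv i f) := by
        unfold dd
        rw [List.foldr_append]
        rfl
      rw [List.concat_eq_append] at hl ⊢
      rw [h1]
      refine ih (pderiv i f) v (Dl_step wt hwt j f v h i) l' ?_
      rw [List.length_append] at hl
      simpa using hl

theorem dl {k : Type u} [Field k] [Infinite k] {V : Type} [Fintype V] [DecidableEq V] (wt : V → ℕ)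
    (hwt : Function.Injective wt) (j : ℕ) (f : MvPolynomial V k) (v : V → k)
    (h : ∀ θ : Fin j ⊕ Fin j → k, eval (v + vp wt j θ) f = 0) (l : List V) (hl : l.length ≤ j) :
    eval v (dd l f) = 0 :=
  Dl_main wt hwt j f v h l hl

end Pool.Agent.UNK
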