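import Pool.Agent.UNK.Rp

/-!
Project UNK (MP_e2be99_lc), module Hit.  Text: /team-store/unk_h34.md (section 0, hitting sets).
Definitions in `Pool/Agent/UNK/Defs.lean`.  Replace the `sorry`; keep the statements; helper lemmas private.

PLAN.
* `hitK n D K` = the image of the grid.  `hit_card`: `Finset.card_image_le`, `Fintype.card_piFinset` etc.
* `hit_hits`: `g (vp θ)` as a polynomial `G = aeval (gen) g` in the `2 K` variables, nonzero at some point of `k`, so `G ≠ 0`; `degreeOf (inl j) G ≤ totalDegree g ≤ D` and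
  `degreeOf (inr j) G ≤ totalDegree g * (n - 1) ≤ n * D` (each monomial of `g` is a product of at most `D` factors `X_u ↦ ∑ c_j s_j ^ u`, of degree 1 in `c_j`, `≤ u ≤ n - 1` in `s_j`); then
  `MvPolynomial.eq_zero_of_eval_zero_at_prod_finset` (Mathlib, combinatorial Nullstellensatz file) with the sets of the casts of `0..D` and `0..n D` (char 0: injective).
* `hit_le`: each coordinate of a point is at most `K * (D * (n * D) ^ u)`, `u < n`; if `D = 0` or `n * D = 0` bounds still hold with `(n * D + 1)`.
-/

set_option autoImplicit false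

namespace Pool.Agent.UNK

open MvPolynomial

universe u

section

open scoped Classical in
/-- the explicit points -/
noncomputable def hitK (n D K : ℕ) : Finset (Fin n → ℕ) :=
  (Fintype.piFinset (fun _ : Fin K => Finset.range (D + 1)) ×ˢ
    Fintype.piFinset (fun _ : Fin K => Finset.range (n * D + 1))).image
      (fun cs => fun u : Fin n => ∑ j : Fin K, cs.1 j * cs.2 j ^ (u : ℕ))

theorem hit_card (n D K : ℕ) : (hitK n D K).card ≤ (D + 1) ^ K * (n * D + 1) ^ K := by
  classical
  unfold hitK
  refine Finset.card_image_le.trans (le_of_eq ?_)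
  rw [Finset.card_product, Fintype.card_piFinset, Fintype.card_piFinset]
  simp

theorem hit_le (n D K : ℕ) (x : Fin n → ℕ) (hx : x ∈ hitK n D K) (u : Fin n) :
    x u ≤ K * (D * (n * D + 1) ^ n) := by
  classical
  unfold hitK at hx
  rw [Finset.mem_image] at hx
  obtain ⟨cs, hcs, rfl⟩ := hx
  rw [Finset.mem_product, Fintype.mem_piFinset, Fintype.mem_piFinset] at hcs
  obtain ⟨hc, hs⟩ := hcs
  have h1 : ∀ j : Fin K, cs.1 j * cs.2 j ^ (u : ℕ) ≤ D * (n * D + 1) ^ n := by
    intro j
    have hcj : cs.1 j ≤ D := Nat.lt_succ_iff.mp (Finset.mem_range.mp (hc j))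
    have hsj : cs.2 j ≤ n * D + 1 := le_of_lt (Finset.mem_range.mp (hs j))
    refine Nat.mul_le_mul hcj ?_
    calc cs.2 j ^ (u : ℕ) ≤ (n * D + 1) ^ (u : ℕ) := Nat.pow_le_pow_left hsj _
      _ ≤ (n * D + 1) ^ n := Nat.pow_le_pow_right (Nat.succ_pos _) (le_of_lt u.2)
  calc ∑ j : Fin K, cs.1 j * cs.2 j ^ (u : ℕ) ≤ ∑ _j : Fin K, D * (n * D + 1) ^ n :=
        Finset.sum_le_sum fun j _ => h1 j
    _ = K * (D * (n * D + 1) ^ n) := by simp

private theorem degreeOf_aeval_le {k : Type u} [Field k] {σ : Type} {n : ℕ} (i : σ)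
    (q : Fin n → MvPolynomial σ k) (b : ℕ) (hq : ∀ u, (q u).degreeOf i ≤ b)
    (g : MvPolynomial (Fin n) k) : (aeval q g).degreeOf i ≤ g.totalDegree * b := by
  classical
  rw [aeval_def, eval₂_eq']
  refine (degreeOf_sum_le i _ _).trans ?_
  refine Finset.sup_le ?_
  intro m hm
  refine (degreeOf_mul_le i _ _).trans ?_
  have h0 : degreeOf i (algebraMap k (MvPolynomial σ k) (coeff m g)) = 0 := by
    rw [algebraMap_eq]
    exact degreeOf_C _ _
  rw [h0, zero_add]
  refine (degreeOf_prod_le i _ _).trans ?_
  calc ∑ u : Fin n, degreeOf i (q u ^ m u) ≤ ∑ u : Fin n, m u * b := by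
        refine Finset.sum_le_sum fun u _ => ?_
        exact (degreeOf_pow_le i _ _).trans (Nat.mul_le_mul_left _ (hq u))
    _ = (∑ u : Fin n, m u) * b := by rw [Finset.sum_mul]
    _ ≤ g.totalDegree * b := by
        refine Nat.mul_le_mul_right _ ?_
        have := le_totalDegree hm
        rwa [Finsupp.sum_fintype] at this
        intro _
        rfl

theorem hit_hits {k : Type u} [Field k] [CharZero k] (n D K : ℕ) (g : MvPolynomial (Fin n) k)
    (hg : g.totalDegree ≤ D) (θ : Fin K ⊕ Fin K → k)
    (h : eval (vp (fun u : Fin n => (u : ℕ)) K θ) g ≠ 0) :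
    ∃ x ∈ hitK n D K, eval (fun u => ((x u : ℕ) : k)) g ≠ 0 := by
  classical
  by_contra hcon
  push Not at hcon
  set q : Fin n → MvPolynomial (Fin K ⊕ Fin K) k :=
    fun u => ∑ j : Fin K, X (Sum.inl j) * X (Sum.inr j) ^ (u : ℕ) with hqdef
  have hev : ∀ θ' : Fin K ⊕ Fin K → k,
      eval θ' (aeval q g) = eval (vp (fun u : Fin n => (u : ℕ)) K θ') g := by
    intro θ'
    have h1 : eval θ' (aeval q g) = eval (fun u => eval θ' (q u)) g := by
      rw [aeval_def, ← coe_eval₂Hom]
      change (eval θ').comp (eval₂Hom (algebraMap k (MvPolynomial (Fin K ⊕ Fin K) k)) q) g =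
        eval (fun u => eval θ' (q u)) g
      congr 1
      refine ringHom_ext ?_ ?_
      · intro a
        simp
      · intro u
        simp
    rw [h1]
    congr 2
    funext u
    simp [hqdef, vp]
  have hG : aeval q g ≠ 0 := by
    intro h0
    apply h
    rw [← hev θ, h0, map_zero]
  set S : Fin K ⊕ Fin K → Finset k := fun t => match t with
    | Sum.inl _ => (Finset.range (D + 1)).image (fun a : ℕ => (a : k))
    | Sum.inr _ => (Finset.range (n * D + 1)).image (fun a : ℕ => (a : k)) with hS
  have hcard : ∀ N : ℕ, ((Finset.range N).image (fun a : ℕ => (a : k))).card = N := by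
    intro N
    rw [Finset.card_image_of_injective _ Nat.cast_injective, Finset.card_range]
  apply hG
  refine eq_zero_of_eval_zero_at_prod_finset (aeval q g) S ?_ ?_
  · intro t
    rcases t with j | j
    · have h1 : (aeval q g).degreeOf (Sum.inl j) ≤ g.totalDegree * 1 := by
        refine degreeOf_aeval_le _ q 1 ?_ g
        intro u
        refine (degreeOf_sum_le _ _ _).trans (Finset.sup_le fun i _ => ?_)
        refine (degreeOf_mul_le _ _ _).trans ?_
        have h2 : degreeOf (Sum.inl j) (X (Sum.inl i) : MvPolynomial (Fin K ⊕ Fin K) k) ≤ 1 := by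
          rw [degreeOf_X]
          split_ifs <;> simp
        have h3 : degreeOf (Sum.inl j)
            ((X (Sum.inr i) : MvPolynomial (Fin K ⊕ Fin K) k) ^ (u : ℕ)) = 0 :=
          degreeOf_X_pow_of_ne _ (by simp)
        omega
      have h4 : (S (Sum.inl j)).card = D + 1 := hcard _
      rw [h4]
      omega
    · have h1 : (aeval q g).degreeOf (Sum.inr j) ≤ g.totalDegree * n := by
        refine degreeOf_aeval_le _ q n ?_ g
        intro u
        refine (degreeOf_sum_le _ _ _).trans (Finset.sup_le fun i _ => ?_)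
        refine (degreeOf_mul_le _ _ _).trans ?_
        have h2 : degreeOf (Sum.inr j) (X (Sum.inl i) : MvPolynomial (Fin K ⊕ Fin K) k) = 0 :=
          degreeOf_X_of_ne (by simp)
        have h3 : degreeOf (Sum.inr j)
            ((X (Sum.inr i) : MvPolynomial (Fin K ⊕ Fin K) k) ^ (u : ℕ)) ≤ u := by
          refine (degreeOf_pow_le _ _ _).trans ?_
          have : degreeOf (Sum.inr j) (X (Sum.inr i) : MvPolynomial (Fin K ⊕ Fin K) k) ≤ 1 := by
            rw [degreeOf_X]
            split_ifs <;> simp
          calc (u : ℕ) * degreeOf (Sum.inr j) (X (Sum.inr i) : MvPolynomial (Fin K ⊕ Fin K) k)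
              ≤ (u : ℕ) * 1 := Nat.mul_le_mul_left _ this
            _ = u := mul_one _
        have := u.2
        omega
      have h4 : (S (Sum.inr j)).card = n * D + 1 := hcard _
      rw [h4]
      have h5 : g.totalDegree * n ≤ n * D := by
        rw [mul_comm]
        exact Nat.mul_le_mul_left _ hg
      omega
  · intro a ha
    rw [hev a]
    have hc : ∀ j : Fin K, ∃ m : ℕ, m ∈ Finset.range (D + 1) ∧ (m : k) = a (Sum.inl j) := by
      intro j
      have := ha (Sum.inl j)
      exact Finset.mem_image.mp this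
    have hs : ∀ j : Fin K, ∃ m : ℕ, m ∈ Finset.range (n * D + 1) ∧ (m : k) = a (Sum.inr j) := by
      intro j
      have := ha (Sum.inr j)
      exact Finset.mem_image.mp this
    choose c hc1 hc2 using hc
    choose s hs1 hs2 using hs
    have hx : (fun u : Fin n => ∑ j : Fin K, c j * s j ^ (u : ℕ)) ∈ hitK n D K := by
      unfold hitK
      rw [Finset.mem_image]
      refine ⟨(c, s), ?_, rfl⟩
      rw [Finset.mem_product, Fintype.mem_piFinset, Fintype.mem_piFinset]
      exact ⟨hc1, hs1⟩
    have := hcon _ hx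
    rw [← this]
    congr 2
    funext u
    simp only [vp]
    push_cast
    refine Finset.sum_congr rfl fun j _ => ?_
    rw [hc2, hs2]

end

end Pool.Agent.UNK
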