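import Pool.Agent.UNK.Th2
import Pool.Agent.UNK.Hit

/-!
Project UNK (MP_e2be99_lc), module Fin.

A nonzero sum of `c` programs of width `w`, each in its own order, stays nonzero at the generic point of level `KK w c`
(`gen_sum`), a nonzero program at the level `K1 w` (`gen_one`). The explicit points of a level that keeps the members of `S`
nonzero hit every divisor of degree at most `D` of the product of `S` (`hit_dvd`).
-/

set_option autoImplicit false

namespace Pool.Agent.UNK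

open MvPolynomial

universe u

section

/-- `f` has a read-once oblivious program of width `w` in some order of the variables:
`f = ∑ p q, Φ p q * (M 0 (x_(σ 0)) * .. * M (n-1) (x_(σ (n-1)))) p q` -/
def IsR {k : Type u} [Field k] {n : ℕ} (w : ℕ) (f : MvPolynomial (Fin n) k) : Prop :=
  ∃ (σ : Equiv.Perm (Fin n)) (M : Fin n → Matrix (Fin w) (Fin w) (Polynomial k))
    (Φ : Matrix (Fin w) (Fin w) k),
    f = ∑ p, ∑ q, C (Φ p q) *
      (List.ofFn fun i => (M i).map
        (fun h => Polynomial.aeval (X (σ i) : MvPolynomial (Fin n) k) h)).prod p q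

/-- sums of `c` programs of width `w`, each in its own order -/
def SumR {k : Type u} [Field k] {n : ℕ} (c w : ℕ) (f : MvPolynomial (Fin n) k) : Prop :=
  ∃ F : Fin c → MvPolynomial (Fin n) k, (∀ i, IsR w (F i)) ∧ f = ∑ i, F i

/-- a nonzero polynomial has a nonzero value -/
private theorem fin_val {k : Type u} [Field k] [CharZero k] {σ : Type} (f : MvPolynomial σ k) (hf : f ≠ 0) :
    ∃ a : σ → k, eval a f ≠ 0 := by
  by_contra hcon
  push Not at hcon
  refine hf (MvPolynomial.funext fun a => ?_)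
  rw [hcon a, map_zero]

/-- the row of a program -/
private theorem fin_row {k : Type u} [Field k] {n : ℕ} (w : ℕ) (f : MvPolynomial (Fin n) k)
    (h : IsR w f) : ∃ R : Row k (Fin n) w, R.L.Nodup ∧ (∀ u, u ∈ R.L) ∧ f = fpoly R.A R.L R.Φ := by
  obtain ⟨σ, M, Φ, hf⟩ := h
  refine ⟨⟨fun u => M (σ.symm u), List.ofFn σ, Φ⟩, List.nodup_ofFn.2 σ.injective, ?_, ?_⟩
  · intro u
    exact (List.mem_ofFn' σ u).2 ⟨σ.symm u, σ.apply_symm_apply u⟩
  · rw [hf]
    unfold fpoly rpp
    simp only [List.map_ofFn, Function.comp_def, Equiv.symm_apply_apply]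

/-- a functional as a functional of the first tensor power -/
private theorem fin_dot {k : Type u} [Field k] {w : ℕ} (Φ M : Matrix (Fin w) (Fin w) k) :
    dot (Matrix.of fun p q : Fin 1 → Fin w => Φ (p 0) (q 0)) (tp 1 M) = dot Φ M := by
  unfold dot tp
  simp only [Matrix.of_apply, Finset.univ_unique, Finset.prod_singleton]
  rw [← (Equiv.funUnique (Fin 1) (Fin w)).symm.sum_comp]
  refine Finset.sum_congr rfl fun p _ => ?_
  rw [← (Equiv.funUnique (Fin 1) (Fin w)).symm.sum_comp]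
  refine Finset.sum_congr rfl fun q _ => ?_
  rfl

variable {k : Type u} [Field k] [CharZero k] {n : ℕ}

theorem gen_sum (c w : ℕ) (f : MvPolynomial (Fin n) k) (hf : f ≠ 0) (h : SumR c w f) :
    aeval (gv k (fun u : Fin n => (u : ℕ)) (KK w c)) f ≠ 0 := by
  obtain ⟨F, hF, hsum⟩ := h
  choose R hR using fun i => fin_row w (F i) (hF i)
  obtain ⟨a, ha⟩ := fin_val f hf
  have hval : ∀ b : Fin n → k, FF (List.ofFn R) (ev b) = eval b f := by
    intro b
    unfold FF
    rw [List.map_ofFn, List.sum_ofFn, hsum, map_sum]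
    refine Finset.sum_congr rfl fun i _ => ?_
    rw [Function.comp_apply, (hR i).2.2, eval_fpoly]
  have h1 : ∀ S ∈ List.ofFn R, S.L.Nodup ∧ ∀ u, u ∈ S.L := by
    intro S hS
    obtain ⟨i, rfl⟩ := (List.mem_ofFn' R S).1 hS
    exact ⟨(hR i).1, (hR i).2.1⟩
  have h2 := th2 (fun u : Fin n => (u : ℕ)) Fin.val_injective (List.ofFn R) h1 a (by rw [hval]; exact ha)
  rw [List.length_ofFn] at h2
  obtain ⟨θ, hθ⟩ := h2
  rw [hval, ← eval_gv] at hθ
  intro h3
  rw [h3, map_zero] at hθ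
  exact hθ rfl

theorem gen_one (w : ℕ) (f : MvPolynomial (Fin n) k) (hf : f ≠ 0) (h : IsR w f) :
    aeval (gv k (fun u : Fin n => (u : ℕ)) (K1 w)) f ≠ 0 := by
  obtain ⟨R, hR1, _, hR3⟩ := fin_row w f h
  obtain ⟨a, ha⟩ := fin_val f hf
  have hw : 1 ≤ w := by
    rcases Nat.eq_zero_or_pos w with h0 | h0
    · exfalso
      subst h0
      refine hf ?_
      rw [hR3]
      unfold fpoly
      simp
    · exact h0
  rw [hR3, eval_fpoly, ← fin_dot] at ha
  obtain ⟨θ, hθ⟩ := th1 (fun u : Fin n => (u : ℕ)) Fin.val_injective R.A R.L hR1 1 hw _ ⟨a, ha⟩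
  rw [fin_dot, ← eval_fpoly, ← hR3, ← eval_gv] at hθ
  intro h3
  rw [h3, map_zero] at hθ
  exact hθ rfl

theorem hit_dvd (K D : ℕ) (S : Multiset (MvPolynomial (Fin n) k)) (g : MvPolynomial (Fin n) k)
    (hS : ∀ f ∈ S, aeval (gv k (fun u : Fin n => (u : ℕ)) K) f ≠ 0) (hg : g ∣ S.prod)
    (hD : g.totalDegree ≤ D) :
    ∃ x ∈ hitK n D K, eval (fun u => ((x u : ℕ) : k)) g ≠ 0 := by
  have h1 : aeval (gv k (fun u : Fin n => (u : ℕ)) K) S.prod ≠ 0 := by
    rw [map_multiset_prod]
    refine Multiset.prod_ne_zero fun h0 => ?_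
    obtain ⟨f, hf, hf0⟩ := Multiset.mem_map.1 h0
    exact hS f hf hf0
  have h2 : aeval (gv k (fun u : Fin n => (u : ℕ)) K) g ≠ 0 :=
    ne_zero_of_dvd_ne_zero h1 (map_dvd _ hg)
  obtain ⟨θ, hθ⟩ := fin_val _ h2
  rw [eval_gv] at hθ
  exact hit_hits n D K g hD θ hθ

end

end Pool.Agent.UNK
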