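import Pool.Agent.UNK.Od
import Pool.Agent.UNK.Br
import Pool.Agent.UNK.Tp

/-!
Project UNK (MP_e2be99_lc), module Gd.  Text: /team-store/unk_h34.md (section 3 (corollary) and section 6 (ranks at generic points)).
Definitions in `Pool/Agent/UNK/Defs.lean`.  Replace the `sorry`; keep the statements; helper lemmas private.

PLAN.
* `DD_ge`: `g ≤ w`: for `w = 0` only `g = 0`; else `(w ^ g) ^ 2 = w ^ (2 g) ≤ w ^ (2 w)`.
* `good_ev`: finitely many `g ≤ w` (`Filter.eventually_all_finset` or `Filter.Eventually.and` inductively): for each `g` apply `lemO` to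
  `ι = (Fin g → Fin w) × (Fin g → Fin w)`, `M (p, q) = rpp (tr g A) L p q`, `card ι = (w ^ g) ^ 2 ≤ DD w`; `∑ C (Φ p q) * M (p, q) = fpoly (tr g A) L Φ`;
  its value at `a` is `dot Φ (tp g (rp A L (ev a)))` (`eval_fpoly`, `rp_tr`), so it is nonzero iff some value is nonzero (infinite
  field).  The list `l` of `lemO`: all its elements are in `L` (`br0`), `e u = l.count u`, `∑ u, l.count u = l.length`, `br`.
* `rk_ev`: `U, W` with `U * (X * rp A J (ev a) * Y) * W = 1` (`fac_ge`); by `det_tp'` the determinant of `(U * X) * M * (Y * W)` is a functional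
  of `tp r M`; `Cpl` with `g = r ≤ w` (rank of a `w x w` matrix); nonzero at some `θ`, hence generically (`PF.ev_ne`, `PF.comp`, `vp_pf`,
  `rp_pf'`); then `ge_of_fac`.
* `cpl_ev`: the value in `Cpl` is nonzero at generic `θ`.
* `unit_ev` (base point (B) of section 8): for every `u` and `K ≥ 1` `lemO` for the family of all entries of the `R.A u`, `R ∈ Rs`, as
  polynomials in `X u` (`ι = Fin Rs.length × Fin w × Fin w`, `card ι = Rs.length * w ^ 2`); `f = aeval (X u) h`, `h ∈ HH Rs u`, all derivatives except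
  those in the variable `u` are 0, `eval v (dd (replicate e u) f) = (derivative^[e] h).eval (v u)`; hypothesis of `lemO`: `vp_one`.
-/

set_option autoImplicit false

namespace Pool.Agent.UNK

open MvPolynomial

universe u

section

variable {k : Type u} [Field k] [CharZero k] {V : Type} [Fintype V] [DecidableEq V] {w : ℕ}

theorem DD_ge {g : ℕ} (hg : g ≤ w) : (w ^ g) ^ 2 ≤ DD w := by
  unfold DD
  rcases Nat.eq_zero_or_pos w with hw | hw
  · subst hw
    have h0 : g = 0 := by omega
    subst h0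
    exact le_of_eq (by norm_num)
  · rw [← pow_mul]
    exact Nat.pow_le_pow_right hw (by omega)

omit [CharZero k] [Fintype V] [DecidableEq V] in
private theorem gd_pf (wt : V → ℕ) (A : V → Matrix (Fin w) (Fin w) (Polynomial k)) (K : ℕ) (L : List V)
    (g : ℕ) (Φ : Matrix (Fin g → Fin w) (Fin g → Fin w) k) :
    PF (fun θ : Fin K ⊕ Fin K → k => dot Φ (tp g (rp A L (ev (vp wt K θ))))) := by
  refine PF.dot Φ fun p q => tp_pf g (M := fun θ : Fin K ⊕ Fin K → k => rp A L (ev (vp wt K θ)))
    (fun p q => ?_) p q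
  exact PF.comp (rp_pf' A L p q) (g := vp wt K) (fun u => vp_pf wt K u)

theorem cpl_ev (wt : V → ℕ) (A : V → Matrix (Fin w) (Fin w) (Polynomial k)) (K : ℕ) (L : List V)
    (h : Cpl wt A K L) (g : ℕ) (hg : g ≤ w) (Φ : Matrix (Fin g → Fin w) (Fin g → Fin w) k)
    (a : V → k) (ha : dot Φ (tp g (rp A L (ev a))) ≠ 0) :
    ∀ᶠ θ in zar k (Fin K ⊕ Fin K), dot Φ (tp g (rp A L (ev (vp wt K θ)))) ≠ 0 :=
  PF.ev_ne (gd_pf wt A K L g Φ) (h g hg Φ ⟨a, ha⟩)

omit [CharZero k] [Fintype V] [DecidableEq V] in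
private theorem gd_sum (A : V → Matrix (Fin w) (Fin w) (Polynomial k)) (L : List V) (g : ℕ)
    (φ : (Fin g → Fin w) × (Fin g → Fin w) → k) :
    ∑ i, C (φ i) * (fun i : (Fin g → Fin w) × (Fin g → Fin w) => rpp (tr g A) L i.1 i.2) i =
      fpoly (tr g A) L (Matrix.of fun p q => φ (p, q)) := by
  rw [Fintype.sum_prod_type]
  rfl

omit [CharZero k] in
private theorem gd_count (l : List V) : ∑ u, l.count u = l.length := by
  induction l with
  | nil => simp
  | cons x l ih =>
    have h1 : ∀ u, (x :: l).count u = l.count u + if x = u then 1 else 0 := by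
      intro u
      rw [List.count_cons]
      simp only [beq_iff_eq]
    rw [Finset.sum_congr rfl fun u _ => h1 u, Finset.sum_add_distrib, ih, Finset.sum_ite_eq]
    simp

theorem good_ev (wt : V → ℕ) (A : V → Matrix (Fin w) (Fin w) (Polynomial k)) (K : ℕ) (L : List V)
    (hL : L.Nodup) (h : Cpl wt A K L) :
    ∀ᶠ θ in zar k (Fin K ⊕ Fin K), Good A (DD w) L (vp wt K θ) := by
  have key : ∀ g ∈ Finset.range (w + 1), ∀ᶠ θ in zar k (Fin K ⊕ Fin K),
      ∀ φ : (Fin g → Fin w) × (Fin g → Fin w) → k,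
        fpoly (tr g A) L (Matrix.of fun p q => φ (p, q)) ≠ 0 →
        ∃ l : List V, l.length ≤ Fintype.card ((Fin g → Fin w) × (Fin g → Fin w)) ∧
          eval (vp wt K θ) (dd l (fpoly (tr g A) L (Matrix.of fun p q => φ (p, q)))) ≠ 0 := by
    intro g hg
    have hg' : g ≤ w := by
      have := Finset.mem_range.1 hg
      omega
    have h1 := lemO wt K
      (fun i : (Fin g → Fin w) × (Fin g → Fin w) => rpp (tr g A) L i.1 i.2) (by
        intro φ hφ
        rw [gd_sum] at hφ ⊢
        have h2 : ∃ a : V → k, eval a (fpoly (tr g A) L (Matrix.of fun p q => φ (p, q))) ≠ 0 := by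
          by_contra hcon
          push Not at hcon
          apply hφ
          apply MvPolynomial.funext
          intro a
          rw [hcon a, map_zero]
        obtain ⟨a, ha⟩ := h2
        rw [eval_fpoly, rp_tr] at ha
        obtain ⟨θ, hθ⟩ := h g hg' _ ⟨a, ha⟩
        refine ⟨θ, ?_⟩
        rw [eval_fpoly, rp_tr]
        exact hθ)
    simp only [gd_sum] at h1
    exact h1
  have key2 := (Filter.eventually_all_finset (Finset.range (w + 1))).2 key
  filter_upwards [key2] with θ hθ g hg Φ ha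
  obtain ⟨a, ha⟩ := ha
  have h3 : (Matrix.of fun p q => (fun i : (Fin g → Fin w) × (Fin g → Fin w) => Φ i.1 i.2) (p, q)) = Φ := rfl
  have h4 := hθ g (Finset.mem_range.2 (by omega)) (fun i => Φ i.1 i.2) (by
    rw [h3]
    intro h0
    apply ha
    rw [← rp_tr, ← eval_fpoly, h0, map_zero])
  rw [h3] at h4
  obtain ⟨l, hl, hl2⟩ := h4
  have hmem : ∀ u ∈ l, u ∈ L := by
    intro u hu
    by_contra huL
    exact hl2 (br0 (tr g A) L Φ (vp wt K θ) l ⟨u, hu, huL⟩)
  refine ⟨fun u => l.count u, ?_, ?_, ?_⟩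
  · intro u hu
    exact List.count_eq_zero.2 fun h5 => hu (hmem u h5)
  · rw [gd_count]
    refine hl.trans ?_
    rw [Fintype.card_prod, Fintype.card_fun, Fintype.card_fin, Fintype.card_fin, ← sq]
    exact DD_ge hg
  · rw [← br (tr g A) L hL Φ (vp wt K θ) l hmem]
    exact hl2

theorem rk_ev (wt : V → ℕ) (A : V → Matrix (Fin w) (Fin w) (Polynomial k)) (K : ℕ) (J : List V)
    (h : Cpl wt A K J) (r : ℕ) (X Y : Matrix (Fin w) (Fin w) k) (a : V → k)
    (ha : r ≤ (X * rp A J (ev a) * Y).rank) :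
    ∀ᶠ θ in zar k (Fin K ⊕ Fin K), r ≤ (X * rp A J (ev (vp wt K θ)) * Y).rank := by
  obtain ⟨U, W, hUW⟩ := fac_ge ha
  obtain ⟨Φ, hΦ⟩ := det_tp' r (U * X) (Y * W)
  have hr : r ≤ w := ha.trans (Matrix.rank_le_width _)
  have hre : ∀ M : Matrix (Fin w) (Fin w) k, U * (X * M * Y) * W = (U * X) * M * (Y * W) := by
    intro M
    simp only [Matrix.mul_assoc]
  have h1 : dot Φ (tp r (rp A J (ev a))) ≠ 0 := by
    rw [← hΦ, ← hre, hUW, Matrix.det_one]
    exact one_ne_zero
  filter_upwards [cpl_ev wt A K J h r hr Φ a h1] with θ hθ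
  apply ge_of_fac (U := U) (W := W)
  rw [hre, hΦ]
  exact hθ

omit [CharZero k] [Fintype V] in
private theorem gd_pd (u x : V) (h : Polynomial k) :
    pderiv x (Polynomial.aeval (X u : MvPolynomial V k) h) =
      if u = x then Polynomial.aeval (X u : MvPolynomial V k) (Polynomial.derivative h) else 0 := by
  rw [Derivation.map_aeval, pderiv_X]
  split_ifs with h1
  · subst h1
    simp
  · rw [Pi.single_eq_of_ne h1, smul_zero]

omit [CharZero k] [Fintype V] in
private theorem gd_dd (u : V) (h : Polynomial k) (l : List V) :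
    dd l (Polynomial.aeval (X u : MvPolynomial V k) h) = 0 ∨
      dd l (Polynomial.aeval (X u : MvPolynomial V k) h) =
        Polynomial.aeval (X u : MvPolynomial V k) (Polynomial.derivative^[l.length] h) := by
  induction l with
  | nil => exact Or.inr rfl
  | cons x l ih =>
    have h1 : dd (x :: l) (Polynomial.aeval (X u : MvPolynomial V k) h) =
        pderiv x (dd l (Polynomial.aeval (X u : MvPolynomial V k) h)) := rfl
    rw [h1]
    rcases ih with ih | ih
    · left
      rw [ih, map_zero]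
    · rw [ih, gd_pd]
      split_ifs
      · right
        rw [List.length_cons, Function.iterate_succ_apply']
      · left
        rfl

omit [CharZero k] [Fintype V] [DecidableEq V] in
private theorem gd_eval (a : V → k) (u : V) (h : Polynomial k) :
    eval a (Polynomial.aeval (X u : MvPolynomial V k) h) = h.eval (a u) := by
  rw [Polynomial.aeval_def, Polynomial.hom_eval₂]
  have h1 : (eval a).comp (algebraMap k (MvPolynomial V k)) = RingHom.id k := by
    ext c
    simp
  rw [h1, eval_X, Polynomial.eval₂_id]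

/-- the entries of the matrices of the variable `u` -/
private def gdE (Rs : List (Row k V w)) (u : V) (i : Fin Rs.length × (Fin w × Fin w)) : Polynomial k :=
  (Rs.get i.1).A u i.2.1 i.2.2

omit [CharZero k] [Fintype V] [DecidableEq V] in
private theorem gd_span (Rs : List (Row k V w)) (u : V) {h : Polynomial k} (hh : h ∈ HH Rs u) :
    ∃ φ : Fin Rs.length × (Fin w × Fin w) → k, ∑ i, φ i • gdE Rs u i = h := by
  have h1 : {h : Polynomial k | ∃ R ∈ Rs, ∃ p q, h = R.A u p q} = Set.range (gdE Rs u) := by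
    ext h
    constructor
    · rintro ⟨R, hR, p, q, rfl⟩
      obtain ⟨n, hn⟩ := List.get_of_mem hR
      refine ⟨(n, (p, q)), ?_⟩
      unfold gdE
      rw [hn]
    · rintro ⟨⟨n, p, q⟩, rfl⟩
      exact ⟨Rs.get n, List.get_mem _ _, p, q, rfl⟩
  unfold HH at hh
  rw [h1] at hh
  exact (Submodule.mem_span_range_iff_exists_fun k).1 hh

omit [CharZero k] [Fintype V] [DecidableEq V] in
private theorem gd_M (Rs : List (Row k V w)) (u : V) (φ : Fin Rs.length × (Fin w × Fin w) → k) :
    ∑ i, C (φ i) * (fun i : Fin Rs.length × (Fin w × Fin w) =>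
      Polynomial.aeval (X u : MvPolynomial V k) (gdE Rs u i)) i =
      Polynomial.aeval (X u : MvPolynomial V k) (∑ i, φ i • gdE Rs u i) := by
  rw [map_sum]
  refine Finset.sum_congr rfl fun i _ => ?_
  rw [map_smul, smul_eq_C_mul]

theorem unit_ev (wt : V → ℕ) (K : ℕ) (hK : 1 ≤ K) (Rs : List (Row k V w)) :
    ∀ᶠ θ in zar k (Fin K ⊕ Fin K), UG (HH Rs) (Rs.length * w ^ 2) (vp wt K θ) := by
  unfold UG
  rw [Filter.eventually_all]
  intro u
  have hne : ∀ h : Polynomial k, h ≠ 0 → ∃ c : k, h.eval c ≠ 0 := by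
    intro h hh
    by_contra hcon
    push Not at hcon
    apply hh
    apply Polynomial.funext
    intro c
    rw [hcon c, Polynomial.eval_zero]
  have h1 := lemO wt K (fun i : Fin Rs.length × (Fin w × Fin w) =>
      Polynomial.aeval (X u : MvPolynomial V k) (gdE Rs u i)) (by
    intro φ hφ
    rw [gd_M] at hφ ⊢
    have h2 : (∑ i, φ i • gdE Rs u i) ≠ 0 := by
      intro h0
      rw [h0, map_zero] at hφ
      exact hφ rfl
    obtain ⟨c, hc⟩ := hne _ h2
    obtain ⟨θ, hθ⟩ := vp_one wt K hK c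
    refine ⟨θ, ?_⟩
    rw [gd_eval, hθ]
    exact hc)
  simp only [gd_M] at h1
  filter_upwards [h1] with θ hθ h hh hd
  obtain ⟨φ, hφ⟩ := gd_span Rs u hh
  by_contra h0
  have h2 := hθ φ (by
    rw [hφ]
    intro h3
    obtain ⟨c, hc⟩ := hne h h0
    apply hc
    have h4 := gd_eval (fun _ : V => c) u h
    rw [h3, map_zero] at h4
    exact h4.symm)
  rw [hφ] at h2
  obtain ⟨l, hl, hl2⟩ := h2
  rcases gd_dd u h l with h5 | h5
  · rw [h5, map_zero] at hl2
    exact hl2 rfl
  · rw [h5, gd_eval] at hl2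
    refine hl2 (hd l.length (hl.trans (le_of_eq ?_)))
    rw [Fintype.card_prod, Fintype.card_prod, Fintype.card_fin, Fintype.card_fin, sq]

end

end Pool.Agent.UNK
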