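import Pool.Agent.UNK.Mr

/-!
Project UNK (MP_e2be99_lc), module Sw.  Text: /team-store/unk_h34.md (section 8 (c), the sweep).
Definitions in `Pool/Agent/UNK/Defs.lean`.  Proved (helper51).

PLAN.
Induction on `L'` (append at the end, `List.reverseRecOn`, or on its length).  `L' = []`: `mix ∅ nu lam = lam = mix ∅ (jet 0 v) lam`, `e' = 0`.
Step `L' ++ [u]`, `L = (L' ++ [u]) ++ L''`: by induction hypothesis the function of `lam` for `L'`, `nu` is `∑ c_i * GG .. (mix L' (jet (e_i) v) lam)` (`Submodule.span`: use the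
linear map `f ↦ (fun lam => f (mix [u] nu lam))` on functions and `Submodule.span_induction`/`map_span`): so the function for `L' ++ [u]`, `nu` is a combination of
`lam ↦ GG .. (mix L' (jet e v) (mix [u] nu lam))`, `∑ e ≤ D`.  If `u ∉ Z`, `GG` does not depend on the value at `u`: this is the function for `L' ++ [u]` and `e` restricted to `L'` (`∑ ≤ D`): done
(`hstar` not needed, or use it).  If `u ∈ Z`: `dual` for `nu u` and `mr_GG` (`mix L' (jet e v) (mix [u] nu lam) = update (..) u (nu u)`): it is `∑_{e₀ ≤ N} η e₀ *` the function for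
`L' ++ [u]` and `e'' = e` on `L'`, `e₀` at `u`, 0 elsewhere, `∑ e'' ≤ D + N`: `hstar` for the prefix `L' ++ [u]`.
-/

set_option autoImplicit false

namespace Pool.Agent.UNK

open MvPolynomial

universe u

private theorem sw_aux_mix_append {k : Type u} [Field k] {V : Type} [DecidableEq V]
    (L' : List V) (u : V) (nu lam : GP k V) :
    mix {x | x ∈ L' ++ [u]} nu lam = mix {x | x ∈ L'} nu (Function.update lam u (nu u)) := by
  funext x
  by_cases hx : x ∈ L'
  · simp [mix, hx]
  · by_cases hxu : x = u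
    · subst hxu
      simp [mix]
    · simp [mix, hx, hxu]

private theorem sw_aux_mix_notMem {k : Type u} [Field k] {V : Type} [DecidableEq V]
    (L' : List V) (u : V) (hu : u ∉ L') (nu lam : GP k V) (x : Polynomial k →ₗ[k] k) :
    mix {x | x ∈ L'} nu (Function.update lam u x) =
      Function.update (mix {x | x ∈ L'} nu lam) u x := by
  funext y
  by_cases hyu : y = u
  · subst hyu
    simp [mix, hu]
  · simp [mix, hyu]

private theorem sw_aux_GG_congr {k : Type u} [Field k] {V : Type} {w : ℕ}
    (Rs : List (Row k V w)) (Z : Set V) {τ : Type} [Fintype τ] (gam : τ → k)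
    (kap : τ → GP k V) (lam lam' : GP k V) (h : ∀ u ∈ Z, lam u = lam' u) :
    GG Rs Z gam kap lam = GG Rs Z gam kap lam' := by
  have : ∀ l, mix Z lam (kap l) = mix Z lam' (kap l) := by
    intro l
    funext x
    by_cases hx : x ∈ Z
    · simp [mix, hx, h x hx]
    · simp [mix, hx]
  simp only [GG, this]

private theorem sw_aux_step {k : Type u} [Field k] {V : Type} [Fintype V] [DecidableEq V] {w : ℕ}
    (Rs : List (Row k V w)) (hR : ∀ R ∈ Rs, R.L.Nodup ∧ ∀ u, u ∈ R.L) (v : V → k) (N : ℕ)
    (hug : UG (HH Rs) N v) (Z : Set V) (τ : Type) [Fintype τ] (gam : τ → k) (kap : τ → GP k V)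
    (D : ℕ) (L' : List V) (u : V) (hu : u ∉ L') (M : Submodule k (GP k V → k))
    (hM1 : ∀ e : V → ℕ, ∑ x, e x ≤ D →
      (fun lam => GG Rs Z gam kap (mix {x | x ∈ L' ++ [u]} (jet e v) lam)) ∈ M)
    (hM2 : ∀ e : V → ℕ, ∑ x, e x ≤ D + N →
      (fun lam => GG Rs Z gam kap (mix {x | x ∈ L' ++ [u]} (jet e v) lam)) ∈ M)
    (e' : V → ℕ) (he' : ∑ x, e' x ≤ D) (y : Polynomial k →ₗ[k] k) :
    (fun lam => GG Rs Z gam kap
      (mix {x | x ∈ L'} (jet e' v) (Function.update lam u y))) ∈ M := by
  by_cases hZ : u ∈ Z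
  · obtain ⟨η, hη⟩ := dual (HH Rs) N v hug u y
    have key : (fun lam => GG Rs Z gam kap
        (mix {x | x ∈ L'} (jet e' v) (Function.update lam u y))) =
        ∑ e₀ ∈ Finset.range (N + 1), η e₀ • (fun lam => GG Rs Z gam kap
          (mix {x | x ∈ L' ++ [u]} (jet (Function.update e' u e₀) v) lam)) := by
      funext lam
      rw [Finset.sum_apply]
      rw [sw_aux_mix_notMem L' u hu]
      obtain ⟨h, hh, hnu⟩ := mr_GG Rs hR Z gam kap (mix {x | x ∈ L'} (jet e' v) lam) u hZ
      rw [hnu y, hη h hh]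
      refine Finset.sum_congr rfl fun e₀ _ => ?_
      rw [Pi.smul_apply, smul_eq_mul]
      congr 1
      have h1 : mix {x | x ∈ L' ++ [u]} (jet (Function.update e' u e₀) v) lam =
          Function.update (mix {x | x ∈ L'} (jet e' v) lam) u
            (jet (Function.update e' u e₀) v u) := by
        funext x
        by_cases hxu : x = u
        · subst hxu
          simp [mix]
        · by_cases hx : x ∈ L'
          · simp [mix, hx, hxu, jet]
          · simp [mix, hx, hxu]
      rw [h1, hnu]
      simp [jet, Module.End.pow_apply]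
    rw [key]
    refine Submodule.sum_mem _ fun e₀ he₀ => Submodule.smul_mem _ _ (hM2 _ ?_)
    rw [Finset.sum_update_of_mem (Finset.mem_univ u)]
    have h2 : ∑ x ∈ Finset.univ \ {u}, e' x ≤ ∑ x, e' x :=
      Finset.sum_le_sum_of_subset (Finset.sdiff_subset)
    have h3 : e₀ ≤ N := Nat.lt_succ_iff.mp (Finset.mem_range.mp he₀)
    omega
  · have key : (fun lam => GG Rs Z gam kap
        (mix {x | x ∈ L'} (jet e' v) (Function.update lam u y))) =
        (fun lam => GG Rs Z gam kap (mix {x | x ∈ L' ++ [u]} (jet e' v) lam)) := by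
      funext lam
      rw [sw_aux_mix_append]
      refine sw_aux_GG_congr _ _ _ _ _ _ fun x hx => ?_
      have hxu : x ≠ u := fun h => hZ (h ▸ hx)
      simp [mix, hxu]
    rw [key]
    exact hM1 e' he'

theorem sweep {k : Type u} [Field k] {V : Type} [Fintype V] [DecidableEq V] {w : ℕ}
    (Rs : List (Row k V w)) (hR : ∀ R ∈ Rs, R.L.Nodup ∧ ∀ u, u ∈ R.L) (v : V → k) (N : ℕ)
    (hug : UG (HH Rs) N v) (Z : Set V) (τ : Type) [Fintype τ] (gam : τ → k) (kap : τ → GP k V)
    (D : ℕ) (L : List V) (hLnd : L.Nodup)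
    (hstar : ∀ L' L'' : List V, L = L' ++ L'' → ∀ e : V → ℕ, ∑ u, e u ≤ D + N →
      (fun lam => GG Rs Z gam kap (mix {u | u ∈ L'} (jet e v) lam)) ∈
        Submodule.span k {f : GP k V → k | ∃ e' : V → ℕ, ∑ u, e' u ≤ D ∧
          f = fun lam => GG Rs Z gam kap (mix {u | u ∈ L'} (jet e' v) lam)})
    (L' L'' : List V) (hL : L = L' ++ L'') (nu : GP k V) :
    (fun lam => GG Rs Z gam kap (mix {u | u ∈ L'} nu lam)) ∈
      Submodule.span k {f : GP k V → k | ∃ e' : V → ℕ, ∑ u, e' u ≤ D ∧
        f = fun lam => GG Rs Z gam kap (mix {u | u ∈ L'} (jet e' v) lam)} := by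
  induction L' using List.reverseRecOn generalizing L'' with
  | nil =>
    refine Submodule.subset_span ⟨fun _ => 0, by simp, ?_⟩
    funext lam
    congr 1
    funext x
    simp [mix]
  | append_singleton L₀ u ih =>
    have hL2 : L = L₀ ++ (u :: L'') := by rw [hL]; simp
    have hu : u ∉ L₀ := by
      intro h
      rw [hL] at hLnd
      have := (List.nodup_append.mp (List.nodup_append.mp hLnd).1).2.2
      exact (this u h u (by simp)) rfl
    have h1 := ih (u :: L'') hL2
    have h2 := Submodule.mem_map_of_mem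
      (f := LinearMap.funLeft k k (fun lam : GP k V => Function.update lam u (nu u))) h1
    have h3 : LinearMap.funLeft k k (fun lam : GP k V => Function.update lam u (nu u))
        (fun lam => GG Rs Z gam kap (mix {u | u ∈ L₀} nu lam)) =
        fun lam => GG Rs Z gam kap (mix {x | x ∈ L₀ ++ [u]} nu lam) := by
      funext lam
      rw [LinearMap.funLeft_apply, sw_aux_mix_append]
    rw [h3] at h2
    have h4 : ∀ f ∈ {f : GP k V → k | ∃ e' : V → ℕ, ∑ u, e' u ≤ D ∧
          f = fun lam => GG Rs Z gam kap (mix {u | u ∈ L₀} (jet e' v) lam)},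
        f ∈ Submodule.comap
          (LinearMap.funLeft k k (fun lam : GP k V => Function.update lam u (nu u)))
          (Submodule.span k {f : GP k V → k | ∃ e' : V → ℕ, ∑ u, e' u ≤ D ∧
          f = fun lam => GG Rs Z gam kap (mix {x | x ∈ L₀ ++ [u]} (jet e' v) lam)}) := by
      rintro f ⟨e', he', rfl⟩
      rw [Submodule.mem_comap]
      have h5 : LinearMap.funLeft k k (fun lam : GP k V => Function.update lam u (nu u))
          (fun lam => GG Rs Z gam kap (mix {u | u ∈ L₀} (jet e' v) lam)) =
          fun lam => GG Rs Z gam kap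
            (mix {x | x ∈ L₀} (jet e' v) (Function.update lam u (nu u))) := by
        funext lam
        rw [LinearMap.funLeft_apply]
      rw [h5]
      refine sw_aux_step Rs hR v N hug Z τ gam kap D L₀ u hu _ ?_
        (fun e he => hstar _ _ hL e he) e' he' (nu u)
      intro e he
      exact Submodule.subset_span ⟨e, he, rfl⟩
    exact Submodule.map_le_iff_le_comap.mpr (Submodule.span_le.mpr h4) h2

end Pool.Agent.UNK
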