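import Pool.Agent.UNK.St
import Pool.Agent.UNK.Sw

/-!
Project UNK (MP_e2be99_lc), module Hi.  Text: /team-store/unk_h34.md (section 8, H(i0)).
Definitions in `Pool/Agent/UNK/Defs.lean`.  Replace the `sorry`; keep the statements; helper lemmas private.

PLAN.
Induction on `Rs` (for all `μ q Z τ gam kap`).  `Rs = []`: `FF [] = 0`.  `R :: Rs`: `IH` for `Rs` (hypotheses inherited: `HH Rs u ≤ HH (R :: Rs) u`, so `UG (HH Rs) N v`; also
`UG (fun u => span (entries of R.A u)) N v`).  `star` with `IH` gives `hstar` of `sweep` for `Rs := R :: Rs`, `D := D1 w N μ q`, `L := R.L`.  `sweep` with `L' = R.L`, `L'' = []`: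
`GG (R::Rs) .. lam = GG .. (mix univ lam lam)` is a combination of the values `GG .. (jet e' v)` with `∑ e' ≤ D1 w N μ q ≤ Dg w N (Rs.length + 1) μ q` (evaluate the
functions at one point; `mix {u | u ∈ R.L} x y = x` as `R.L` contains everything): all 0 by `hG`.
-/

set_option autoImplicit false

namespace Pool.Agent.UNK

open MvPolynomial

universe u

open scoped Classical in
theorem hi {k : Type u} [Field k] [Infinite k] {V : Type} [Fintype V] [DecidableEq V] {w : ℕ}
    (v : V → k) (N : ℕ) (Rs : List (Row k V w)) (hR : ∀ R ∈ Rs, R.L.Nodup ∧ ∀ u, u ∈ R.L)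
    (hal : ∀ R ∈ Rs, Alive R.A R.L v) (hug : UG (HH Rs) N v) (μ q : ℕ) (Z : Set V) (τ : Type)
    [Fintype τ] (gam : τ → k) (kap : τ → GP k V) (hτ : Fintype.card τ ≤ μ)
    (hk : ∀ l, (Finset.univ.filter fun u => kap l u ≠ ev v u).card ≤ q)
    (hG : ∀ e : V → ℕ, ∑ u, e u ≤ Dg w N Rs.length μ q → GG Rs Z gam kap (jet e v) = 0)
    (lam : GP k V) : GG Rs Z gam kap lam = 0 := by
  induction Rs generalizing μ q Z τ lam with
  | nil => simp [GG, FF]
  | cons R Rs ih =>
    have hRR : R.L.Nodup ∧ ∀ u, u ∈ R.L := hR R List.mem_cons_self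
    have hR' : ∀ R' ∈ Rs, R'.L.Nodup ∧ ∀ u, u ∈ R'.L := fun R' h => hR R' (List.mem_cons_of_mem _ h)
    have hal' : ∀ R' ∈ Rs, Alive R'.A R'.L v := fun R' h => hal R' (List.mem_cons_of_mem _ h)
    have hug' : UG (HH Rs) N v := by
      intro u h hh hj
      refine hug u h ?_ hj
      refine Submodule.span_mono ?_ hh
      rintro x ⟨R', hR'm, p, r, rfl⟩
      exact ⟨R', List.mem_cons_of_mem _ hR'm, p, r, rfl⟩
    have hugR : UG (fun u => Submodule.span k {h | ∃ p q, h = R.A u p q}) N v := by
      intro u h hh hj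
      refine hug u h ?_ hj
      refine Submodule.span_mono ?_ hh
      rintro x ⟨p, r, rfl⟩
      exact ⟨R, List.mem_cons_self, p, r, rfl⟩
    have hst := star R Rs hRR v N (hal R List.mem_cons_self) hugR μ q
      (fun Z' τ' inst gam' kap' hτ' hk' hG' lam' =>
        @ih hR' hal' hug' _ _ Z' τ' inst gam' kap' hτ' hk' hG' lam') Z τ gam kap hτ hk hG
    have hsw := sweep (R :: Rs) hR v N hug Z τ gam kap (D1 w N μ q) R.L hRR.1 hst R.L [] (by simp)
      lam
    have hall : ∀ x y : GP k V, mix {u | u ∈ R.L} x y = x := by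
      intro x y
      funext u
      simp [mix, hRR.2 u]
    have hev : ∀ f ∈ Submodule.span k {f : GP k V → k | ∃ e' : V → ℕ, ∑ u, e' u ≤ D1 w N μ q ∧
          f = fun lam => GG (R :: Rs) Z gam kap (mix {u | u ∈ R.L} (jet e' v) lam)},
        f lam = 0 := by
      intro f hf
      induction hf using Submodule.span_induction with
      | mem x hx =>
        obtain ⟨e', he', rfl⟩ := hx
        simp only [hall]
        refine hG e' (he'.trans ?_)
        simp only [List.length_cons, Dg]
        omega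
      | zero => rfl
      | add x y _ _ hx hy => simp [hx, hy]
      | smul a x _ hx => simp [hx]
    have h0 := hev _ hsw
    simpa only [hall] using h0

end Pool.Agent.UNK
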