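import Pool.Agent.UNK.Rp

/-!
Project UNK (MP_e2be99_lc), module Jr.  Text: /team-store/unk_h34.md (section 6, replacing blocks by jets).
Definitions in `Pool/Agent/UNK/Defs.lean`.

PLAN.
Induction on `Bs` (for all `lam`).  Step `E :: Bs`: apply the induction hypothesis to `Bs` first: `e'`, supported on the blocks of `Bs`, and the
generalised point `lam' u = if ∃ E' ∈ Bs, u ∈ E' then jet e' v u else lam u`, nonzero value.  `lam' = ev a` on `E` (disjoint from the
`Bs`).  `L = X ++ E ++ Y`: `rp (tr g A) L lam' = rp .. X lam' * rp (tr g A) E (ev a) * rp .. Y lam'` and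
`rp (tr g A) E (ev a) = tp g (rp A E (ev a))`: `dot_mid` and `Good A D E v` give `e''` supported on `E`, `∑ e'' ≤ D`, nonzero value
with `jet e'' v` on `E`.  `e = e' + e''`.  Use `rp_congr`; `L` nodup so `X`, `E`, `Y` are disjoint.
-/

set_option autoImplicit false

namespace Pool.Agent.UNK

open MvPolynomial

universe u

private theorem jr_jet {k : Type u} [Field k] {V : Type} (e e' : V → ℕ) (v : V → k) (u : V)
    (h : e u = e' u) : jet e v u = jet e' v u := by
  unfold jet
  rw [h]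

theorem jr {k : Type u} [Field k] {V : Type} [Fintype V] [DecidableEq V] {w : ℕ}
    (A : V → Matrix (Fin w) (Fin w) (Polynomial k)) (D : ℕ) (v a : V → k) (L : List V)
    (hL : L.Nodup) (g : ℕ) (hg : g ≤ w) (Φ : Matrix (Fin g → Fin w) (Fin g → Fin w) k)
    (Bs : List (List V)) (lam : GP k V)
    (hB : ∀ E ∈ Bs, (∃ X Y, L = X ++ E ++ Y) ∧ Good A D E v)
    (hd : Bs.Pairwise List.Disjoint) (hlam : ∀ E ∈ Bs, ∀ u ∈ E, lam u = ev a u)
    (h : dot Φ (rp (tr g A) L lam) ≠ 0) :
    ∃ e : V → ℕ, (∀ u, (∀ E ∈ Bs, u ∉ E) → e u = 0) ∧ ∑ u, e u ≤ Bs.length * D ∧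
      dot Φ (rp (tr g A) L (mix {u | ∃ E ∈ Bs, u ∈ E} (jet e v) lam)) ≠ 0 := by
  induction Bs with
  | nil =>
    refine ⟨0, fun _ _ => rfl, by simp, ?_⟩
    have e1 : rp (tr g A) L (mix {u | ∃ E ∈ ([] : List (List V)), u ∈ E} (jet 0 v) lam) =
        rp (tr g A) L lam := by
      refine rp_congr _ L fun u _ => ?_
      unfold mix
      exact if_neg (by rintro ⟨E, hE, _⟩; exact absurd hE List.not_mem_nil)
    rw [e1]
    exact h
  | cons E Bs ih =>
    rw [List.pairwise_cons] at hd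
    obtain ⟨hd1, hd2⟩ := hd
    obtain ⟨e', h1, h2, h3⟩ := ih (fun E' hE' => hB E' (List.mem_cons_of_mem _ hE')) hd2
      (fun E' hE' => hlam E' (List.mem_cons_of_mem _ hE'))
    obtain ⟨⟨X, Y, hXY⟩, hG⟩ := hB E List.mem_cons_self
    have hEB : ∀ u ∈ E, ∀ E' ∈ Bs, u ∉ E' := fun u hu E' hE' hu' => hd1 E' hE' hu hu'
    have hnd : (X ++ E ++ Y).Nodup := hXY ▸ hL
    rw [List.nodup_append] at hnd
    obtain ⟨hXE, _, hY⟩ := hnd
    rw [List.nodup_append] at hXE
    obtain ⟨_, _, hX⟩ := hXE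
    have hX' : ∀ u ∈ X, u ∉ E := fun u hu hu' => hX u hu u hu' rfl
    have hY' : ∀ u ∈ Y, u ∉ E := fun u hu hu' =>
      hY u (List.mem_append_right _ hu') u hu rfl
    set lam' : GP k V := mix {u | ∃ E ∈ Bs, u ∈ E} (jet e' v) lam with hlam'
    have hE1 : rp (tr g A) E lam' = tp g (rp A E (ev a)) := by
      rw [← rp_tr]
      refine rp_congr _ E fun u hu => ?_
      have h4 : lam' u = lam u := by
        rw [hlam']
        unfold mix
        exact if_neg (by rintro ⟨E', hE', hu'⟩; exact hEB u hu E' hE' hu')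
      rw [h4]
      exact hlam E List.mem_cons_self u hu
    obtain ⟨Ψ, hΨ⟩ := dot_mid Φ (rp (tr g A) X lam') (rp (tr g A) Y lam')
    have h5 : dot Ψ (tp g (rp A E (ev a))) ≠ 0 := by
      rw [← hE1, ← hΨ, ← rp_append, ← rp_append, ← hXY]
      exact h3
    obtain ⟨e'', g1, g2, g3⟩ := hG g hg Ψ ⟨a, h5⟩
    refine ⟨fun u => e' u + e'' u, ?_, ?_, ?_⟩
    · intro u hu
      show e' u + e'' u = 0
      rw [h1 u fun E' hE' => hu E' (List.mem_cons_of_mem _ hE'), g1 u (hu E List.mem_cons_self)]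
    · rw [Finset.sum_add_distrib, List.length_cons, Nat.succ_mul]
      exact Nat.add_le_add h2 g2
    · have k1 : ∀ u ∈ E, mix {u | ∃ E' ∈ E :: Bs, u ∈ E'} (jet (fun u => e' u + e'' u) v) lam u =
          jet e'' v u := by
        intro u hu
        unfold mix
        rw [if_pos ⟨E, List.mem_cons_self, hu⟩]
        refine jr_jet _ _ v u ?_
        show e' u + e'' u = e'' u
        rw [h1 u fun E' hE' => hEB u hu E' hE', Nat.zero_add]
      have k2 : ∀ u, u ∉ E → mix {u | ∃ E' ∈ E :: Bs, u ∈ E'} (jet (fun u => e' u + e'' u) v) lam u =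
          lam' u := by
        intro u hu
        rw [hlam']
        unfold mix
        by_cases hc : u ∈ {u | ∃ E' ∈ Bs, u ∈ E'}
        · have hc' : u ∈ {u | ∃ E' ∈ E :: Bs, u ∈ E'} := by
            obtain ⟨E', hE', hu'⟩ := hc
            exact ⟨E', List.mem_cons_of_mem _ hE', hu'⟩
          rw [if_pos hc, if_pos hc']
          refine jr_jet _ _ v u ?_
          show e' u + e'' u = e' u
          rw [g1 u hu, Nat.add_zero]
        · have hc' : u ∉ {u | ∃ E' ∈ E :: Bs, u ∈ E'} := by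
            rintro ⟨E', hE', hu'⟩
            rcases List.mem_cons.1 hE' with h6 | h6
            · exact hu (h6 ▸ hu')
            · exact hc ⟨E', h6, hu'⟩
          rw [if_neg hc, if_neg hc']
      rw [hXY, rp_append, rp_append, rp_congr _ X fun u hu => k2 u (hX' u hu),
        rp_congr _ Y fun u hu => k2 u (hY' u hu), rp_congr _ E k1, hΨ]
      exact g3

end Pool.Agent.UNK
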