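import Pool.Agent.UNK.T0
import Pool.Agent.UNK.Tp

/-!
Project UNK (MP_e2be99_lc), module T1.  Text: /team-store/unk_h34.md (section 5, T1).
Definitions in `Pool/Agent/UNK/Defs.lean`.  Replace the `sorry`; keep the statements; helper lemmas private.

PLAN.
`t1`: `t = 0`: `S = ∅`.  Let `1 ≤ t`.  `D i = C i * R i` through `Fin ρ` (`fac_le`) for `i ≤ t`.  `B' i = R i * B i * C (i+1)` (`Fin ρ x Fin ρ`) is
invertible because `C i * B' i * R (i+1)` has rank at least `ρ`; so also `ρ ≤ card I`.  `E' i = R i * E i * C (i+1)`.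
`mcon D H t = C 0 * (∏_{i<t} (R i * H i * C (i+1))) * R t` (induction on `t`).  `G i = B' 0 * .. * B' (i-1)` (`G 0 = 1`), invertible;
`Z i = G i * E' i * (G (i+1))⁻¹ - 1`; the product of the `H' i` is `(∏ (if H i = E i then 1 + Z i else 1)) * G t`, as
`G i * B' i * (G (i+1))⁻¹ = 1`.  Apply `t0` over `Fin ρ` to `Ψ X = dot Φ (C 0 * X * G t * R t)`.
`t1tp`: `tp g (mcon D H t) = mcon (tp g ∘ D) (tp g ∘ H) t` (`tp_mul`), `rk_le_tp`, `rk_ge_tp`, and `t1` over `Fin g → Fin w` with
`ρ = r ^ g`.
-/

set_option autoImplicit false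

namespace Pool.Agent.UNK

open MvPolynomial

universe u

section

variable {k : Type u} [Field k]

private theorem T1_mcon {I : Type} [Fintype I] {ρ : ℕ} (t : ℕ) (D : ℕ → Matrix I I k)
    (C : ℕ → Matrix I (Fin ρ) k) (R : ℕ → Matrix (Fin ρ) I k) (hCR : ∀ i ≤ t, D i = C i * R i)
    (H : ℕ → Matrix I I k) : ∀ s ≤ t, mcon D H s =
      C 0 * ((List.range s).map fun i => R i * H i * C (i + 1)).prod * R s := by
  intro s
  induction s with
  | zero =>
      intro h
      rw [List.range_zero, List.map_nil, List.prod_nil, Matrix.mul_one]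
      exact hCR 0 h
  | succ s ih =>
      intro h
      have h1 : mcon D H (s + 1) = mcon D H s * H s * D (s + 1) := rfl
      rw [h1, ih (by omega), hCR (s + 1) h, List.range_succ, List.map_append, List.prod_append,
        List.map_singleton, List.prod_singleton]
      simp only [Matrix.mul_assoc]

private theorem T1_unit {ρ : ℕ} {M : Matrix (Fin ρ) (Fin ρ) k} (h : ρ ≤ M.rank) :
    IsUnit M.det := by
  obtain ⟨U, W, h1⟩ := fac_ge h
  have h2 := congrArg Matrix.det h1
  rw [Matrix.det_mul, Matrix.det_mul, Matrix.det_one] at h2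
  rw [isUnit_iff_ne_zero]
  intro h3
  rw [h3, mul_zero, zero_mul] at h2
  exact zero_ne_one h2

private theorem T1_dot_add {I : Type} [Fintype I] (Φ M N : Matrix I I k) :
    dot Φ (M + N) = dot Φ M + dot Φ N := by
  unfold dot
  simp only [Matrix.add_apply, mul_add, Finset.sum_add_distrib]

private theorem T1_dot_smul {I : Type} [Fintype I] (Φ M : Matrix I I k) (c : k) :
    dot Φ (c • M) = c * dot Φ M := by
  unfold dot
  simp only [Matrix.smul_apply, smul_eq_mul, Finset.mul_sum]
  refine Finset.sum_congr rfl fun p _ => Finset.sum_congr rfl fun q _ => ?_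
  ring

/-- the functional `X ↦ dot Φ (C * X * G * R)` -/
private noncomputable def T1_psi {I : Type} [Fintype I] {ρ : ℕ} (Φ : Matrix I I k)
    (C : Matrix I (Fin ρ) k) (G : Matrix (Fin ρ) (Fin ρ) k) (R : Matrix (Fin ρ) I k) :
    Matrix (Fin ρ) (Fin ρ) k →ₗ[k] k where
  toFun X := dot Φ (C * (X * G) * R)
  map_add' X Y := by
    rw [Matrix.add_mul, Matrix.mul_add, Matrix.add_mul, T1_dot_add]
  map_smul' c X := by
    rw [Matrix.smul_mul, Matrix.mul_smul, Matrix.smul_mul, T1_dot_smul]
    rfl

open scoped Classical in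
private theorem T1_prod {ρ : ℕ} (t : ℕ) (B E G Z : ℕ → Matrix (Fin ρ) (Fin ρ) k)
    (hG0 : G 0 = 1) (hG : ∀ i < t, G (i + 1) = G i * B i)
    (hu : ∀ i ≤ t, IsUnit (G i).det) (hZ : ∀ i, Z i = G i * E i * (G (i + 1))⁻¹ - 1)
    (S : Finset ℕ) : ∀ s ≤ t,
      ((List.range s).map fun i => if i ∈ S then E i else B i).prod =
        ((List.range s).map fun i => if i ∈ S then 1 + Z i else 1).prod * G s := by
  intro s
  induction s with
  | zero =>
      intro _
      rw [List.range_zero, List.map_nil, List.map_nil, List.prod_nil, hG0, one_mul]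
  | succ s ih =>
      intro h
      rw [List.range_succ, List.map_append, List.prod_append, List.map_append, List.prod_append,
        ih (by omega), List.map_singleton, List.prod_singleton, List.map_singleton,
        List.prod_singleton, mul_assoc, mul_assoc]
      congr 1
      by_cases hs : s ∈ S
      · rw [if_pos hs, if_pos hs, hZ, add_sub_cancel, Matrix.mul_assoc,
          Matrix.nonsing_inv_mul _ (hu (s + 1) h), Matrix.mul_one]
      · rw [if_neg hs, if_neg hs, one_mul, hG s (by omega)]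

open scoped Classical in
theorem t1 {I : Type} [Fintype I] [DecidableEq I] (ρ t : ℕ) (D B E : ℕ → Matrix I I k)
    (Φ : Matrix I I k) (hD : ∀ i ≤ t, (D i).rank ≤ ρ)
    (hB : ∀ i < t, ρ ≤ (D i * B i * D (i + 1)).rank) (h : dot Φ (mcon D E t) ≠ 0) :
    ∃ S : Finset ℕ, S ⊆ Finset.range t ∧ S.card ≤ Fintype.card I ^ 2 ∧
      dot Φ (mcon D (fun i => if i ∈ S then E i else B i) t) ≠ 0 := by
  rcases Nat.eq_zero_or_pos t with ht | ht
  · subst ht
    exact ⟨∅, Finset.empty_subset _, by simp, h⟩
  have hρ : ρ ≤ Fintype.card I := (hB 0 ht).trans (Matrix.rank_le_card_width _)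
  have hex : ∀ i, ∃ (CR : Matrix I (Fin ρ) k × Matrix (Fin ρ) I k), i ≤ t → D i = CR.1 * CR.2 := by
    intro i
    by_cases hi : i ≤ t
    · obtain ⟨C, R, h1⟩ := fac_le (hD i hi)
      exact ⟨(C, R), fun _ => h1⟩
    · exact ⟨(0, 0), fun h1 => absurd h1 hi⟩
  choose CR hCR using hex
  have hu0 : ∀ i < t, IsUnit ((CR i).2 * B i * (CR (i + 1)).1).det := by
    intro i hi
    refine T1_unit ((hB i hi).trans ?_)
    have h1 : D i * B i * D (i + 1) =
        (CR i).1 * ((CR i).2 * B i * (CR (i + 1)).1) * (CR (i + 1)).2 := by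
      rw [hCR i (by omega), hCR (i + 1) (by omega)]
      simp only [Matrix.mul_assoc]
    rw [h1]
    exact (Matrix.rank_mul_le_left _ _).trans (Matrix.rank_mul_le_right _ _)
  obtain ⟨G, hGd⟩ : ∃ G : ℕ → Matrix (Fin ρ) (Fin ρ) k, ∀ i, G i =
      ((List.range i).map fun i => (CR i).2 * B i * (CR (i + 1)).1).prod := ⟨_, fun _ => rfl⟩
  have hG0 : G 0 = 1 := by rw [hGd, List.range_zero, List.map_nil, List.prod_nil]
  have hG : ∀ i, G (i + 1) = G i * ((CR i).2 * B i * (CR (i + 1)).1) := by
    intro i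
    rw [hGd, hGd, List.range_succ, List.map_append, List.prod_append, List.map_singleton,
      List.prod_singleton]
  have hu : ∀ i ≤ t, IsUnit (G i).det := by
    intro i
    induction i with
    | zero => intro _; rw [hG0, Matrix.det_one]; exact isUnit_one
    | succ i ih =>
        intro hi
        rw [hG, Matrix.det_mul]
        exact (ih (by omega)).mul (hu0 i (by omega))
  obtain ⟨Z, hZ⟩ : ∃ Z : ℕ → Matrix (Fin ρ) (Fin ρ) k, ∀ i,
      Z i = G i * ((CR i).2 * E i * (CR (i + 1)).1) * (G (i + 1))⁻¹ - 1 := ⟨_, fun _ => rfl⟩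
  have key : ∀ S : Finset ℕ, dot Φ (mcon D (fun i => if i ∈ S then E i else B i) t) =
      T1_psi Φ (CR 0).1 (G t) (CR t).2
        ((List.range t).map fun i => if i ∈ S then 1 + Z i else 1).prod := by
    intro S
    have h1 := T1_prod t (fun i => (CR i).2 * B i * (CR (i + 1)).1)
      (fun i => (CR i).2 * E i * (CR (i + 1)).1) G Z hG0 (fun i _ => hG i) hu hZ S t le_rfl
    rw [T1_mcon t D (fun i => (CR i).1) (fun i => (CR i).2) hCR _ t le_rfl]
    show _ = dot Φ ((CR 0).1 * (_ * G t) * (CR t).2)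
    rw [← h1]
    have h2 : ((List.range t).map fun i => (CR i).2 * (if i ∈ S then E i else B i) *
        (CR (i + 1)).1) = (List.range t).map fun i => if i ∈ S then
          (CR i).2 * E i * (CR (i + 1)).1 else (CR i).2 * B i * (CR (i + 1)).1 := by
      refine List.map_congr_left fun i _ => ?_
      by_cases hi : i ∈ S
      · rw [if_pos hi, if_pos hi]
      · rw [if_neg hi, if_neg hi]
    rw [h2]
  have hall : ∀ (α : Type u) (X Y : ℕ → α), ((List.range t).map fun i =>
      if i ∈ Finset.range t then X i else Y i) = (List.range t).map X := by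
    intro α X Y
    refine List.map_congr_left fun i hi => ?_
    rw [if_pos (Finset.mem_range.2 (List.mem_range.1 hi))]
  have h3 := key (Finset.range t)
  rw [hall] at h3
  have h4 : mcon D (fun i => if i ∈ Finset.range t then E i else B i) t = mcon D E t := by
    have h5 : ∀ s ≤ t, mcon D (fun i => if i ∈ Finset.range t then E i else B i) s =
        mcon D E s := by
      intro s
      induction s with
      | zero => intro _; rfl
      | succ s ih =>
          intro hs
          show mcon D _ s * (if s ∈ Finset.range t then E s else B s) * D (s + 1) =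
            mcon D E s * E s * D (s + 1)
          rw [ih (by omega), if_pos (Finset.mem_range.2 (by omega))]
    exact h5 t le_rfl
  rw [h4] at h3
  rw [h3] at h
  obtain ⟨S, hS1, hS2, hS3⟩ := t0 Z t (T1_psi Φ (CR 0).1 (G t) (CR t).2) h
  refine ⟨S, hS1, hS2.trans ?_, ?_⟩
  · rw [Fintype.card_fin]
    exact Nat.pow_le_pow_left hρ 2
  · rw [key S]
    exact hS3

private theorem T1_tp {w : ℕ} (g : ℕ) (D H : ℕ → Matrix (Fin w) (Fin w) k) (t : ℕ) :
    tp g (mcon D H t) = mcon (fun i => tp g (D i)) (fun i => tp g (H i)) t := by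
  induction t with
  | zero => rfl
  | succ t ih =>
      show tp g (mcon D H t * H t * D (t + 1)) =
        mcon (fun i => tp g (D i)) (fun i => tp g (H i)) t * tp g (H t) * tp g (D (t + 1))
      rw [tp_mul, tp_mul, ih]

open scoped Classical in
theorem t1tp {w : ℕ} (g r t : ℕ) (D B E : ℕ → Matrix (Fin w) (Fin w) k)
    (Φ : Matrix (Fin g → Fin w) (Fin g → Fin w) k) (hD : ∀ i ≤ t, (D i).rank ≤ r)
    (hB : ∀ i < t, r ≤ (D i * B i * D (i + 1)).rank) (h : dot Φ (tp g (mcon D E t)) ≠ 0) :
    ∃ S : Finset ℕ, S ⊆ Finset.range t ∧ S.card ≤ (w ^ g) ^ 2 ∧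
      dot Φ (tp g (mcon D (fun i => if i ∈ S then E i else B i) t)) ≠ 0 := by
  rw [T1_tp] at h
  obtain ⟨S, h1, h2, h3⟩ := t1 (r ^ g) t (fun i => tp g (D i)) (fun i => tp g (B i))
    (fun i => tp g (E i)) Φ (fun i hi => rk_le_tp g (hD i hi))
    (fun i hi => by
      rw [← tp_mul, ← tp_mul]
      exact rk_ge_tp g (hB i hi)) h
  refine ⟨S, h1, ?_, ?_⟩
  · rwa [Fintype.card_fun, Fintype.card_fin, Fintype.card_fin] at h2
  · rw [T1_tp]
    have h4 : (fun i => tp g (if i ∈ S then E i else B i)) =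
        fun i => if i ∈ S then tp g (E i) else tp g (B i) := by
      funext i
      by_cases hi : i ∈ S
      · rw [if_pos hi, if_pos hi]
      · rw [if_neg hi, if_neg hi]
    rw [h4]
    exact h3

end

end Pool.Agent.UNK
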