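import Pool.Agent.UNK.Jr
import Pool.Agent.UNK.T1

/-!
Project UNK (MP_e2be99_lc), module Lq.  Text: /team-store/unk_h34.md (section 6, common part of steps 2 and 3).
Definitions in `Pool/Agent/UNK/Defs.lean`.

The value at the point `a` is a functional of the product over the blocks in the middle, so by `t1tp` all blocks `E i` except at most `D` can be
moved to the point `v`; the remaining blocks and the two ends are replaced by jets (`jr`).
-/

set_option autoImplicit false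

namespace Pool.Agent.UNK

open MvPolynomial

universe u

private theorem Lq_mem {α : Type} (O E : ℕ → List α) (u : α) (t : ℕ) :
    u ∈ con O E t ↔ (∃ i ≤ t, u ∈ O i) ∨ ∃ i < t, u ∈ E i := by
  induction t with
  | zero =>
    constructor
    · intro h
      exact Or.inl ⟨0, le_rfl, h⟩
    · rintro (⟨i, hi, h⟩ | ⟨i, hi, h⟩)
      · rw [Nat.le_zero.1 hi] at h
        exact h
      · exact absurd hi (Nat.not_lt_zero i)
  | succ t ih =>
    show u ∈ con O E t ++ E t ++ O (t + 1) ↔ _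
    rw [List.mem_append, List.mem_append, ih]
    constructor
    · rintro ((h | h) | h)
      · rcases h with ⟨i, hi, h⟩ | ⟨i, hi, h⟩
        · exact Or.inl ⟨i, by omega, h⟩
        · exact Or.inr ⟨i, by omega, h⟩
      · exact Or.inr ⟨t, by omega, h⟩
      · exact Or.inl ⟨t + 1, le_rfl, h⟩
    · rintro (⟨i, hi, h⟩ | ⟨i, hi, h⟩)
      · rcases Nat.lt_or_ge i (t + 1) with h1 | h1
        · exact Or.inl (Or.inl (Or.inl ⟨i, by omega, h⟩))
        · have h2 : i = t + 1 := by omega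
          rw [h2] at h
          exact Or.inr h
      · rcases Nat.lt_or_ge i t with h1 | h1
        · exact Or.inl (Or.inl (Or.inr ⟨i, h1, h⟩))
        · have h2 : i = t := by omega
          rw [h2] at h
          exact Or.inl (Or.inr h)

private theorem Lq_disj {α : Type} (O E : ℕ → List α) (t : ℕ) (h : (con O E t).Nodup) :
    (∀ u, ∀ i ≤ t, ∀ j < t, u ∈ O i → u ∉ E j) ∧
      (∀ u, ∀ i < t, ∀ j < t, u ∈ E i → u ∈ E j → i = j) := by
  induction t with
  | zero =>
    exact ⟨fun _ _ _ j hj => absurd hj (Nat.not_lt_zero j), fun _ i hi => absurd hi (Nat.not_lt_zero i)⟩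
  | succ t ih =>
    have h0 : (con O E t ++ E t ++ O (t + 1)).Nodup := h
    obtain ⟨h1, -, h2⟩ := List.nodup_append'.1 h0
    obtain ⟨h3, -, h4⟩ := List.nodup_append'.1 h1
    obtain ⟨ih1, ih2⟩ := ih h3
    have h5 : ∀ u, ∀ j < t + 1, u ∈ E j → u ∈ con O E t ++ E t := by
      intro u j hj hu
      rw [List.mem_append]
      rcases Nat.lt_or_ge j t with hj' | hj'
      · exact Or.inl ((Lq_mem O E u t).2 (Or.inr ⟨j, hj', hu⟩))
      · have h6 : j = t := by omega
        rw [h6] at hu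
        exact Or.inr hu
    constructor
    · intro u i hi j hj hu hu'
      rcases Nat.lt_or_ge i (t + 1) with hi' | hi'
      · rcases Nat.lt_or_ge j t with hj' | hj'
        · exact ih1 u i (by omega) j hj' hu hu'
        · have h6 : j = t := by omega
          rw [h6] at hu'
          exact h4 ((Lq_mem O E u t).2 (Or.inl ⟨i, by omega, hu⟩)) hu'
      · have h6 : i = t + 1 := by omega
        rw [h6] at hu
        exact h2 (h5 u j hj hu') hu
    · intro u i hi j hj hu hu'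
      rcases Nat.lt_or_ge i t with hi' | hi'
      · rcases Nat.lt_or_ge j t with hj' | hj'
        · exact ih2 u i hi' j hj' hu hu'
        · have h6 : j = t := by omega
          rw [h6] at hu'
          exact absurd hu' (h4 ((Lq_mem O E u t).2 (Or.inr ⟨i, hi', hu⟩)))
      · have h6 : i = t := by omega
        rw [h6] at hu
        rcases Nat.lt_or_ge j t with hj' | hj'
        · exact absurd hu (h4 ((Lq_mem O E u t).2 (Or.inr ⟨j, hj', hu'⟩)))
        · omega

private theorem Lq_split {α : Type} (O E : ℕ → List α) (t : ℕ) :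
    ∀ i < t, ∃ X Y, con O E t = X ++ E i ++ Y := by
  induction t with
  | zero => exact fun i hi => absurd hi (Nat.not_lt_zero i)
  | succ t ih =>
    intro i hi
    rcases Nat.lt_or_ge i t with h | h
    · obtain ⟨X, Y, h1⟩ := ih i h
      refine ⟨X, Y ++ (E t ++ O (t + 1)), ?_⟩
      show con O E t ++ E t ++ O (t + 1) = _
      rw [h1]
      simp only [List.append_assoc]
    · have h1 : i = t := by omega
      rw [h1]
      exact ⟨con O E t, O (t + 1), rfl⟩

private theorem Lq_mcon {R : Type u} [Mul R] {D H D' H' : ℕ → R} (t : ℕ) (hD : ∀ i ≤ t, D i = D' i)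
    (hH : ∀ i < t, H i = H' i) : mcon D H t = mcon D' H' t := by
  induction t with
  | zero => exact hD 0 le_rfl
  | succ t ih =>
    show mcon D H t * H t * D (t + 1) = mcon D' H' t * H' t * D' (t + 1)
    rw [ih (fun i hi => hD i (by omega)) (fun i hi => hH i (by omega)), hD (t + 1) le_rfl, hH t (by omega)]

private theorem Lq_rp {k : Type u} [Field k] {V : Type} {w : ℕ}
    (A : V → Matrix (Fin w) (Fin w) (Polynomial k)) (O E : ℕ → List V) (Xl Yl : List V) (t g : ℕ) (b : V → k) :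
    tp g (rp A (Xl ++ con O E t ++ Yl) (ev b)) = tp g (rp A Xl (ev b)) *
      tp g (mcon (fun i => rp A (O i) (ev b)) (fun i => rp A (E i) (ev b)) t) * tp g (rp A Yl (ev b)) := by
  rw [rp_append, rp_append, rp_con, tp_mul, tp_mul]

theorem lemQ {k : Type u} [Field k] {V : Type} [Fintype V] [DecidableEq V] {w : ℕ}
    (A : V → Matrix (Fin w) (Fin w) (Polynomial k)) (D r t : ℕ) (hD : ∀ g ≤ w, (w ^ g) ^ 2 ≤ D)
    (O E : ℕ → List V) (Xl Yl L : List V) (hL : L = Xl ++ con O E t ++ Yl) (hnd : L.Nodup)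
    (v a : V → k) (hX : Good A D Xl v) (hY : Good A D Yl v) (hE : ∀ i < t, Good A D (E i) v)
    (hO : ∀ i ≤ t, (rp A (O i) (ev a)).rank ≤ r)
    (hB : ∀ i < t, r ≤ (rp A (O i) (ev a) * rp A (E i) (ev v) * rp A (O (i + 1)) (ev a)).rank)
    (g : ℕ) (hg : g ≤ w) (Φ : Matrix (Fin g → Fin w) (Fin g → Fin w) k)
    (h : dot Φ (tp g (rp A L (ev a))) ≠ 0) :
    ∃ e : V → ℕ, (∀ u, (∃ i ≤ t, u ∈ O i) → e u = 0) ∧ ∑ u, e u ≤ (D + 2) * D ∧
      dot Φ (rp (tr g A) L (mix {u | ∃ i ≤ t, u ∈ O i} (ev a) (jet e v))) ≠ 0 := by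
  classical
  -- disjointness
  have hnd' : (Xl ++ con O E t ++ Yl).Nodup := by
    rw [← hL]
    exact hnd
  obtain ⟨n1, -, n2⟩ := List.nodup_append'.1 hnd'
  obtain ⟨-, n3, n4⟩ := List.nodup_append'.1 n1
  obtain ⟨d1, d2⟩ := Lq_disj O E t n3
  have cO : ∀ u, ∀ i ≤ t, u ∈ O i → u ∈ con O E t := fun u i hi hu => (Lq_mem O E u t).2 (Or.inl ⟨i, hi, hu⟩)
  have cE : ∀ u, ∀ i < t, u ∈ E i → u ∈ con O E t := fun u i hi hu => (Lq_mem O E u t).2 (Or.inr ⟨i, hi, hu⟩)
  have xc : ∀ u, u ∈ Xl → u ∉ con O E t := fun u h1 h2 => n4 h1 h2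
  have xy : ∀ u, u ∈ Xl → u ∉ Yl := fun u h1 h2 => n2 (List.mem_append_left _ h1) h2
  have yc : ∀ u, u ∈ Yl → u ∉ con O E t := fun u h1 h2 => n2 (List.mem_append_right _ h2) h1
  -- the functional of the middle part
  obtain ⟨Ψ, hΨ⟩ := dot_mid Φ (tp g (rp A Xl (ev a))) (tp g (rp A Yl (ev a)))
  have h1 : dot Ψ (tp g (mcon (fun i => rp A (O i) (ev a)) (fun i => rp A (E i) (ev a)) t)) ≠ 0 := by
    rw [← hΨ, ← Lq_rp, ← hL]
    exact h
  obtain ⟨S, hS1, hS2, hS3⟩ := t1tp g r t (fun i => rp A (O i) (ev a)) (fun i => rp A (E i) (ev v))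
    (fun i => rp A (E i) (ev a)) Ψ hO hB h1
  have hSt : ∀ i ∈ S, i < t := fun i hi => Finset.mem_range.1 (hS1 hi)
  -- the point
  obtain ⟨T, hT⟩ : ∃ T : Set V, T = {u | ∃ i < t, i ∉ S ∧ u ∈ E i} := ⟨_, rfl⟩
  have tT : ∀ u, u ∈ T ↔ ∃ i < t, i ∉ S ∧ u ∈ E i := fun u => by
    rw [hT]
    rfl
  obtain ⟨b, hb⟩ : ∃ b : V → k, b = fun u => if u ∈ T then v u else a u := ⟨_, rfl⟩
  have bT : ∀ u, u ∈ T → b u = v u := fun u hu => by
    rw [hb]
    exact if_pos hu
  have bN : ∀ u, u ∉ T → b u = a u := fun u hu => by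
    rw [hb]
    exact if_neg hu
  have eT : ∀ u, u ∈ T → ev b u = ev v u := fun u hu => by
    unfold ev
    rw [bT u hu]
  have eN : ∀ u, u ∉ T → ev b u = ev a u := fun u hu => by
    unfold ev
    rw [bN u hu]
  have xT : ∀ u ∈ Xl, u ∉ T := fun u hu hu' => by
    obtain ⟨i, hi, -, h2⟩ := (tT u).1 hu'
    exact xc u hu (cE u i hi h2)
  have yT : ∀ u ∈ Yl, u ∉ T := fun u hu hu' => by
    obtain ⟨i, hi, -, h2⟩ := (tT u).1 hu'
    exact yc u hu (cE u i hi h2)
  have oT : ∀ i ≤ t, ∀ u ∈ O i, u ∉ T := fun i hi u hu hu' => by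
    obtain ⟨j, hj, -, h2⟩ := (tT u).1 hu'
    exact d1 u i hi j hj hu h2
  have sT : ∀ i ∈ S, ∀ u ∈ E i, u ∉ T := fun i hi u hu hu' => by
    obtain ⟨j, hj, h3, h2⟩ := (tT u).1 hu'
    have h4 := d2 u i (hSt i hi) j hj hu h2
    rw [← h4] at h3
    exact h3 hi
  have h2 : dot Φ (rp (tr g A) L (ev b)) ≠ 0 := by
    rw [rp_tr, hL, Lq_rp, rp_congr A Xl (fun u hu => eN u (xT u hu)), rp_congr A Yl (fun u hu => eN u (yT u hu)), hΨ]
    have e1 : mcon (fun i => rp A (O i) (ev b)) (fun i => rp A (E i) (ev b)) t =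
        mcon (fun i => rp A (O i) (ev a)) (fun i => if i ∈ S then rp A (E i) (ev a) else rp A (E i) (ev v)) t := by
      refine Lq_mcon t (fun i hi => rp_congr A _ fun u hu => eN u (oT i hi u hu)) fun i hi => ?_
      show rp A (E i) (ev b) = if i ∈ S then rp A (E i) (ev a) else rp A (E i) (ev v)
      by_cases hiS : i ∈ S
      · rw [if_pos hiS]
        exact rp_congr A _ fun u hu => eN u (sT i hiS u hu)
      · rw [if_neg hiS]
        exact rp_congr A _ fun u hu => eT u ((tT u).2 ⟨i, hi, hiS, hu⟩)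
    rw [e1]
    exact hS3
  -- jets on the blocks
  obtain ⟨Bs, hBs⟩ : ∃ Bs : List (List V), Bs = Xl :: Yl :: (S.toList.map E) := ⟨_, rfl⟩
  have mB : ∀ F, F ∈ Bs ↔ F = Xl ∨ F = Yl ∨ ∃ i ∈ S, F = E i := by
    intro F
    rw [hBs, List.mem_cons, List.mem_cons, List.mem_map]
    constructor
    · rintro (h3 | h3 | ⟨i, hi, h3⟩)
      · exact Or.inl h3
      · exact Or.inr (Or.inl h3)
      · exact Or.inr (Or.inr ⟨i, Finset.mem_toList.1 hi, h3.symm⟩)
    · rintro (h3 | h3 | ⟨i, hi, h3⟩)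
      · exact Or.inl h3
      · exact Or.inr (Or.inl h3)
      · exact Or.inr (Or.inr ⟨i, Finset.mem_toList.2 hi, h3.symm⟩)
  have hlen : Bs.length ≤ D + 2 := by
    rw [hBs, List.length_cons, List.length_cons, List.length_map, Finset.length_toList]
    have := hS2.trans (hD g hg)
    omega
  have hdis : Bs.Pairwise List.Disjoint := by
    rw [hBs, List.pairwise_cons, List.pairwise_cons, List.pairwise_map]
    refine ⟨?_, ?_, ?_⟩
    · intro F hF u hu hu'
      rw [List.mem_cons, List.mem_map] at hF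
      rcases hF with h3 | ⟨i, hi, h3⟩
      · rw [h3] at hu'
        exact xy u hu hu'
      · rw [← h3] at hu'
        exact xc u hu (cE u i (hSt i (Finset.mem_toList.1 hi)) hu')
    · intro F hF u hu hu'
      rw [List.mem_map] at hF
      obtain ⟨i, hi, h3⟩ := hF
      rw [← h3] at hu'
      exact yc u hu (cE u i (hSt i (Finset.mem_toList.1 hi)) hu')
    · have h3 : S.toList.Nodup := Finset.nodup_toList S
      refine h3.imp_of_mem ?_
      intro i j hi hj hij u hu hu'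
      exact hij (d2 u i (hSt i (Finset.mem_toList.1 hi)) j (hSt j (Finset.mem_toList.1 hj)) hu hu')
  have hgood : ∀ F ∈ Bs, (∃ X Y, L = X ++ F ++ Y) ∧ Good A D F v := by
    intro F hF
    rcases (mB F).1 hF with h3 | h3 | ⟨i, hi, h3⟩
    · rw [h3]
      refine ⟨⟨[], con O E t ++ Yl, ?_⟩, hX⟩
      rw [hL, List.nil_append, List.append_assoc]
    · rw [h3]
      refine ⟨⟨Xl ++ con O E t, [], ?_⟩, hY⟩
      rw [hL, List.append_nil]
    · rw [h3]
      obtain ⟨X, Y, h4⟩ := Lq_split O E t i (hSt i hi)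
      refine ⟨⟨Xl ++ X, Y ++ Yl, ?_⟩, hE i (hSt i hi)⟩
      rw [hL, h4]
      simp only [List.append_assoc]
  have hlam : ∀ F ∈ Bs, ∀ u ∈ F, ev b u = ev a u := by
    intro F hF u hu
    rcases (mB F).1 hF with h3 | h3 | ⟨i, hi, h3⟩
    · rw [h3] at hu
      exact eN u (xT u hu)
    · rw [h3] at hu
      exact eN u (yT u hu)
    · rw [h3] at hu
      exact eN u (sT i hi u hu)
  obtain ⟨e, he1, he2, he3⟩ := jr A D v a L hnd g hg Φ Bs (ev b) hgood hdis hlam h2
  have oB : ∀ u, (∃ i ≤ t, u ∈ O i) → ∀ F ∈ Bs, u ∉ F := by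
    rintro u ⟨i, hi, hu⟩ F hF hu'
    rcases (mB F).1 hF with h3 | h3 | ⟨j, hj, h3⟩
    · rw [h3] at hu'
      exact xc u hu' (cO u i hi hu)
    · rw [h3] at hu'
      exact yc u hu' (cO u i hi hu)
    · rw [h3] at hu'
      exact d1 u i hi j (hSt j hj) hu hu'
  refine ⟨e, fun u hu => he1 u (oB u hu), he2.trans (Nat.mul_le_mul_right D hlen), ?_⟩
  have e2 : rp (tr g A) L (mix {u | ∃ i ≤ t, u ∈ O i} (ev a) (jet e v)) =
      rp (tr g A) L (mix {u | ∃ E ∈ Bs, u ∈ E} (jet e v) (ev b)) := by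
    refine rp_congr (tr g A) L fun u hu => ?_
    by_cases h3 : ∃ i ≤ t, u ∈ O i
    · have h4 : ¬ ∃ F ∈ Bs, u ∈ F := by
        rintro ⟨F, hF, hu'⟩
        exact oB u h3 F hF hu'
      have e3 : mix {u | ∃ i ≤ t, u ∈ O i} (ev a) (jet e v) u = ev a u := if_pos h3
      have e4 : mix {u | ∃ E ∈ Bs, u ∈ E} (jet e v) (ev b) u = ev b u := if_neg h4
      rw [e3, e4]
      obtain ⟨i, hi, h5⟩ := h3
      exact (eN u (oT i hi u h5)).symm
    · have e3 : mix {u | ∃ i ≤ t, u ∈ O i} (ev a) (jet e v) u = jet e v u := if_neg h3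
      rw [e3]
      by_cases h4 : ∃ F ∈ Bs, u ∈ F
      · have e4 : mix {u | ∃ E ∈ Bs, u ∈ E} (jet e v) (ev b) u = jet e v u := if_pos h4
        rw [e4]
      · have e4 : mix {u | ∃ E ∈ Bs, u ∈ E} (jet e v) (ev b) u = ev b u := if_neg h4
        rw [e4]
        have h5 : e u = 0 := he1 u fun F hF hu' => h4 ⟨F, hF, hu'⟩
        have h6 : jet e v u = ev v u := by
          unfold jet ev
          rw [h5, pow_zero]
          rfl
        rw [h6]
        symm
        apply eT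
        rw [hL, List.mem_append, List.mem_append, Lq_mem] at hu
        rcases hu with (h7 | h7 | ⟨i, hi, h7⟩) | h7
        · exact absurd ⟨Xl, (mB Xl).2 (Or.inl rfl), h7⟩ h4
        · exact absurd h7 h3
        · refine (tT u).2 ⟨i, hi, fun hiS => ?_, h7⟩
          exact h4 ⟨E i, (mB (E i)).2 (Or.inr (Or.inr ⟨i, hiS, rfl⟩)), h7⟩
        · exact absurd ⟨Yl, (mB Yl).2 (Or.inr (Or.inl rfl)), h7⟩ h4
  rw [e2]
  exact he3

end Pool.Agent.UNK
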