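import Pool.Agent.UNK.Dl

/-!
Project UNK (MP_e2be99_lc), module Oa.  Text: /team-store/unk_h34.md (section 3, Lemma O: stability).
Definitions in `Pool/Agent/UNK/Defs.lean`.  Helper lemmas private.

PLAN.
* `eval_gv`: `eval θ` of `aeval (gv k wt K) f` is `f` at `vp wt K θ`.
* `chain`: chain rule; both sides are additive and satisfy the product rule: `MvPolynomial.induction_on` (or `Derivation`s that agree on
  the variables).
* `stab`: apply `pderiv j` to `∑ i, φ i * aeval gv (dd l (M i)) = 0` for `l.length ≤ q`; the terms with `pderiv j` on the second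
  factor are, by `chain`, `∑ u, pderiv j (gv u) * ∑ i, φ i * aeval gv (dd (u :: l) (M i))`, and `(u :: l).length ≤ q + 1`.
-/

set_option autoImplicit false

namespace Pool.Agent.UNK

open MvPolynomial

universe u

section

variable {k : Type u} [Field k] {V : Type} [Fintype V] [DecidableEq V]

theorem eval_gv (wt : V → ℕ) (K : ℕ) (θ : Fin K ⊕ Fin K → k) (f : MvPolynomial V k) :
    eval θ (aeval (gv k wt K) f) = eval (vp wt K θ) f := by
  induction f using MvPolynomial.induction_on with
  | C a => simp [aeval_C, algebraMap_eq]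
  | add p q hp hq => rw [map_add, map_add, hp, hq, map_add]
  | mul_X p i hp =>
    rw [map_mul, map_mul, hp, map_mul, aeval_X, eval_X]
    congr 1
    simp [gv, vp, map_sum]

theorem chain {σ : Type} (G : V → MvPolynomial σ k) (f : MvPolynomial V k) (j : σ) :
    pderiv j (aeval G f) = ∑ u, pderiv j (G u) * aeval G (pderiv u f) := by
  induction f using MvPolynomial.induction_on with
  | C a => simp [aeval_C, algebraMap_eq]
  | add p q hp hq =>
    rw [map_add, map_add, hp, hq, ← Finset.sum_add_distrib]
    refine Finset.sum_congr rfl fun u _ => ?_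
    rw [map_add, map_add, mul_add]
  | mul_X p i hp =>
    rw [map_mul, aeval_X, Derivation.leibniz, hp, smul_eq_mul, smul_eq_mul]
    have h : ∀ u, pderiv j (G u) * aeval G (pderiv u (p * X i)) =
        (if u = i then pderiv j (G i) * aeval G p else 0) +
          G i * (pderiv j (G u) * aeval G (pderiv u p)) := by
      intro u
      rw [Derivation.leibniz, smul_eq_mul, smul_eq_mul, pderiv_X, map_add, map_mul, map_mul, aeval_X]
      by_cases hu : u = i
      · subst hu
        rw [Pi.single_eq_same, if_pos rfl, map_one]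
        ring
      · rw [Pi.single_eq_of_ne (fun h' => hu h'.symm), if_neg hu, map_zero]
        ring
    rw [Finset.sum_congr rfl fun u _ => h u, Finset.sum_add_distrib, Finset.sum_ite_eq' Finset.univ i,
      if_pos (Finset.mem_univ _), ← Finset.mul_sum]
    ring

theorem stab (wt : V → ℕ) (K : ℕ) {ι : Type} [Fintype ι] (M : ι → MvPolynomial V k) (q : ℕ)
    (φ : ι → MvPolynomial (Fin K ⊕ Fin K) k)
    (h : ∀ l : List V, l.length ≤ q + 1 → ∑ i, φ i * aeval (gv k wt K) (dd l (M i)) = 0)
    (j : Fin K ⊕ Fin K) (l : List V) (hl : l.length ≤ q) :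
    ∑ i, pderiv j (φ i) * aeval (gv k wt K) (dd l (M i)) = 0 := by
  have h1 := congrArg (pderiv j) (h l (le_trans hl (Nat.le_succ _)))
  rw [map_sum, map_zero] at h1
  have h2 : ∀ i, pderiv j (φ i * aeval (gv k wt K) (dd l (M i))) =
      (∑ u, pderiv j (gv k wt K u) * (φ i * aeval (gv k wt K) (dd (u :: l) (M i)))) +
        pderiv j (φ i) * aeval (gv k wt K) (dd l (M i)) := by
    intro i
    rw [Derivation.leibniz, smul_eq_mul, smul_eq_mul, chain, Finset.mul_sum, mul_comm (aeval _ _)]
    congr 1
    refine Finset.sum_congr rfl fun u _ => ?_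
    have h3 : dd (u :: l) (M i) = pderiv u (dd l (M i)) := rfl
    rw [h3]
    ring
  rw [Finset.sum_congr rfl fun i _ => h2 i, Finset.sum_add_distrib, Finset.sum_comm] at h1
  have h4 : ∑ u : V, ∑ i, pderiv j (gv k wt K u) * (φ i * aeval (gv k wt K) (dd (u :: l) (M i))) = 0 := by
    refine Finset.sum_eq_zero fun u _ => ?_
    rw [← Finset.mul_sum, h (u :: l) (by simp only [List.length_cons]; omega), mul_zero]
  rw [h4, zero_add] at h1
  exact h1

end

end Pool.Agent.UNK
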