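import Pool.Agent.UNK.Defs

/-!
Project UNK (MP_e2be99_lc), module Ob.  Text: /team-store/unk_h34.md (section 3, Lemma O: coefficient vectors).
Definitions in `Pool/Agent/UNK/Defs.lean`.

`N` is stable under the Euler operators `X j * pderiv j`, which separate the monomials in characteristic zero: so it contains the
vectors of the monomial components of its elements, and, by differentiation, the vectors of the coefficients.
-/

set_option autoImplicit false

namespace Pool.Agent.UNK

open MvPolynomial

universe u

private theorem Ob_coeff {k : Type u} [Field k] {σ : Type} [DecidableEq σ] (p : MvPolynomial σ k) (j : σ)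
    (m : σ →₀ ℕ) : coeff m (X j * pderiv j p) = (m j : k) * coeff m p := by
  induction p using MvPolynomial.induction_on' with
  | monomial u a =>
    rw [X_mul_pderiv_monomial, coeff_smul, coeff_monomial]
    by_cases h : u = m
    · subst h
      simp
    · simp [h]
  | add p q hp hq =>
    rw [map_add, mul_add, coeff_add, hp, hq, coeff_add]
    ring

private theorem Ob_euler {k : Type u} [Field k] {σ : Type} [DecidableEq σ] {ι : Type}
    (N : Submodule (MvPolynomial σ k) (ι → MvPolynomial σ k))
    (hN : ∀ φ ∈ N, ∀ j : σ, (fun i => pderiv j (φ i)) ∈ N)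
    (φ : ι → MvPolynomial σ k) (hφ : φ ∈ N) (j : σ) (a : k) :
    (fun i => X j * pderiv j (φ i) - C a * φ i) ∈ N := by
  have h1 := N.smul_mem (X j) (hN φ hφ j)
  have h2 := N.smul_mem (C a) hφ
  exact N.sub_mem h1 h2

private theorem Ob_comp {k : Type u} [Field k] [CharZero k] {σ : Type} [DecidableEq σ] {ι : Type}
    (N : Submodule (MvPolynomial σ k) (ι → MvPolynomial σ k))
    (hN : ∀ φ ∈ N, ∀ j : σ, (fun i => pderiv j (φ i)) ∈ N) (m : σ →₀ ℕ) (S : Finset (σ →₀ ℕ)) :
    ∀ φ ∈ N, (∀ i, (φ i).support ⊆ S) → (fun i => monomial m (coeff m (φ i))) ∈ N := by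
  induction S using Finset.strongInduction with
  | H S ih =>
    intro φ hφ hS
    by_cases h : ∃ m' ∈ S, m' ≠ m
    · obtain ⟨m', hm', hne⟩ := h
      obtain ⟨j, hj⟩ : ∃ j, m' j ≠ m j := by
        by_contra hcon
        push Not at hcon
        exact hne (Finsupp.ext hcon)
      have h1 := Ob_euler N hN φ hφ j (m' j : k)
      have hc : ∀ i n, coeff n (X j * pderiv j (φ i) - C (m' j : k) * φ i) =
          ((n j : k) - (m' j : k)) * coeff n (φ i) := by
        intro i n
        rw [coeff_sub, Ob_coeff, coeff_C_mul]
        ring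
      have h2 := ih (S.erase m') (Finset.erase_ssubset hm') _ h1 (by
        intro i n hn
        rw [mem_support_iff, hc] at hn
        refine Finset.mem_erase.2 ⟨fun e => hn (by rw [e, sub_self, zero_mul]), ?_⟩
        refine hS i ?_
        rw [mem_support_iff]
        exact right_ne_zero_of_mul hn)
      have hne' : ((m j : k) - (m' j : k)) ≠ 0 := by
        rw [sub_ne_zero]
        exact fun e => hj (Nat.cast_injective e).symm
      have h3 := N.smul_mem (C ((m j : k) - (m' j : k))⁻¹) h2
      have e : (fun i => monomial m (coeff m (φ i))) =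
          (C ((m j : k) - (m' j : k))⁻¹ : MvPolynomial σ k) •
            (fun i => monomial m (coeff m (X j * pderiv j (φ i) - C (m' j : k) * φ i))) := by
        funext i
        show monomial m (coeff m (φ i)) = C ((m j : k) - (m' j : k))⁻¹ *
          monomial m (coeff m (X j * pderiv j (φ i) - C (m' j : k) * φ i))
        rw [hc, C_mul_monomial, inv_mul_cancel_left₀ hne']
      rw [e]
      exact h3
    · push Not at h
      have e : (fun i => monomial m (coeff m (φ i))) = φ := by
        funext i
        ext n
        rw [coeff_monomial]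
        by_cases hn : m = n
        · rw [if_pos hn, hn]
        · rw [if_neg hn]
          by_contra hcon
          exact hn (h n (hS i (mem_support_iff.2 (Ne.symm hcon)))).symm
      rw [e]
      exact hφ

private theorem Ob_down {k : Type u} [Field k] [CharZero k] {σ : Type} [Fintype σ] [DecidableEq σ] {ι : Type}
    (N : Submodule (MvPolynomial σ k) (ι → MvPolynomial σ k))
    (hN : ∀ φ ∈ N, ∀ j : σ, (fun i => pderiv j (φ i)) ∈ N) (d : ℕ) :
    ∀ (m : σ →₀ ℕ) (c : ι → k), ∑ j, m j = d → (fun i => monomial m (c i)) ∈ N →
      (fun i => C (c i)) ∈ N := by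
  induction d with
  | zero =>
    intro m c hd h
    have hm : m = 0 := by
      refine Finsupp.ext fun j => ?_
      exact (Finset.sum_eq_zero_iff.1 hd) j (Finset.mem_univ j)
    rw [hm] at h
    exact h
  | succ d ih =>
    intro m c hd h
    obtain ⟨j, hj⟩ : ∃ j, m j ≠ 0 := by
      by_contra hcon
      push Not at hcon
      rw [Finset.sum_eq_zero fun j _ => hcon j] at hd
      omega
    have h1 := hN _ h j
    have e : (fun i => pderiv j (monomial m (c i))) =
        fun i => monomial (m - Finsupp.single j 1) (c i * (m j : k)) := by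
      funext i
      rw [pderiv_monomial]
    rw [e] at h1
    have hs : ∑ i, (m - Finsupp.single j 1 : σ →₀ ℕ) i = d := by
      have h2 : ∑ i, (m - Finsupp.single j 1 : σ →₀ ℕ) i + ∑ i, (Finsupp.single j 1 : σ →₀ ℕ) i =
          ∑ i, m i := by
        rw [← Finset.sum_add_distrib]
        refine Finset.sum_congr rfl fun i _ => ?_
        rw [Finsupp.tsub_apply]
        by_cases hi : j = i
        · subst hi
          rw [Finsupp.single_eq_same]
          omega
        · rw [Finsupp.single_eq_of_ne (Ne.symm hi)]
          omega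
      have h3 : ∑ i, (Finsupp.single j 1 : σ →₀ ℕ) i = 1 := by
        rw [Finset.sum_eq_single j]
        · rw [Finsupp.single_eq_same]
        · intro i _ hi
          exact Finsupp.single_eq_of_ne hi
        · intro h0
          exact absurd (Finset.mem_univ j) h0
      omega
    have h4 := N.smul_mem (C ((m j : k))⁻¹) (ih _ _ hs h1)
    have e2 : (fun i => C (c i)) = (C ((m j : k))⁻¹ : MvPolynomial σ k) • (fun i => (C (c i * (m j : k)) : MvPolynomial σ k)) := by
      funext i
      show C (c i) = C ((m j : k))⁻¹ * C (c i * (m j : k))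
      rw [← C_mul]
      congr 1
      have hne : (m j : k) ≠ 0 := Nat.cast_ne_zero.2 hj
      field_simp
    rw [e2]
    exact h4

theorem coefvec {k : Type u} [Field k] [CharZero k] {σ : Type} [Fintype σ] [DecidableEq σ]
    {ι : Type} [Fintype ι]
    (N : Submodule (MvPolynomial σ k) (ι → MvPolynomial σ k))
    (hN : ∀ φ ∈ N, ∀ j : σ, (fun i => pderiv j (φ i)) ∈ N)
    (φ : ι → MvPolynomial σ k) (hφ : φ ∈ N) (m : σ →₀ ℕ) :
    (fun i => C (coeff m (φ i))) ∈ N := by
  classical
  have h1 := Ob_comp N hN m (Finset.univ.biUnion fun i => (φ i).support) φ hφ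
    (fun i => Finset.subset_biUnion_of_mem (fun i => (φ i).support) (Finset.mem_univ i))
  exact Ob_down N hN _ m (fun i => coeff m (φ i)) rfl h1

end Pool.Agent.UNK
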