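import Pool.Agent.UNK.Defs

/-!
Project UNK (MP_e2be99_lc), module Oc.  Text: /team-store/unk_h34.md (section 3, Lemma O: linear algebra over a domain).
Definitions in `Pool/Agent/UNK/Defs.lean`.  Replace the `sorry`; keep the statements; helper lemmas private.

PLAN.
`R` a domain, `F = FractionRing R`.
* `stable_step`: `T q` := `F`-span of the vectors `x a` (mapped to `ι → F`) with `d a ≤ q`; an increasing sequence of subspaces of
  `F ^ ι`, so `T q = T (q+1)` for some `q ≤ card ι` (otherwise the dimensions increase strictly `card ι + 1` times).  If `φ` kills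
  the vectors with `d a ≤ q` it kills `T q`, so also the vectors with `d a ≤ q + 1`.
* `minor`: if no nonzero `φ : ι → R` kills all `x a`, then `card ι` of them have a nonzero determinant: over `F` the span of the `x a` is
  everything (else a nonzero functional kills it; clear denominators), so it contains a basis among the `x a`; the determinant of a basis is nonzero.
-/

set_option autoImplicit false

namespace Pool.Agent.UNK

open MvPolynomial

universe u

section

variable {R : Type u} [CommRing R] [IsDomain R] {ι : Type} [Fintype ι] [DecidableEq ι] {α : Type}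

omit [DecidableEq ι] in
private theorem Oc_inj (φ : ι → R) (y : ι → R)
    (h : ∑ i, algebraMap R (FractionRing R) (φ i) * algebraMap R (FractionRing R) (y i) = 0) :
    ∑ i, φ i * y i = 0 := by
  apply FaithfulSMul.algebraMap_injective R (FractionRing R)
  rw [map_sum, map_zero, ← h]
  exact Finset.sum_congr rfl fun i _ => map_mul _ _ _

/-- the functional with the coefficients `c` -/
private noncomputable def Oc_fun {F : Type u} [Field F] (c : ι → F) : (ι → F) →ₗ[F] F :=
  ∑ i, c i • LinearMap.proj i

omit [DecidableEq ι] in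
private theorem Oc_fun_apply {F : Type u} [Field F] (c w : ι → F) : Oc_fun c w = ∑ i, c i * w i := by
  unfold Oc_fun
  rw [LinearMap.sum_apply]
  exact Finset.sum_congr rfl fun i _ => rfl

omit [DecidableEq ι] in
private theorem Oc_stab {F : Type u} [Field F] (T : ℕ → Submodule F (ι → F)) (hT : Monotone T) :
    ∃ q ≤ Fintype.card ι, T (q + 1) ≤ T q := by
  by_contra hcon
  push Not at hcon
  have h1 : ∀ q, q ≤ Fintype.card ι + 1 → q ≤ Module.finrank F (T q) := by
    intro q
    induction q with
    | zero => intro _; exact Nat.zero_le _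
    | succ q ih =>
      intro hq
      have h2 := ih (by omega)
      have h3 : T q < T (q + 1) := lt_of_le_not_ge (hT (Nat.le_succ q)) (hcon q (by omega))
      have h4 := Submodule.finrank_lt_finrank_of_lt h3
      omega
  have h5 := h1 (Fintype.card ι + 1) le_rfl
  have h6 := Submodule.finrank_le (T (Fintype.card ι + 1))
  rw [Module.finrank_fintype_fun_eq_card] at h6
  omega

theorem stable_step (x : α → ι → R) (d : α → ℕ) :
    ∃ q ≤ Fintype.card ι, ∀ φ : ι → R, (∀ a, d a ≤ q → ∑ i, φ i * x a i = 0) →
      ∀ a, d a ≤ q + 1 → ∑ i, φ i * x a i = 0 := by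
  obtain ⟨q, hq, h⟩ := Oc_stab (F := FractionRing R) (ι := ι)
    (fun q => Submodule.span (FractionRing R)
      {w | ∃ a, d a ≤ q ∧ w = fun i => algebraMap R (FractionRing R) (x a i)})
    (fun q q' hqq' => Submodule.span_mono (by
      rintro w ⟨a, ha, rfl⟩
      exact ⟨a, ha.trans hqq', rfl⟩))
  refine ⟨q, hq, fun φ hφ a ha => ?_⟩
  have h1 : Submodule.span (FractionRing R)
      {w | ∃ a, d a ≤ q ∧ w = fun i => algebraMap R (FractionRing R) (x a i)} ≤
        LinearMap.ker (Oc_fun fun i => algebraMap R (FractionRing R) (φ i)) := by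
    rw [Submodule.span_le]
    rintro w ⟨b, hb, rfl⟩
    rw [SetLike.mem_coe, LinearMap.mem_ker, Oc_fun_apply]
    have h2 := hφ b hb
    have h3 := congrArg (algebraMap R (FractionRing R)) h2
    rw [map_sum, map_zero] at h3
    rw [← h3]
    exact Finset.sum_congr rfl fun i _ => (map_mul _ _ _).symm
  have h4 : (fun i => algebraMap R (FractionRing R) (x a i)) ∈ Submodule.span (FractionRing R)
      {w | ∃ a, d a ≤ q + 1 ∧ w = fun i => algebraMap R (FractionRing R) (x a i)} :=
    Submodule.subset_span ⟨a, ha, rfl⟩
  have h5 := h1 (h h4)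
  rw [LinearMap.mem_ker, Oc_fun_apply] at h5
  exact Oc_inj φ (x a) h5

private theorem Oc_top (x : α → ι → R) (h : ∀ φ : ι → R, (∀ a, ∑ i, φ i * x a i = 0) → φ = 0) :
    Submodule.span (FractionRing R) (Set.range fun a => fun i => algebraMap R (FractionRing R) (x a i)) = ⊤ := by
  classical
  by_contra hcon
  obtain ⟨f, hf, hle⟩ := Submodule.exists_le_ker_of_lt_top _ (lt_top_iff_ne_top.2 hcon)
  obtain ⟨b, hb⟩ := IsLocalization.exist_integer_multiples_of_finset (nonZeroDivisors R)
    (Finset.univ.image fun i : ι => f (Pi.single i 1))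
  have h1 : ∀ i : ι, ∃ c : R, algebraMap R (FractionRing R) c = (b : R) • f (Pi.single i 1) := fun i =>
    hb _ (Finset.mem_image_of_mem _ (Finset.mem_univ i))
  choose φ hφ using h1
  have hfw : ∀ w : ι → FractionRing R, f w = ∑ i, w i * f (Pi.single i 1) := by
    intro w
    conv_lhs => rw [pi_eq_sum_univ' w]
    rw [map_sum]
    refine Finset.sum_congr rfl fun i _ => ?_
    rw [map_smul, smul_eq_mul]
  have hb0 : algebraMap R (FractionRing R) b ≠ 0 := by
    intro h2
    have h3 := (map_eq_zero_iff _ (FaithfulSMul.algebraMap_injective R (FractionRing R))).1 h2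
    exact nonZeroDivisors.ne_zero b.2 h3
  have hφ0 : φ = 0 := by
    refine h φ fun a => Oc_inj φ (x a) ?_
    have h2 : (fun i => algebraMap R (FractionRing R) (x a i)) ∈ LinearMap.ker f :=
      hle (Submodule.subset_span ⟨a, rfl⟩)
    rw [LinearMap.mem_ker, hfw] at h2
    have h3 : ∑ i, algebraMap R (FractionRing R) (φ i) * algebraMap R (FractionRing R) (x a i) =
        algebraMap R (FractionRing R) b * ∑ i, algebraMap R (FractionRing R) (x a i) * f (Pi.single i 1) := by
      rw [Finset.mul_sum]
      refine Finset.sum_congr rfl fun i _ => ?_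
      rw [hφ i, Algebra.smul_def]
      ring
    rw [h3, h2, mul_zero]
  apply hf
  refine LinearMap.ext fun w => ?_
  rw [hfw, LinearMap.zero_apply]
  refine Finset.sum_eq_zero fun i _ => ?_
  have h4 := hφ i
  rw [hφ0, Pi.zero_apply, map_zero, Algebra.smul_def] at h4
  rcases mul_eq_zero.1 h4.symm with h5 | h5
  · exact absurd h5 hb0
  · rw [h5, mul_zero]

theorem minor (x : α → ι → R) (h : ∀ φ : ι → R, (∀ a, ∑ i, φ i * x a i = 0) → φ = 0) :
    ∃ s : ι → α, (Matrix.of fun i j => x (s i) j).det ≠ 0 := by
  have h1 := Oc_top x h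
  obtain ⟨b, hb1, hb2, hb3⟩ := exists_linearIndependent (FractionRing R)
    (Set.range fun a => fun i => algebraMap R (FractionRing R) (x a i))
  rw [h1] at hb2
  have hspan : ⊤ ≤ Submodule.span (FractionRing R) (Set.range ((↑) : b → ι → FractionRing R)) := by
    rw [Subtype.range_coe, hb2]
  let B := Module.Basis.mk hb3 hspan
  have : Fintype b := FiniteDimensional.fintypeBasisIndex B
  have hcard : Fintype.card b = Fintype.card ι := by
    rw [← Module.finrank_eq_card_basis B, Module.finrank_fintype_fun_eq_card]
  obtain ⟨e⟩ : Nonempty (ι ≃ b) := ⟨Fintype.equivOfCardEq hcard.symm⟩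
  have h2 : ∀ i : ι, ∃ a, (fun j => algebraMap R (FractionRing R) (x a j)) = (e i : ι → FractionRing R) := fun i =>
    hb1 (e i).2
  choose s hs using h2
  refine ⟨s, fun hdet => ?_⟩
  have h3 : LinearIndependent (FractionRing R)
      (Matrix.of fun i j => algebraMap R (FractionRing R) (x (s i) j)).row := by
    have h4 : (Matrix.of fun i j => algebraMap R (FractionRing R) (x (s i) j)).row =
        ((↑) : b → ι → FractionRing R) ∘ e := by
      funext i
      exact hs i
    rw [h4]
    exact hb3.comp e e.injective
  rw [Matrix.linearIndependent_rows_iff_isUnit, Matrix.isUnit_iff_isUnit_det] at h3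
  have h5 : (Matrix.of fun i j => algebraMap R (FractionRing R) (x (s i) j)).det =
      algebraMap R (FractionRing R) (Matrix.of fun i j => x (s i) j).det := by
    rw [RingHom.map_det]
    rfl
  rw [h5, hdet, map_zero] at h3
  exact not_isUnit_zero h3

end

end Pool.Agent.UNK
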