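import Pool.Agent.UNK.Oa
import Pool.Agent.UNK.Ob
import Pool.Agent.UNK.Oc

/-!
Project UNK (MP_e2be99_lc), module Od.  Text: /team-store/unk_h34.md (section 3, Lemma O).
Definitions in `Pool/Agent/UNK/Defs.lean`.

`lemO_kill`: the vectors killing the jets of order at most `q` (with `q` from `stable_step`) are stable under the partial derivatives
(`stab`), so their coefficient vectors kill the values at the generic point (`coefvec`).
`lemO`: for a basis of the span of the `M i` no vector kills all the jets, so some minor does not vanish (`minor`).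
-/

set_option autoImplicit false

namespace Pool.Agent.UNK

open MvPolynomial

universe u

section

variable {k : Type u} [Field k] [CharZero k] {V : Type} [Fintype V] [DecidableEq V]

theorem lemO_kill (wt : V → ℕ) (K : ℕ) {ι : Type} [Fintype ι] [DecidableEq ι]
    (M : ι → MvPolynomial V k)
    (hM : ∀ φ : ι → k, (∑ i, C (φ i) * M i) ≠ 0 →
      ∃ θ : Fin K ⊕ Fin K → k, eval (vp wt K θ) (∑ i, C (φ i) * M i) ≠ 0)
    (φ : ι → MvPolynomial (Fin K ⊕ Fin K) k)
    (h : ∀ l : List V, l.length ≤ Fintype.card ι →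
      ∑ i, φ i * aeval (gv k wt K) (dd l (M i)) = 0) (m : Fin K ⊕ Fin K →₀ ℕ) :
    ∑ i, C (coeff m (φ i)) * M i = 0 := by
  obtain ⟨q, hq, hst⟩ := stable_step (fun (l : List V) (i : ι) => aeval (gv k wt K) (dd l (M i)))
    (fun l => l.length)
  let N : Submodule (MvPolynomial (Fin K ⊕ Fin K) k) (ι → MvPolynomial (Fin K ⊕ Fin K) k) :=
    { carrier := {φ | ∀ l : List V, l.length ≤ q → ∑ i, φ i * aeval (gv k wt K) (dd l (M i)) = 0}
      add_mem' := by
        intro a b ha hb l hl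
        simp only [Pi.add_apply, add_mul, Finset.sum_add_distrib, ha l hl, hb l hl, add_zero]
      zero_mem' := by
        intro l _
        simp only [Pi.zero_apply, zero_mul, Finset.sum_const_zero]
      smul_mem' := by
        intro c a ha l hl
        simp only [Pi.smul_apply, smul_eq_mul, mul_assoc, ← Finset.mul_sum, ha l hl, mul_zero] }
  have hN : ∀ ψ ∈ N, ∀ j : Fin K ⊕ Fin K, (fun i => pderiv j (ψ i)) ∈ N := by
    intro ψ hψ j l hl
    exact stab wt K M q ψ (fun l' hl' => hst ψ hψ l' hl') j l hl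
  have hφ : φ ∈ N := fun l hl => h l (hl.trans hq)
  have h1 : ∑ i, C (coeff m (φ i)) * aeval (gv k wt K) (M i) = 0 :=
    coefvec N hN φ hφ m [] (Nat.zero_le q)
  have h2 : aeval (gv k wt K) (∑ i, C (coeff m (φ i)) * M i) = 0 := by
    rw [map_sum, ← h1]
    refine Finset.sum_congr rfl fun i _ => ?_
    rw [map_mul, algHom_C, algebraMap_eq]
  by_contra hne
  obtain ⟨θ, hθ⟩ := hM _ hne
  apply hθ
  rw [← eval_gv, h2, map_zero]

omit [CharZero k] [Fintype V] [DecidableEq V] in
private theorem Od_dd {κ : Type} [Fintype κ] (M : κ → MvPolynomial V k) (ψ : κ → k) :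
    ∀ l : List V, dd l (∑ j, ψ j • M j) = ∑ j, ψ j • dd l (M j)
  | [] => rfl
  | u :: l => by
    show pderiv u (dd l (∑ j, ψ j • M j)) = ∑ j, ψ j • pderiv u (dd l (M j))
    rw [Od_dd M ψ l, map_sum]
    exact Finset.sum_congr rfl fun j _ => Derivation.map_smul _ _ _

omit [CharZero k] [Fintype V] [DecidableEq V] in
private theorem Od_C {κ : Type} [Fintype κ] (M : κ → MvPolynomial V k) (ψ : κ → k) :
    ∑ j, C (ψ j) * M j = ∑ j, ψ j • M j :=
  Finset.sum_congr rfl fun _ _ => (smul_eq_C_mul _ _).symm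

theorem lemO (wt : V → ℕ) (K : ℕ) {ι : Type} [Fintype ι] [DecidableEq ι]
    (M : ι → MvPolynomial V k)
    (hM : ∀ φ : ι → k, (∑ i, C (φ i) * M i) ≠ 0 →
      ∃ θ : Fin K ⊕ Fin K → k, eval (vp wt K θ) (∑ i, C (φ i) * M i) ≠ 0) :
    ∀ᶠ θ in zar k (Fin K ⊕ Fin K), ∀ φ : ι → k, (∑ i, C (φ i) * M i) ≠ 0 →
      ∃ l : List V, l.length ≤ Fintype.card ι ∧
        eval (vp wt K θ) (dd l (∑ i, C (φ i) * M i)) ≠ 0 := by
  classical
  obtain ⟨κ, a, ha, hspan, hli⟩ := exists_linearIndependent' k M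
  let : Fintype κ := Fintype.ofInjective a ha
  have hcard : Fintype.card κ ≤ Fintype.card ι := Fintype.card_le_of_injective a ha
  have hM' : ∀ φ : κ → k, (∑ i, C (φ i) * (M ∘ a) i) ≠ 0 →
      ∃ θ : Fin K ⊕ Fin K → k, eval (vp wt K θ) (∑ i, C (φ i) * (M ∘ a) i) ≠ 0 := by
    intro φ hφ
    have h1 : (∑ i, C (φ i) * (M ∘ a) i) ∈ Submodule.span k (Set.range (M ∘ a)) := by
      rw [Od_C]
      exact Submodule.mem_span_range_iff_exists_fun k |>.2 ⟨φ, rfl⟩
    rw [hspan] at h1
    obtain ⟨c, hc⟩ := (Submodule.mem_span_range_iff_exists_fun k).1 h1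
    rw [← Od_C] at hc
    rw [← hc] at hφ ⊢
    exact hM c hφ
  have hker : ∀ φ : κ → MvPolynomial (Fin K ⊕ Fin K) k,
      (∀ l : {l : List V // l.length ≤ Fintype.card κ},
        ∑ i, φ i * (fun (l : {l : List V // l.length ≤ Fintype.card κ}) (i : κ) =>
          aeval (gv k wt K) (dd l.1 ((M ∘ a) i))) l i = 0) → φ = 0 := by
    intro φ hφ
    have h1 := lemO_kill wt K (M ∘ a) hM' φ (fun l hl => hφ ⟨l, hl⟩)
    funext i
    ext m
    have h2 := h1 m
    rw [Od_C] at h2
    rw [Fintype.linearIndependent_iff.1 hli _ h2 i]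
    simp
  obtain ⟨s, hs⟩ := minor _ hker
  refine ⟨_, hs, fun θ hθ φ hφ => ?_⟩
  by_contra hall
  push Not at hall
  have hf : (∑ i, C (φ i) * M i) ∈ Submodule.span k (Set.range (M ∘ a)) := by
    rw [hspan, Od_C]
    exact (Submodule.mem_span_range_iff_exists_fun k).2 ⟨φ, rfl⟩
  obtain ⟨ψ, hψ⟩ := (Submodule.mem_span_range_iff_exists_fun k).1 hf
  have h3 : ((Matrix.of fun i j => aeval (gv k wt K) (dd (s i).1 ((M ∘ a) j))).map (eval θ)).mulVec ψ = 0 := by
    funext i
    have h4 := hall (s i).1 ((s i).2.trans hcard)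
    rw [← hψ, Od_dd, map_sum] at h4
    rw [Pi.zero_apply, ← h4, Matrix.mulVec, dotProduct]
    refine Finset.sum_congr rfl fun j _ => ?_
    rw [Matrix.map_apply, Matrix.of_apply, eval_gv, smul_eval, mul_comm]
  have h5 : ((Matrix.of fun i j => aeval (gv k wt K) (dd (s i).1 ((M ∘ a) j))).map (eval θ)).det ≠ 0 := by
    have h6 := RingHom.map_det (eval θ) (Matrix.of fun i j => aeval (gv k wt K) (dd (s i).1 ((M ∘ a) j)))
    rw [RingHom.mapMatrix_apply] at h6
    rw [← h6]
    exact hθ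
  have h7 := Matrix.eq_zero_of_mulVec_eq_zero h5 h3
  apply hφ
  rw [← hψ, h7]
  simp

end

end Pool.Agent.UNK
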