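import Pool.Agent.UNK.Zar

/-!
Project UNK (MP_e2be99_lc), module Rp.  Text: /team-store/unk_h34.md (section 1).
Definitions in `Pool/Agent/UNK/Defs.lean`.

Simple facts on the products `rp` of a row along a list of variables, on tensor powers `tp`, on the generalised
points `mix`, `ev`, `jet` and on the points `vp` of level `K`.
-/

set_option autoImplicit false

namespace Pool.Agent.UNK

open MvPolynomial

universe u

section

variable {k : Type u} [Field k] {V : Type} {I : Type} [Fintype I] [DecidableEq I]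

theorem tp_mul (g : ℕ) {α β γ : Type} [Fintype β] (M : Matrix α β k) (N : Matrix β γ k) :
    tp g (M * N) = tp g M * tp g N := by
  classical
  ext f f'
  change ∏ i, (M * N) (f i) (f' i) = ∑ h : Fin g → β, (∏ i, M (f i) (h i)) * ∏ i, N (h i) (f' i)
  have h1 : ∏ i, (M * N) (f i) (f' i) = ∏ i, ∑ j ∈ (Finset.univ : Finset β), M (f i) j * N j (f' i) :=
    Finset.prod_congr rfl fun i _ => Matrix.mul_apply
  rw [h1, Finset.prod_univ_sum, Fintype.piFinset_univ]
  exact Finset.sum_congr rfl fun h _ => Finset.prod_mul_distrib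

theorem tp_one (g : ℕ) {α : Type} [Fintype α] [DecidableEq α] :
    tp g (1 : Matrix α α k) = 1 := by
  ext f f'
  change ∏ i, (1 : Matrix α α k) (f i) (f' i) = (1 : Matrix (Fin g → α) (Fin g → α) k) f f'
  by_cases h : f = f'
  · subst h
    rw [Matrix.one_apply_eq]
    exact Finset.prod_eq_one fun i _ => Matrix.one_apply_eq _
  · rw [Matrix.one_apply_ne h]
    obtain ⟨i, hi⟩ := Function.ne_iff.1 h
    exact Finset.prod_eq_zero (Finset.mem_univ i) (Matrix.one_apply_ne hi)

theorem rp_nil (A : V → Matrix I I (Polynomial k)) (lam : GP k V) : rp A [] lam = 1 := by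
  simp [rp]

theorem rp_append (A : V → Matrix I I (Polynomial k)) (L L' : List V) (lam : GP k V) :
    rp A (L ++ L') lam = rp A L lam * rp A L' lam := by
  simp [rp]

theorem rp_single (A : V → Matrix I I (Polynomial k)) (u : V) (lam : GP k V) :
    rp A [u] lam = (A u).map (lam u) := by
  simp [rp]

private theorem rp_cons (A : V → Matrix I I (Polynomial k)) (u : V) (L : List V) (lam : GP k V) :
    rp A (u :: L) lam = (A u).map (lam u) * rp A L lam := by
  simp [rp]

theorem rp_congr (A : V → Matrix I I (Polynomial k)) (L : List V) {lam lam' : GP k V}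
    (h : ∀ u ∈ L, lam u = lam' u) : rp A L lam = rp A L lam' := by
  unfold rp
  congr 1
  exact List.map_congr_left fun u hu => by rw [h u hu]

theorem rp_tr (A : V → Matrix I I (Polynomial k)) (g : ℕ) (L : List V) (a : V → k) :
    rp (tr g A) L (ev a) = tp g (rp A L (ev a)) := by
  induction L with
  | nil => rw [rp_nil, rp_nil, tp_one]
  | cons u L ih =>
    rw [rp_cons, rp_cons, tp_mul, ih]
    congr 1
    ext f f'
    change Polynomial.eval (a u) (∏ i, A u (f i) (f' i)) = ∏ i, Polynomial.eval (a u) (A u (f i) (f' i))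
    exact Polynomial.eval_prod _ _ _

theorem rp_con (A : V → Matrix I I (Polynomial k)) (O E : ℕ → List V) (t : ℕ) (lam : GP k V) :
    rp A (con O E t) lam = mcon (fun i => rp A (O i) lam) (fun i => rp A (E i) lam) t := by
  induction t with
  | zero => rfl
  | succ t ih =>
    rw [con, mcon, rp_append, rp_append, ih]

theorem rp_pf (A : V → Matrix I I (Polynomial k)) (L : List V) (Y : Set V) (kap : GP k V) (p q : I) :
    PF (fun a : V → k => rp A L (mix Y (ev a) kap) p q) := by
  induction L generalizing p q with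
  | nil =>
    simp only [rp_nil]
    exact PF.const _
  | cons u L ih =>
    simp only [rp_cons]
    refine PF.mmul (fun p q => ?_) (fun p q => ih p q) p q
    by_cases hu : u ∈ Y
    · have h1 : (fun a : V → k => ((A u).map (mix Y (ev a) kap u)) p q) =
          fun a : V → k => (A u p q).eval (a u) := by
        funext a
        simp only [mix, if_pos hu, Matrix.map_apply]
        rfl
      rw [h1]
      exact PF.poly (PF.coord u) _
    · have h1 : (fun a : V → k => ((A u).map (mix Y (ev a) kap u)) p q) =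
          fun _ : V → k => kap u (A u p q) := by
        funext a
        simp only [mix, if_neg hu, Matrix.map_apply]
      rw [h1]
      exact PF.const _

theorem rp_pf' (A : V → Matrix I I (Polynomial k)) (L : List V) (p q : I) :
    PF (fun a : V → k => rp A L (ev a) p q) := by
  have h := rp_pf A L Set.univ (0 : GP k V) p q
  have h1 : ∀ a : V → k, mix Set.univ (ev a) (0 : GP k V) = ev a := by
    intro a
    funext u
    simp only [mix, Set.mem_univ, if_true]
  simpa only [h1] using h

theorem tp_pf {σ : Type} (g : ℕ) {α β : Type} {M : (σ → k) → Matrix α β k}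
    (hM : ∀ p q, PF (fun a => M a p q)) (p : Fin g → α) (q : Fin g → β) :
    PF (fun a => tp g (M a) p q) := by
  change PF (fun a => ∏ i, M a (p i) (q i))
  exact PF.prod _ fun i _ => hM _ _

theorem vp_pf (wt : V → ℕ) (K : ℕ) (u : V) : PF (fun θ : Fin K ⊕ Fin K → k => vp wt K θ u) := by
  unfold vp
  exact PF.sum _ fun j _ => PF.mul (PF.coord _) (PF.pow (PF.coord _) _)

theorem jet_zero (v : V → k) : jet 0 v = ev v := by
  funext u
  unfold jet ev
  refine LinearMap.ext fun p => ?_
  simp

theorem mix_ev (Y : Set V) (a b : V → k) [DecidablePred (· ∈ Y)] :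
    mix Y (ev a) (ev b) = ev (fun u => if u ∈ Y then a u else b u) := by
  funext u
  unfold mix ev
  by_cases hu : u ∈ Y
  · simp only [if_pos hu]
  · simp only [if_neg hu]

theorem rk_mid (A : V → Matrix I I (Polynomial k)) (L₁ L L₂ : List V) (lam : GP k V) :
    (rp A (L₁ ++ L ++ L₂) lam).rank ≤ (rp A L lam).rank := by
  rw [rp_append, rp_append]
  exact (Matrix.rank_mul_le_left _ _).trans (Matrix.rank_mul_le_right _ _)

theorem vp_add (wt : V → ℕ) (K j : ℕ) (θ : Fin K ⊕ Fin K → k) (θ' : Fin j ⊕ Fin j → k) :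
    ∃ θ'' : Fin (K + j) ⊕ Fin (K + j) → k, vp wt (K + j) θ'' = vp wt K θ + vp wt j θ' := by
  refine ⟨Sum.elim (Fin.append (fun i => θ (Sum.inl i)) (fun i => θ' (Sum.inl i)))
    (Fin.append (fun i => θ (Sum.inr i)) (fun i => θ' (Sum.inr i))), ?_⟩
  funext u
  simp only [vp, Pi.add_apply, Sum.elim_inl, Sum.elim_inr]
  rw [Fin.sum_univ_add]
  simp only [Fin.append_left, Fin.append_right]

theorem vp_mono (wt : V → ℕ) {K K' : ℕ} (h : K ≤ K') (θ : Fin K ⊕ Fin K → k) :
    ∃ θ' : Fin K' ⊕ Fin K' → k, vp wt K' θ' = vp wt K θ := by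
  obtain ⟨j, rfl⟩ := Nat.exists_eq_add_of_le h
  obtain ⟨θ', h'⟩ := vp_add wt K j θ (fun _ => 0)
  refine ⟨θ', ?_⟩
  rw [h']
  funext u
  simp [vp]

theorem vp_one (wt : V → ℕ) (K : ℕ) (hK : 1 ≤ K) (c : k) :
    ∃ θ : Fin K ⊕ Fin K → k, vp wt K θ = fun _ => c := by
  obtain ⟨θ', h'⟩ := vp_mono wt hK (Sum.elim (fun _ => c) (fun _ => 1) : Fin 1 ⊕ Fin 1 → k)
  refine ⟨θ', ?_⟩
  rw [h']
  funext u
  simp [vp]

omit [DecidableEq I] in
private theorem rp_dot (Φ M : Matrix I I k) : dot Φ M = (Φ.transpose * M).trace := by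
  unfold dot
  rw [Finset.sum_comm]
  simp only [Matrix.trace, Matrix.diag_apply, Matrix.mul_apply, Matrix.transpose_apply]

/-- a functional of a product of three matrices, as a functional of the middle one -/
theorem dot_mid (Φ X Y : Matrix I I k) : ∃ Ψ : Matrix I I k, ∀ M, dot Φ (X * M * Y) = dot Ψ M := by
  refine ⟨X.transpose * Φ * Y.transpose, fun M => ?_⟩
  rw [rp_dot, rp_dot, Matrix.transpose_mul, Matrix.transpose_mul, Matrix.transpose_transpose,
    Matrix.transpose_transpose, ← Matrix.mul_assoc, Matrix.trace_mul_comm, ← Matrix.mul_assoc,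
    ← Matrix.mul_assoc, ← Matrix.mul_assoc]

theorem dot_fun (Φ : Matrix I I k →ₗ[k] k) : ∃ Ψ : Matrix I I k, ∀ M, Φ M = dot Ψ M := by
  refine ⟨Matrix.of fun p q => Φ (Matrix.single p q 1), fun M => ?_⟩
  conv_lhs => rw [Matrix.matrix_eq_sum_single M]
  rw [map_sum]
  unfold dot
  refine Finset.sum_congr rfl fun p _ => ?_
  rw [map_sum]
  refine Finset.sum_congr rfl fun q _ => ?_
  have h1 : Matrix.single p q (M p q) = M p q • Matrix.single p q (1 : k) := by
    rw [Matrix.smul_single, smul_eq_mul, mul_one]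
  rw [h1, map_smul, smul_eq_mul, Matrix.of_apply, mul_comm]

end

end Pool.Agent.UNK
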