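import Pool.Agent.UNK.Lq
import Pool.Agent.UNK.Gl

/-!
Project UNK (MP_e2be99_lc), module S2.  Text: /team-store/unk_h34.md (section 6, step 2).
Definitions in `Pool/Agent/UNK/Defs.lean`.  Replace the `sorry`; keep the statements; helper lemmas private.

PLAN.
`v = vp wt K θ` for generic `θ`: all `E i` good at `v` (`good_ev`), and `r ≤ rank (rp A (O i) (ev a) * rp A (E i) (ev v) * rp A (O (i+1)) (ev a))`
for `i < t` (`rk_ev` with `X = rp A (O i) (ev a)`, `Y = rp A (O (i+1)) (ev a)`; at `a` the rank is at least `r` because `O i ++ E i ++ O (i+1)` is an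
infix of `L` and `r ≤ rank (rp A L (ev a))`, `rk_mid`; lemma: for `i < t` there are `X`, `Y` with
`con O E t = X ++ (O i ++ E i ++ O (i+1)) ++ Y`).  Finitely many conditions: `Filter.eventually_all_finset`/`Finset.range`, `.exists` with `zar_neBot`.
`lemQ` with `Xl = Yl = []` (good: the empty list, `cpl_nil` with `good_ev`, or directly), `D = DD w` (`DD_ge`).  Then `ldr` for the row `tr g A`,
`Y` = complement of `{u | ∃ i ≤ t, u ∈ O i}`, `kap = ev a` (rewrite `mix S (ev a) lam = mix Sᶜ lam (ev a)`), `j = (DD w + 2) * DD w`, and `vp_add`.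
-/

set_option autoImplicit false

namespace Pool.Agent.UNK

open MvPolynomial

universe u

private theorem s2_last {α : Type} (O E : ℕ → List α) (t : ℕ) : ∃ X, con O E t = X ++ O t := by
  cases t with
  | zero => exact ⟨[], rfl⟩
  | succ t => exact ⟨con O E t ++ E t, rfl⟩

private theorem s2_mid {α : Type} (O E : ℕ → List α) (t : ℕ) (i : ℕ) (hi : i < t) :
    ∃ X Y, con O E t = X ++ (O i ++ E i ++ O (i + 1)) ++ Y := by
  induction t with
  | zero => exact absurd hi (Nat.not_lt_zero _)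
  | succ t ih =>
    rcases Nat.lt_or_ge i t with h | h
    · obtain ⟨X, Y, hXY⟩ := ih h
      refine ⟨X, Y ++ E t ++ O (t + 1), ?_⟩
      show con O E t ++ E t ++ O (t + 1) = _
      rw [hXY]
      simp only [List.append_assoc]
    · have hit : i = t := by omega
      subst hit
      obtain ⟨X, hX⟩ := s2_last O E i
      refine ⟨X, [], ?_⟩
      show con O E i ++ E i ++ O (i + 1) = _
      rw [hX]
      simp only [List.append_assoc, List.append_nil]

private theorem s2_nil {k : Type u} [Field k] {V : Type} [Fintype V] {w : ℕ}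
    (A : V → Matrix (Fin w) (Fin w) (Polynomial k)) (D : ℕ) (v : V → k) : Good A D [] v := by
  intro g _ Φ ha
  obtain ⟨a, ha⟩ := ha
  refine ⟨fun _ => 0, fun _ _ => rfl, by simp, ?_⟩
  rw [rp_nil] at ha ⊢
  rw [tp_one] at ha
  exact ha

private theorem s2_mix {k : Type u} [Field k] {V : Type} (S : Set V) (lam kap : GP k V) :
    mix S lam kap = mix Sᶜ kap lam := by
  funext u
  unfold mix
  by_cases h : u ∈ S
  · rw [if_pos h, if_neg (by simpa using h)]
  · rw [if_neg h, if_pos (show u ∈ Sᶜ from h)]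

theorem step2 {k : Type u} [Field k] [CharZero k] {V : Type} [Fintype V] [DecidableEq V] {w : ℕ}
    (wt : V → ℕ) (hwt : Function.Injective wt) (A : V → Matrix (Fin w) (Fin w) (Polynomial k))
    (K r t : ℕ) (O E : ℕ → List V) (hnd : (con O E t).Nodup) (hE : ∀ i < t, Cpl wt A K (E i))
    (hO : ∀ i ≤ t, ∀ a, (rp A (O i) (ev a)).rank ≤ r) (g : ℕ) (hg : g ≤ w)
    (Φ : Matrix (Fin g → Fin w) (Fin g → Fin w) k) (a : V → k)
    (ha : r ≤ (rp A (con O E t) (ev a)).rank)
    (h : dot Φ (tp g (rp A (con O E t) (ev a))) ≠ 0) :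
    ∃ θ : Fin (K + (DD w + 2) * DD w) ⊕ Fin (K + (DD w + 2) * DD w) → k,
      dot Φ (rp (tr g A) (con O E t)
        (mix {u | ∃ i ≤ t, u ∈ O i} (ev a) (ev (vp wt (K + (DD w + 2) * DD w) θ)))) ≠ 0 := by
  have hinf : Infinite k := inferInstance
  have hgen : ∀ᶠ θ in zar k (Fin K ⊕ Fin K), ∀ i ∈ Finset.range t,
      Good A (DD w) (E i) (vp wt K θ) ∧
        r ≤ (rp A (O i) (ev a) * rp A (E i) (ev (vp wt K θ)) * rp A (O (i + 1)) (ev a)).rank := by
    rw [Filter.eventually_all_finset]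
    intro i hi
    have hi' : i < t := Finset.mem_range.1 hi
    obtain ⟨X, Y, hXY⟩ := s2_mid O E t i hi'
    have hnd' : (E i).Nodup := by
      rw [hXY] at hnd
      have h1 := (List.nodup_append.1 hnd).1
      have h2 := (List.nodup_append.1 h1).2.1
      have h3 := (List.nodup_append.1 h2).1
      exact (List.nodup_append.1 h3).2.1
    refine (good_ev wt A K (E i) hnd' (hE i hi')).and (rk_ev wt A K (E i) (hE i hi') r _ _ a ?_)
    rw [← rp_append, ← rp_append]
    refine ha.trans ?_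
    rw [hXY]
    exact rk_mid A X _ Y (ev a)
  have := zar_neBot k (Fin K ⊕ Fin K)
  obtain ⟨θ, hθ⟩ := hgen.exists
  obtain ⟨e, he1, he2, he3⟩ := lemQ A (DD w) r t (fun g hg => DD_ge hg) O E [] [] (con O E t) (by simp) hnd
    (vp wt K θ) a (s2_nil A _ _) (s2_nil A _ _) (fun i hi => (hθ i (Finset.mem_range.2 hi)).1)
    (fun i hi => hO i hi a) (fun i hi => (hθ i (Finset.mem_range.2 hi)).2) g hg Φ h
  rw [s2_mix] at he3
  obtain ⟨θ', hθ'⟩ := ldr wt hwt (tr g A) (con O E t) hnd Φ ((DD w + 2) * DD w) (vp wt K θ) _ (ev a) e he2 he3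
  obtain ⟨θ'', hθ''⟩ := vp_add wt K ((DD w + 2) * DD w) θ θ'
  refine ⟨θ'', ?_⟩
  rw [hθ'', s2_mix]
  exact hθ'

end Pool.Agent.UNK
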