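import Pool.Agent.UNK.Cs

/-!
Project UNK (MP_e2be99_lc), module Sa.  Text: /team-store/unk_h34.md (section 8 (a) and (b)).
Definitions in `Pool/Agent/UNK/Defs.lean`.  Replace the `sorry`; keep the statements; helper lemmas private.

PLAN.
* `span_a`: otherwise there is a linear functional `Ψ` on `τ → Matrix` which vanishes on the span and not at the given element
  (`Submodule.exists_le_ker_of_notMem` or via `Submodule.dualAnnihilator`).  `mr_row`, `mr_pt`: nonzero at some `ev a`.  `Sp := {u | u ∉ Z ∧ ∃ l, kap l u ≠ ev v u}`, at most `μ * q` elements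
  (`hk`, `hτ`).  `crit_set`: `S`, `a'`; `mr_jet` with `mr_row`: `e` with `∑ e ≤ S.card * N ≤ D1 w N μ q` and nonzero value: contradiction.
* `basis_b`: the span of all `x e` (`∑ e ≤ D1`) has dimension at most `card τ * w ^ 2`; choose a basis among the spanning elements
  (`exists_linearIndependent`), finite of size at most the dimension, enumerate by `Fin p`.
-/

set_option autoImplicit false

namespace Pool.Agent.UNK

open MvPolynomial

universe u

section

variable {k : Type u} [Field k] [Infinite k] {V : Type} [Fintype V] [DecidableEq V] {w : ℕ}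

open scoped Classical in
theorem span_a (A : V → Matrix (Fin w) (Fin w) (Polynomial k)) (L' : List V) (hL : L'.Nodup)
    (v : V → k) (N : ℕ) (hal : Alive A L' v)
    (hug : UG (fun u => Submodule.span k {h | ∃ p q, h = A u p q}) N v) (Z : Set V) {τ : Type}
    [Fintype τ] (kap : τ → GP k V) (μ q : ℕ) (hτ : Fintype.card τ ≤ μ)
    (hk : ∀ l, (Finset.univ.filter fun u => kap l u ≠ ev v u).card ≤ q) (lam : GP k V) :
    (fun l => rp A L' (mix Z lam (kap l))) ∈
      Submodule.span k {x : τ → Matrix (Fin w) (Fin w) k | ∃ e : V → ℕ, ∑ u, e u ≤ D1 w N μ q ∧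
        x = fun l => rp A L' (mix Z (jet e v) (kap l))} := by
  by_contra hcon
  obtain ⟨Ψ, hΨ, hker⟩ := Submodule.exists_le_ker_of_notMem hcon
  have hmr := mr_row A L' hL Z kap Ψ
  obtain ⟨a, ha⟩ := mr_pt _ _ hmr lam hΨ
  set Sp : Finset V := Finset.univ.filter fun u => u ∉ Z ∧ ∃ l, kap l u ≠ ev v u with hSp
  have hcard : Sp.card ≤ μ * q := by
    have h1 : Sp ⊆ Finset.univ.biUnion fun l : τ => Finset.univ.filter fun u => kap l u ≠ ev v u := by
      intro u hu
      obtain ⟨-, -, l, hl⟩ := Finset.mem_filter.1 hu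
      exact Finset.mem_biUnion.2 ⟨l, Finset.mem_univ _, Finset.mem_filter.2 ⟨Finset.mem_univ _, hl⟩⟩
    refine (Finset.card_le_card h1).trans (Finset.card_biUnion_le.trans ?_)
    refine (Finset.sum_le_card_nsmul _ _ q fun l _ => hk l).trans ?_
    rw [Finset.card_univ, smul_eq_mul]
    exact Nat.mul_le_mul_right q hτ
  obtain ⟨S, a', -, hS2, hS3⟩ := crit_set A L' hL v hal Z kap Sp
    (fun u hu => (Finset.mem_filter.1 hu).2.1)
    (fun l u hu hu' => by
      by_contra h
      exact hu' (Finset.mem_filter.2 ⟨Finset.mem_univ _, hu, l, h⟩)) Ψ a ha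
  obtain ⟨e, -, he2, he3⟩ := mr_jet _ _ hmr N v hug S a' hS3
  refine he3 ?_
  have h2 : (fun l => rp A L' (mix Z (jet e v) (kap l))) ∈
      Submodule.span k {x : τ → Matrix (Fin w) (Fin w) k | ∃ e : V → ℕ, ∑ u, e u ≤ D1 w N μ q ∧
        x = fun l => rp A L' (mix Z (jet e v) (kap l))} := by
    refine Submodule.subset_span ⟨e, he2.trans ?_, rfl⟩
    unfold D1
    refine Nat.mul_le_mul_right N (hS2.trans (Nat.mul_le_mul_left _ ?_))
    omega
  exact hker h2

open scoped Classical in
theorem basis_b (A : V → Matrix (Fin w) (Fin w) (Polynomial k)) (L' : List V) (hL : L'.Nodup)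
    (v : V → k) (N : ℕ) (hal : Alive A L' v)
    (hug : UG (fun u => Submodule.span k {h | ∃ p q, h = A u p q}) N v) (Z : Set V) {τ : Type}
    [Fintype τ] (kap : τ → GP k V) (μ q : ℕ) (hτ : Fintype.card τ ≤ μ)
    (hk : ∀ l, (Finset.univ.filter fun u => kap l u ≠ ev v u).card ≤ q) :
    ∃ (p : ℕ) (es : Fin p → V → ℕ), p ≤ Fintype.card τ * w ^ 2 ∧
      (∀ j, ∑ u, es j u ≤ D1 w N μ q) ∧ ∀ lam : GP k V,
        (fun l => rp A L' (mix Z lam (kap l))) ∈ Submodule.span k (Set.range
          (fun j => (fun l => rp A L' (mix Z (jet (es j) v) (kap l))))) := by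
  obtain ⟨b, hb1, hb2, hb3⟩ := exists_linearIndependent k
    {x : τ → Matrix (Fin w) (Fin w) k | ∃ e : V → ℕ, ∑ u, e u ≤ D1 w N μ q ∧
        x = fun l => rp A L' (mix Z (jet e v) (kap l))}
  have hfin : b.Finite := hb3.setFinite
  have : Fintype b := hfin.fintype
  have hcard : Fintype.card b ≤ Fintype.card τ * w ^ 2 := by
    refine hb3.fintype_card_le_finrank.trans ?_
    rw [Module.finrank_pi_fintype]
    simp [Module.finrank_matrix, pow_two]
  choose f hf using fun x : b => hb1 x.2
  let σ := Fintype.equivFin b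
  refine ⟨Fintype.card b, fun j => f (σ.symm j), hcard, fun j => (hf _).1, fun lam => ?_⟩
  have h1 := span_a A L' hL v N hal hug Z kap μ q hτ hk lam
  rw [← hb2] at h1
  refine Submodule.span_mono ?_ h1
  intro x hx
  exact ⟨σ ⟨x, hx⟩, by
    show (fun l => rp A L' (mix Z (jet (f (σ.symm (σ ⟨x, hx⟩))) v) (kap l))) = x
    rw [Equiv.symm_apply_apply]
    exact (hf ⟨x, hx⟩).2.symm⟩

end

end Pool.Agent.UNK
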