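import Pool.Agent.UNK.Sa

/-!
Project UNK (MP_e2be99_lc), module St.  Text: /team-store/unk_h34.md (section 8 (b), formula (**)).
Definitions in `Pool/Agent/UNK/Defs.lean`.  Replace the `sorry`; keep the statements; helper lemmas private.

PLAN.
`basis_b` for `R.A`, `L'` (`Alive` for the prefix `L'`: infixes of `L'` are infixes of `R.L`): `p`, `es`.  The element for `jet e v` is `∑ j, c j • x (es j)`.  Consider `τ' = τ × Option (Fin p)` (cardinal
`≤ μ * (1 + μ * w ^ 2)`), `Z' = Z \ {u | u ∈ L'}`, `gam' (l, none) = gam l`, `gam' (l, some j) = - (gam l * c j)`, `kap' (l, o) u = jet (e or es j) v u` if `u ∈ Z ∧ u ∈ L'`, else `kap l u`: at most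
`q + (D1 w N μ q + N)` special variables each (`jet f v u = ev v u` if `f u = 0`; the number of `u` with `f u ≠ 0` is `≤ ∑ f`).  Identity, for all `lam` and `Rs' = Rs` or `[R]`:
`GG Rs' Z' gam' kap' lam = GG Rs' Z gam kap (mix L' (jet e v) lam) - ∑ j, c j * GG Rs' Z gam kap (mix L' (jet (es j) v) lam)`, and `GG (R :: Rs) .. = GG [R] .. + GG Rs ..`.
For `[R]` it is 0: `rp R.A (L' ++ L'') = rp .. L' .. * rp .. L'' ..`, the second factor does not depend on `e`, `es j`; linear in the first.  So for all `lam`: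
`GG Rs Z' gam' kap' lam = GG (R::Rs) Z gam kap (mix L' (jet e v) lam) - ∑ j, c j * GG (R::Rs) Z gam kap (mix L' (jet (es j) v) lam)`.
Apply `IH`: for `lam = jet f v`, `∑ f ≤ Dg w N Rs.length ..`: `mix L' (jet e v) (jet f v) = jet (e on L', f elsewhere) v` has order at most `Dg w N (Rs.length + 1) μ q`, so the value is 0 by `hG`
(also for `es j`).  Hence `GG Rs Z' gam' kap' = 0` and the function for `e` is the combination of the functions for `es j`.
-/

set_option autoImplicit false

namespace Pool.Agent.UNK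

open MvPolynomial

universe u

section

variable {k : Type u} [Field k] {V : Type} {w : ℕ}

private theorem FF_cons' (R : Row k V w) (Rs : List (Row k V w)) (lam : GP k V) :
    FF (R :: Rs) lam = dot R.Φ (rp R.A R.L lam) + FF Rs lam := by
  simp [FF]

private theorem rp_app' (A : V → Matrix (Fin w) (Fin w) (Polynomial k)) (L' L'' : List V)
    (lam : GP k V) : rp A (L' ++ L'') lam = rp A L' lam * rp A L'' lam := by
  simp [rp]

private theorem rp_cg' (A : V → Matrix (Fin w) (Fin w) (Polynomial k)) (L : List V)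
    (lam lam' : GP k V) (h : ∀ u ∈ L, lam u = lam' u) : rp A L lam = rp A L lam' := by
  unfold rp
  congr 1
  exact List.map_congr_left fun u hu => by rw [h u hu]

private theorem dot_comb {I : Type} [Fintype I] {ι : Type} (s : Finset ι) (c : ι → k)
    (M : ι → Matrix I I k) (Φ N : Matrix I I k) :
    ∑ o ∈ s, c o * dot Φ (M o * N) = dot Φ ((∑ o ∈ s, c o • M o) * N) := by
  unfold dot
  simp only [Finset.sum_mul, Matrix.sum_apply, Finset.mul_sum, Matrix.smul_mul, Matrix.smul_apply,
    smul_eq_mul]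
  rw [Finset.sum_comm]
  refine Finset.sum_congr rfl fun p _ => ?_
  rw [Finset.sum_comm]
  refine Finset.sum_congr rfl fun q _ => ?_
  refine Finset.sum_congr rfl fun o _ => ?_
  ring

private theorem dot_zero' {I : Type} [Fintype I] (Φ N : Matrix I I k) :
    dot Φ ((0 : Matrix I I k) * N) = 0 := by
  simp [dot]

end

open scoped Classical in
theorem star {k : Type u} [Field k] [Infinite k] {V : Type} [Fintype V] [DecidableEq V] {w : ℕ}
    (R : Row k V w) (Rs : List (Row k V w)) (hR : R.L.Nodup ∧ ∀ u, u ∈ R.L) (v : V → k) (N : ℕ)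
    (hal : Alive R.A R.L v) (hug : UG (fun u => Submodule.span k {h | ∃ p q, h = R.A u p q}) N v)
    (μ q : ℕ)
    (IH : ∀ (Z : Set V) (τ : Type) [Fintype τ] (gam : τ → k) (kap : τ → GP k V),
      Fintype.card τ ≤ μ * (1 + μ * w ^ 2) →
      (∀ l, (Finset.univ.filter fun u => kap l u ≠ ev v u).card ≤ q + (D1 w N μ q + N)) →
      (∀ e : V → ℕ, ∑ u, e u ≤ Dg w N Rs.length (μ * (1 + μ * w ^ 2)) (q + (D1 w N μ q + N)) →
        GG Rs Z gam kap (jet e v) = 0) → ∀ lam, GG Rs Z gam kap lam = 0)
    (Z : Set V) (τ : Type) [Fintype τ] (gam : τ → k) (kap : τ → GP k V)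
    (hτ : Fintype.card τ ≤ μ)
    (hk : ∀ l, (Finset.univ.filter fun u => kap l u ≠ ev v u).card ≤ q)
    (hG : ∀ e : V → ℕ, ∑ u, e u ≤ Dg w N (Rs.length + 1) μ q →
      GG (R :: Rs) Z gam kap (jet e v) = 0)
    (L' L'' : List V) (hL : R.L = L' ++ L'') (e : V → ℕ) (he : ∑ u, e u ≤ D1 w N μ q + N) :
    (fun lam => GG (R :: Rs) Z gam kap (mix {u | u ∈ L'} (jet e v) lam)) ∈
      Submodule.span k {f : GP k V → k | ∃ e' : V → ℕ, ∑ u, e' u ≤ D1 w N μ q ∧
        f = fun lam => GG (R :: Rs) Z gam kap (mix {u | u ∈ L'} (jet e' v) lam)} := by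
  classical
  have hal' : Alive R.A L' v := by
    intro J hJ a
    refine hal J (hJ.trans ?_) a
    rw [hL]
    exact (List.prefix_append L' L'').isInfix
  have hnd : (L' ++ L'').Nodup := hL ▸ hR.1
  have hnd' : L'.Nodup := (List.nodup_append.1 hnd).1
  have hdis : ∀ u ∈ L'', u ∉ L' := by
    intro u hu hu'
    exact (List.nodup_append.1 hnd).2.2 u hu' u hu rfl
  obtain ⟨p, es, hp, hes, hsp⟩ := basis_b R.A L' hnd' v N hal' hug Z kap μ q hτ hk
  obtain ⟨c, hc⟩ := (Submodule.mem_span_range_iff_exists_fun k).1 (hsp (jet e v))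
  let fe : Option (Fin p) → V → ℕ := fun o => o.elim e es
  let cc : Option (Fin p) → k := fun o => o.elim 1 (fun j => - c j)
  have hfe : ∀ o, ∑ u, fe o u ≤ D1 w N μ q + N := by
    intro o
    cases o with
    | none => exact he
    | some j => exact (hes j).trans (Nat.le_add_right _ _)
  have hlin : ∀ l, ∑ o, cc o • rp R.A L' (mix Z (jet (fe o) v) (kap l)) = 0 := by
    intro l
    rw [Fintype.sum_option]
    have h1 := congrFun hc l
    simp only [Finset.sum_apply, Pi.smul_apply] at h1
    show (1 : k) • rp R.A L' (mix Z (jet e v) (kap l)) +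
      ∑ j, (- c j) • rp R.A L' (mix Z (jet (es j) v) (kap l)) = 0
    rw [← h1, one_smul, ← Finset.sum_add_distrib]
    exact Finset.sum_eq_zero fun j _ => by rw [neg_smul, add_neg_cancel]
  let Z' : Set V := {u | u ∈ Z ∧ u ∉ L'}
  let gam' : τ × Option (Fin p) → k := fun x => gam x.1 * cc x.2
  let kap' : τ × Option (Fin p) → GP k V :=
    fun x u => if u ∈ Z ∧ u ∈ L' then jet (fe x.2) v u else kap x.1 u
  have hmix : ∀ (x : τ × Option (Fin p)) (lam : GP k V),
      mix Z (mix {u | u ∈ L'} (jet (fe x.2) v) lam) (kap x.1) = mix Z' lam (kap' x) := by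
    intro x lam
    funext u
    by_cases h1 : u ∈ Z
    · by_cases h2 : u ∈ L'
      · simp [mix, Z', kap', h1, h2]
      · simp [mix, Z', kap', h1, h2]
    · simp [mix, Z', kap', h1]
  have hrow : ∀ (l : τ) (o : Option (Fin p)) (lam : GP k V),
      rp R.A R.L (mix Z (mix {u | u ∈ L'} (jet (fe o) v) lam) (kap l)) =
        rp R.A L' (mix Z (jet (fe o) v) (kap l)) * rp R.A L'' (mix Z lam (kap l)) := by
    intro l o lam
    rw [hL, rp_app']
    congr 1
    · refine rp_cg' _ _ _ _ fun u hu => ?_
      by_cases h1 : u ∈ Z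
      · simp [mix, h1, hu]
      · simp [mix, h1]
    · refine rp_cg' _ _ _ _ fun u hu => ?_
      by_cases h1 : u ∈ Z
      · simp [mix, h1, hdis u hu]
      · simp [mix, h1]
  have hmain : ∀ lam : GP k V,
      ∑ o, cc o * GG (R :: Rs) Z gam kap (mix {u | u ∈ L'} (jet (fe o) v) lam) =
        GG Rs Z' gam' kap' lam := by
    intro lam
    unfold GG
    rw [Fintype.sum_prod_type]
    simp only [FF_cons', mul_add, Finset.sum_add_distrib, hrow]
    have h1 : ∑ o, cc o * ∑ l, gam l * dot R.Φ (rp R.A L' (mix Z (jet (fe o) v) (kap l)) *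
        rp R.A L'' (mix Z lam (kap l))) = 0 := by
      simp only [Finset.mul_sum]
      rw [Finset.sum_comm]
      refine Finset.sum_eq_zero fun l _ => ?_
      have h2 : ∀ o, cc o * (gam l * dot R.Φ (rp R.A L' (mix Z (jet (fe o) v) (kap l)) *
          rp R.A L'' (mix Z lam (kap l)))) =
          gam l * (cc o * dot R.Φ (rp R.A L' (mix Z (jet (fe o) v) (kap l)) *
          rp R.A L'' (mix Z lam (kap l)))) := fun o => by ring
      simp only [h2]
      rw [← Finset.mul_sum, dot_comb, hlin, dot_zero', mul_zero]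
    rw [h1, zero_add]
    simp only [Finset.mul_sum]
    rw [Finset.sum_comm]
    refine Finset.sum_congr rfl fun l _ => ?_
    refine Finset.sum_congr rfl fun o _ => ?_
    rw [← hmix (l, o) lam]
    show cc o * (gam l * _) = gam l * cc o * _
    ring
  have hcardf : ∀ o, (Finset.univ.filter fun u => fe o u ≠ 0).card ≤ D1 w N μ q + N := by
    intro o
    refine le_trans ?_ (hfe o)
    rw [Finset.card_eq_sum_ones, Finset.sum_filter]
    refine Finset.sum_le_sum fun u _ => ?_
    by_cases h : fe o u = 0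
    · simp [h]
    · simp only [ne_eq, h, not_false_eq_true, if_true]
      omega
  have hjetmix : ∀ (f g : V → ℕ), mix {u | u ∈ L'} (jet f v) (jet g v) =
      jet (fun u => if u ∈ L' then f u else g u) v := by
    intro f g
    funext u
    by_cases h : u ∈ L'
    · simp [mix, jet, h]
    · simp [mix, jet, h]
  have hzero : ∀ lam, GG Rs Z' gam' kap' lam = 0 := by
    refine IH Z' (τ × Option (Fin p)) gam' kap' ?_ ?_ ?_
    · rw [Fintype.card_prod, Fintype.card_option, Fintype.card_fin]
      refine Nat.mul_le_mul hτ ?_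
      have := hp.trans (Nat.mul_le_mul_right (w ^ 2) hτ)
      omega
    · rintro ⟨l, o⟩
      have hsub : (Finset.univ.filter fun u => kap' (l, o) u ≠ ev v u) ⊆
          (Finset.univ.filter fun u => kap l u ≠ ev v u) ∪
            (Finset.univ.filter fun u => fe o u ≠ 0) := by
        intro u hu
        have hu' := (Finset.mem_filter.1 hu).2
        by_cases h1 : u ∈ Z ∧ u ∈ L'
        · refine Finset.mem_union_right _ (Finset.mem_filter.2 ⟨Finset.mem_univ _, fun h2 => hu' ?_⟩)
          show (if u ∈ Z ∧ u ∈ L' then jet (fe o) v u else kap l u) = ev v u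
          rw [if_pos h1]
          unfold jet ev
          rw [h2, pow_zero]
          rfl
        · refine Finset.mem_union_left _ (Finset.mem_filter.2 ⟨Finset.mem_univ _, fun h2 => hu' ?_⟩)
          show (if u ∈ Z ∧ u ∈ L' then jet (fe o) v u else kap l u) = ev v u
          rw [if_neg h1, h2]
      refine (Finset.card_le_card hsub).trans ((Finset.card_union_le _ _).trans ?_)
      exact Nat.add_le_add (hk l) (hcardf o)
    · intro f hf
      rw [← hmain]
      refine Finset.sum_eq_zero fun o _ => ?_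
      rw [hjetmix, hG, mul_zero]
      have h1 : ∑ u, (if u ∈ L' then fe o u else f u) ≤ ∑ u, (fe o u + f u) := by
        refine Finset.sum_le_sum fun u _ => ?_
        split_ifs <;> omega
      refine h1.trans ?_
      rw [Finset.sum_add_distrib]
      show _ ≤ (D1 w N μ q + N) + Dg w N Rs.length (μ * (1 + μ * w ^ 2)) (q + (D1 w N μ q + N))
      exact Nat.add_le_add (hfe o) hf
  have hfin : (fun lam => GG (R :: Rs) Z gam kap (mix {u | u ∈ L'} (jet e v) lam)) =
      ∑ j, c j • (fun lam => GG (R :: Rs) Z gam kap (mix {u | u ∈ L'} (jet (es j) v) lam)) := by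
    funext lam
    have h1 := (hmain lam).trans (hzero lam)
    rw [Fintype.sum_option] at h1
    have h2 : (1 : k) * GG (R :: Rs) Z gam kap (mix {u | u ∈ L'} (jet e v) lam) +
      ∑ j, (- c j) * GG (R :: Rs) Z gam kap (mix {u | u ∈ L'} (jet (es j) v) lam) = 0 := h1
    rw [one_mul] at h2
    rw [Finset.sum_apply]
    simp only [Pi.smul_apply, smul_eq_mul]
    simp only [neg_mul, Finset.sum_neg_distrib] at h2
    exact eq_of_sub_eq_zero (by rw [sub_eq_add_neg]; exact h2)
  rw [hfin]
  exact Submodule.sum_mem _ fun j _ => Submodule.smul_mem _ _ (Submodule.subset_span ⟨es j, hes j, rfl⟩)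

end Pool.Agent.UNK
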