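import Pool.Agent.UNK.Defs

/-!
Project UNK (MP_e2be99_lc), module T0.

The product of the `1 + Z i` is the sum of the ordered products `T0_zp` over the subsets. A smallest set `S` on whose product the
functional `Ψ` does not vanish has at most `card I ^ 2` elements, since the products over its upper parts are linearly
independent.
-/

set_option autoImplicit false

namespace Pool.Agent.UNK

open MvPolynomial

universe u

/-- the ordered product over the elements of `S` below `t` -/
private def T0_zp {R : Type*} [Ring R] (Z : ℕ → R) (S : Finset ℕ) (t : ℕ) : R :=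
  ((List.range t).map fun i => if i ∈ S then Z i else 1).prod

private theorem T0_succ {R : Type*} [Ring R] (Z : ℕ → R) (S : Finset ℕ) (t : ℕ) :
    T0_zp Z S (t + 1) = T0_zp Z S t * (if t ∈ S then Z t else 1) := by
  unfold T0_zp
  rw [List.range_succ, List.map_append, List.prod_append]
  simp

private theorem T0_congr {R : Type*} [Ring R] (Z : ℕ → R) (S S' : Finset ℕ) (t : ℕ)
    (h : ∀ i < t, i ∈ S ↔ i ∈ S') : T0_zp Z S t = T0_zp Z S' t := by
  unfold T0_zp
  congr 1
  refine List.map_congr_left fun i hi => ?_
  rw [List.mem_range] at hi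
  by_cases h1 : i ∈ S
  · rw [if_pos h1, if_pos ((h i hi).1 h1)]
  · rw [if_neg h1, if_neg fun h2 => h1 ((h i hi).2 h2)]

private theorem T0_one {R : Type*} [Ring R] (Z : ℕ → R) (S : Finset ℕ) (t : ℕ)
    (h : ∀ i < t, i ∉ S) : T0_zp Z S t = 1 := by
  induction t with
  | zero => simp [T0_zp]
  | succ t ih =>
    rw [T0_succ, ih fun i hi => h i (by omega), if_neg (h t (by omega)), one_mul]

private theorem T0_mul {R : Type*} [Ring R] (Z : ℕ → R) (A B : Finset ℕ) (t : ℕ)
    (h : ∀ a ∈ A, ∀ b ∈ B, a < b) : T0_zp Z A t * T0_zp Z B t = T0_zp Z (A ∪ B) t := by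
  induction t with
  | zero => simp [T0_zp]
  | succ t ih =>
    rw [T0_succ, T0_succ, T0_succ]
    by_cases hA : t ∈ A
    · have hB : ∀ i < t + 1, i ∉ B := fun i hi hiB => by
        have := h t hA i hiB
        omega
      have h1 : T0_zp Z B t = 1 := T0_one Z B t fun i hi => hB i (by omega)
      rw [if_pos hA, if_neg (hB t (by omega)), if_pos (Finset.mem_union_left _ hA), h1, mul_one, mul_one, ← ih, h1,
        mul_one]
    · rw [if_neg hA, mul_one, ← mul_assoc, ih]
      by_cases hB : t ∈ B
      · rw [if_pos hB, if_pos (Finset.mem_union_right _ hB)]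
      · rw [if_neg hB, if_neg]
        intro h1
        rcases Finset.mem_union.1 h1 with h2 | h2
        · exact hA h2
        · exact hB h2

private theorem T0_expand {R : Type*} [Ring R] (Z : ℕ → R) (S : Finset ℕ) (t : ℕ) :
    ((List.range t).map fun i => if i ∈ S then 1 + Z i else 1).prod =
      ∑ S' ∈ (S.filter fun i => i < t).powerset, T0_zp Z S' t := by
  induction t with
  | zero => simp [T0_zp]
  | succ t ih =>
    have h1 : ((List.range (t + 1)).map fun i => if i ∈ S then 1 + Z i else 1).prod =
        ((List.range t).map fun i => if i ∈ S then 1 + Z i else 1).prod * (if t ∈ S then 1 + Z t else 1) := by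
      rw [List.range_succ, List.map_append, List.prod_append]
      simp
    rw [h1, ih]
    have hnt : ∀ S' ∈ (S.filter fun i => i < t).powerset, t ∉ S' := by
      intro S' hS' ht
      have h2 := (Finset.mem_filter.1 ((Finset.mem_powerset.1 hS') ht)).2
      omega
    have h3 : ∀ S' ∈ (S.filter fun i => i < t).powerset, T0_zp Z S' (t + 1) = T0_zp Z S' t := by
      intro S' hS'
      rw [T0_succ, if_neg (hnt S' hS'), mul_one]
    by_cases ht : t ∈ S
    · have h4 : (S.filter fun i => i < t + 1) = insert t (S.filter fun i => i < t) := by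
        ext i
        simp only [Finset.mem_filter, Finset.mem_insert]
        constructor
        · rintro ⟨h5, h6⟩
          rcases Nat.lt_succ_iff_lt_or_eq.1 h6 with h7 | h7
          · exact Or.inr ⟨h5, h7⟩
          · exact Or.inl h7
        · rintro (h5 | ⟨h5, h6⟩)
          · exact ⟨h5 ▸ ht, by omega⟩
          · exact ⟨h5, by omega⟩
      have h5 : t ∉ S.filter fun i => i < t := fun h6 => absurd (Finset.mem_filter.1 h6).2 (lt_irrefl t)
      rw [if_pos ht, h4, Finset.sum_powerset_insert h5, mul_add, mul_one, Finset.sum_congr rfl h3, Finset.sum_mul]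
      congr 1
      refine Finset.sum_congr rfl fun S' hS' => ?_
      rw [T0_succ, if_pos (Finset.mem_insert_self t S')]
      congr 1
      refine T0_congr Z _ _ t fun i hi => ?_
      rw [Finset.mem_insert]
      constructor
      · exact fun h6 => Or.inr h6
      · rintro (h6 | h6)
        · omega
        · exact h6
    · have h4 : (S.filter fun i => i < t + 1) = S.filter fun i => i < t := by
        ext i
        simp only [Finset.mem_filter]
        constructor
        · rintro ⟨h5, h6⟩
          refine ⟨h5, ?_⟩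
          rcases Nat.lt_succ_iff_lt_or_eq.1 h6 with h7 | h7
          · exact h7
          · exact absurd (h7 ▸ h5) ht
        · rintro ⟨h5, h6⟩
          exact ⟨h5, by omega⟩
      rw [if_neg ht, mul_one, h4, Finset.sum_congr rfl h3]

/-- the size of a smallest set -/
private theorem T0_card {k : Type u} [Field k] {I : Type} [Fintype I] [DecidableEq I] (Z : ℕ → Matrix I I k) (t : ℕ)
    (Ψ : Matrix I I k →ₗ[k] k) (S : Finset ℕ) (hS : Ψ (T0_zp Z S t) ≠ 0)
    (hmin : ∀ S' ⊆ S, S' ≠ S → Ψ (T0_zp Z S' t) = 0) : S.card ≤ Fintype.card I ^ 2 := by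
  classical
  -- the ordered products
  have hdiag : ∀ a : ℕ, Ψ (T0_zp Z (S.filter fun i => i < a) t * T0_zp Z (S.filter fun i => a ≤ i) t) ≠ 0 := by
    intro a
    rw [T0_mul]
    · have h1 : (S.filter fun i => i < a) ∪ (S.filter fun i => a ≤ i) = S := by
        ext i
        simp only [Finset.mem_union, Finset.mem_filter]
        constructor
        · rintro (h2 | h2)
          · exact h2.1
          · exact h2.1
        · intro h2
          rcases lt_or_ge i a with h3 | h3
          · exact Or.inl ⟨h2, h3⟩
          · exact Or.inr ⟨h2, h3⟩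
      rw [h1]
      exact hS
    · intro x hx y hy
      exact lt_of_lt_of_le (Finset.mem_filter.1 hx).2 (Finset.mem_filter.1 hy).2
  have hoff : ∀ a ∈ S, ∀ b : ℕ, a < b →
      Ψ (T0_zp Z (S.filter fun i => i < a) t * T0_zp Z (S.filter fun i => b ≤ i) t) = 0 := by
    intro a ha b hab
    rw [T0_mul]
    · refine hmin _ ?_ ?_
      · intro i hi
        rcases Finset.mem_union.1 hi with h2 | h2
        · exact (Finset.mem_filter.1 h2).1
        · exact (Finset.mem_filter.1 h2).1
      · intro h1
        rw [← h1] at ha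
        rcases Finset.mem_union.1 ha with h2 | h2
        · exact absurd (Finset.mem_filter.1 h2).2 (lt_irrefl a)
        · exact absurd (Finset.mem_filter.1 h2).2 (not_le.2 hab)
    · intro x hx y hy
      exact lt_of_lt_of_le ((Finset.mem_filter.1 hx).2.trans hab) (Finset.mem_filter.1 hy).2
  have hli : LinearIndependent k (fun b : {x // x ∈ S} => T0_zp Z (S.filter fun i => (b : ℕ) ≤ i) t) := by
    rw [Fintype.linearIndependent_iff]
    intro c hc
    by_contra hcon
    push Not at hcon
    -- the smallest index with a nonzero coefficient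
    obtain ⟨a0, ha0⟩ := hcon
    have hne : (Finset.univ.filter fun b : {x // x ∈ S} => c b ≠ 0).Nonempty :=
      ⟨a0, Finset.mem_filter.2 ⟨Finset.mem_univ _, ha0⟩⟩
    obtain ⟨a, ha, hamin⟩ := Finset.exists_min_image _ (fun b : {x // x ∈ S} => (b : ℕ)) hne
    have h1 : Ψ (T0_zp Z (S.filter fun i => i < (a : ℕ)) t *
        ∑ b : {x // x ∈ S}, c b • T0_zp Z (S.filter fun i => (b : ℕ) ≤ i) t) = 0 := by
      rw [hc, mul_zero, map_zero]
    rw [Finset.mul_sum, map_sum, Finset.sum_eq_single a] at h1
    · rw [mul_smul_comm, map_smul, smul_eq_mul, mul_eq_zero] at h1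
      rcases h1 with h1 | h1
      · exact (Finset.mem_filter.1 ha).2 h1
      · exact hdiag a h1
    · intro b _ hba
      rw [mul_smul_comm, map_smul, smul_eq_mul, mul_eq_zero]
      by_cases hb : c b = 0
      · exact Or.inl hb
      · right
        have h2 := hamin b (Finset.mem_filter.2 ⟨Finset.mem_univ _, hb⟩)
        have h3 : (a : ℕ) ≠ b := fun h4 => hba (Subtype.ext h4.symm)
        exact hoff a a.2 b (lt_of_le_of_ne h2 h3)
    · intro h2
      exact absurd (Finset.mem_univ a) h2
  have h1 := hli.fintype_card_le_finrank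
  rw [Fintype.card_coe, Module.finrank_matrix, Module.finrank_self, mul_one] at h1
  rw [pow_two]
  exact h1

open scoped Classical in
theorem t0 {k : Type u} [Field k] {I : Type} [Fintype I] [DecidableEq I] (Z : ℕ → Matrix I I k) (t : ℕ)
    (Ψ : Matrix I I k →ₗ[k] k) (h : Ψ (((List.range t).map fun i => 1 + Z i).prod) ≠ 0) :
    ∃ S : Finset ℕ, S ⊆ Finset.range t ∧ S.card ≤ Fintype.card I ^ 2 ∧
      Ψ (((List.range t).map fun i => if i ∈ S then 1 + Z i else 1).prod) ≠ 0 := by
  have hfil : ∀ S : Finset ℕ, S ⊆ Finset.range t → (S.filter fun i => i < t) = S := by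
    intro S hS
    rw [Finset.filter_eq_self]
    intro i hi
    exact Finset.mem_range.1 (hS hi)
  -- some ordered product is not killed
  have h1 : ((List.range t).map fun i => 1 + Z i).prod =
      ∑ S' ∈ (Finset.range t).powerset, T0_zp Z S' t := by
    rw [← hfil (Finset.range t) (Finset.Subset.refl _), ← T0_expand]
    congr 1
    refine List.map_congr_left fun i hi => ?_
    rw [List.mem_range] at hi
    rw [if_pos (Finset.mem_range.2 hi)]
  have h2 : ∃ S ∈ (Finset.range t).powerset, Ψ (T0_zp Z S t) ≠ 0 := by
    by_contra hcon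
    push Not at hcon
    refine h ?_
    rw [h1, map_sum]
    exact Finset.sum_eq_zero hcon
  obtain ⟨S0, hS0, hS0'⟩ := h2
  obtain ⟨S, hS, hSmin⟩ := Finset.exists_min_image
    ((Finset.range t).powerset.filter fun S => Ψ (T0_zp Z S t) ≠ 0) Finset.card
    ⟨S0, Finset.mem_filter.2 ⟨hS0, hS0'⟩⟩
  rw [Finset.mem_filter, Finset.mem_powerset] at hS
  have hmin : ∀ S' ⊆ S, S' ≠ S → Ψ (T0_zp Z S' t) = 0 := by
    intro S' hS' hne
    by_contra hcon
    have h3 := hSmin S' (Finset.mem_filter.2 ⟨Finset.mem_powerset.2 (hS'.trans hS.1), hcon⟩)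
    have h4 := Finset.card_lt_card (Finset.ssubset_iff_subset_ne.2 ⟨hS', hne⟩)
    omega
  refine ⟨S, hS.1, T0_card Z t Ψ S hS.2 hmin, ?_⟩
  rw [T0_expand, hfil S hS.1, map_sum, Finset.sum_eq_single S]
  · exact hS.2
  · intro S' hS' hne
    exact hmin S' (Finset.mem_powerset.1 hS') hne
  · intro h3
    exact absurd (Finset.mem_powerset_self S) h3

end Pool.Agent.UNK
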