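import Pool.Agent.UNK.Co
import Pool.Agent.UNK.Blk

/-!
Project UNK (MP_e2be99_lc), module Th1.  Text: /team-store/unk_h34.md (section 6, induction).
Definitions in `Pool/Agent/UNK/Defs.lean`.  Replace the `sorry`; keep the statements; helper lemmas private.

PLAN.
* `ind`: let `L` be nodup with `L = []` (`cpl_nil`) or `r ≤ rank` at some `a`.  `blk` with `P J := J = [] ∨ ∃ a, r + 1 ≤ (rp A J (ev a)).rank`:
  `L = Bs.flatten ++ T`.  Each `B = P' ++ [u]` is complete at level `f + 2 * DD w` (`IH` for `P'`, `cpl_single`, `glue`); `¬ P B` gives rank `≤ r` at every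
  point.  `T` is complete at level `f`.  `r ≤ rank (rp A Bs'.flatten (ev a))` for every consecutive part (`rk_mid`).  If `Bs = []`: `cpl_mono`.  `Bs.length = 2 t + 1`: `core`.
  `Bs.length = 2 t + 2`: `Bs = Bs' ++ [B]`, `core` for `Bs'`, `glue` with `B`.  Then `glue` with `T`.  Levels:
  `(f + 2 D) + 2 Q`, `+ 2 D`, `+ 2 D` `= f + 2 Q + 6 D`.
* `th1`: induction on `j` for `r = w + 1 - j`, level `1 + j * (2 * QQ w + 6 * DD w)`, `j ≤ w + 1`; `j = 0`: the rank of a `w x w` matrix is `≤ w`, so
  `L = []`.  `j = w + 1`: `r = 0`.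
-/

set_option autoImplicit false

namespace Pool.Agent.UNK

open MvPolynomial

universe u

section

variable {k : Type u} [Field k] [CharZero k] {V : Type} [Fintype V] [DecidableEq V] {w : ℕ}

private theorem cpB (wt : V → ℕ) (hwt : Function.Injective wt)
    (A : V → Matrix (Fin w) (Fin w) (Polynomial k)) (r f : ℕ)
    (Bs : List (List V)) (hnd : Bs.flatten.Nodup)
    (hc : ∀ B ∈ Bs, Cpl wt A (f + 2 * DD w) B)
    (hr : ∀ B ∈ Bs, ∀ a, (rp A B (ev a)).rank ≤ r)
    (a₀ : V → k) (ha : r ≤ (rp A Bs.flatten (ev a₀)).rank) :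
    Cpl wt A (f + (2 * QQ w + 4 * DD w)) Bs.flatten := by
  rcases Nat.even_or_odd' Bs.length with ⟨t, ht | ht⟩
  · rcases Nat.eq_zero_or_pos t with h0 | h0
    · have : Bs = [] := by
        apply List.eq_nil_of_length_eq_zero
        omega
      subst this
      exact cpl_nil wt A _
    · have hne : Bs ≠ [] := by
        intro hh
        rw [hh] at ht
        simp at ht
        omega
      obtain ⟨Bs', B, hB⟩ : ∃ Bs' B, Bs = Bs' ++ [B] :=
        ⟨Bs.dropLast, Bs.getLast hne, (List.dropLast_append_getLast hne).symm⟩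
      subst hB
      have hfl : (Bs' ++ [B]).flatten = Bs'.flatten ++ B := by simp
      rw [hfl] at hnd ha ⊢
      have hlen : Bs'.length = 2 * (t - 1) + 1 := by
        rw [List.length_append] at ht
        simp at ht
        omega
      have ha' : r ≤ (rp A Bs'.flatten (ev a₀)).rank := by
        refine le_trans ha ?_
        have := rk_mid A [] Bs'.flatten B (ev a₀)
        simpa using this
      have h1 := core wt hwt A (f + 2 * DD w) r (t - 1) Bs' hlen (List.Nodup.of_append_left hnd)
        (fun X hX => hc X (List.mem_append_left _ hX)) (fun X hX => hr X (List.mem_append_left _ hX))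
        ⟨a₀, ha'⟩
      have h2 : Cpl wt A (f + 2 * DD w + 2 * QQ w) B :=
        cpl_mono wt A (by omega) (hc B (by simp))
      have h3 := glue wt hwt A hnd h1 h2
      exact cpl_mono wt A (by omega) h3
  · have h1 := core wt hwt A (f + 2 * DD w) r t Bs ht hnd hc hr ⟨a₀, ha⟩
    exact cpl_mono wt A (by omega) h1

theorem ind (wt : V → ℕ) (hwt : Function.Injective wt)
    (A : V → Matrix (Fin w) (Fin w) (Polynomial k)) (r f : ℕ) (hf : 1 ≤ f)
    (IH : ∀ L : List V, L.Nodup → (L = [] ∨ ∃ a, r + 1 ≤ (rp A L (ev a)).rank) → Cpl wt A f L)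
    (L : List V) (hL : L.Nodup) (h : L = [] ∨ ∃ a, r ≤ (rp A L (ev a)).rank) :
    Cpl wt A (f + (2 * QQ w + 6 * DD w)) L := by
  rcases h with h | ⟨a₀, ha₀⟩
  · subst h
    exact cpl_nil wt A _
  obtain ⟨Bs, T, hLe, hT, hBs⟩ := blk (fun J : List V => J = [] ∨ ∃ a, r + 1 ≤ (rp A J (ev a)).rank)
    (Or.inl rfl) L
  have hndB : Bs.flatten.Nodup := by
    rw [hLe] at hL
    exact List.Nodup.of_append_left hL
  have hndT : T.Nodup := by
    rw [hLe] at hL
    exact List.Nodup.of_append_right hL
  have hsub : ∀ B ∈ Bs, B.Nodup := by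
    intro B hB
    exact (List.nodup_flatten.mp hndB).1 B hB
  have hc : ∀ B ∈ Bs, Cpl wt A (f + 2 * DD w) B := by
    intro B hB
    obtain ⟨_, P', u, hBe, hP'⟩ := hBs B hB
    have hn := hsub B hB
    rw [hBe] at hn ⊢
    exact glue wt hwt A hn (IH P' (List.Nodup.of_append_left hn) hP') (cpl_single wt A hf u)
  have hr : ∀ B ∈ Bs, ∀ a, (rp A B (ev a)).rank ≤ r := by
    intro B hB a
    obtain ⟨hn, _⟩ := hBs B hB
    by_contra hcon
    exact hn (Or.inr ⟨a, by omega⟩)
  have haB : r ≤ (rp A Bs.flatten (ev a₀)).rank := by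
    rw [hLe] at ha₀
    refine le_trans ha₀ ?_
    have := rk_mid A [] Bs.flatten T (ev a₀)
    simpa using this
  have h1 := cpB wt hwt A r f Bs hndB hc hr a₀ haB
  have h2 : Cpl wt A (f + (2 * QQ w + 4 * DD w)) T := cpl_mono wt A (by omega) (IH T hndT hT)
  rw [hLe] at hL ⊢
  exact cpl_mono wt A (by omega) (glue wt hwt A hL h1 h2)

theorem th1 (wt : V → ℕ) (hwt : Function.Injective wt)
    (A : V → Matrix (Fin w) (Fin w) (Polynomial k)) (L : List V) (hL : L.Nodup) :
    Cpl wt A (K1 w) L := by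
  have key : ∀ j : ℕ, j ≤ w + 1 → ∀ L : List V, L.Nodup →
      (L = [] ∨ ∃ a, w + 1 - j ≤ (rp A L (ev a)).rank) →
      Cpl wt A (1 + j * (2 * QQ w + 6 * DD w)) L := by
    intro j
    induction j with
    | zero =>
      intro _ L _ h
      rcases h with h | ⟨a, ha⟩
      · subst h
        exact cpl_nil wt A _
      · exfalso
        have h1 := Matrix.rank_le_width (rp A L (ev a))
        omega
    | succ j ihj =>
      intro hj L hL h
      have h2 := ind wt hwt A (w + 1 - (j + 1)) (1 + j * (2 * QQ w + 6 * DD w)) (by omega)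
        (by
          intro L' hL' h'
          apply ihj (by omega) L' hL'
          have e : w + 1 - (j + 1) + 1 = w + 1 - j := by omega
          rw [e] at h'
          exact h') L hL h
      have e : 1 + j * (2 * QQ w + 6 * DD w) + (2 * QQ w + 6 * DD w) =
          1 + (j + 1) * (2 * QQ w + 6 * DD w) := by ring
      rw [e] at h2
      exact h2
  exact key (w + 1) le_rfl L hL (Or.inr ⟨0, by simp⟩)

end

end Pool.Agent.UNK
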