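import Pool.Agent.UNK.Hi
import Pool.Agent.UNK.Th1

/-!
Project UNK (MP_e2be99_lc), module Th2.  Text: /team-store/unk_h34.md (section 8, end).
Definitions in `Pool/Agent/UNK/Defs.lean`.  Replace the `sorry`; keep the statements; helper lemmas private.

PLAN.
* `alive_ev`: the infixes `J` of `L` are finitely many (`L.sublists`); for each `J` let `a` maximise the rank (`≤ w`); `rk_ev` with `X = Y = 1`, `K = K1 w`, `th1`.
* `th2`: choose `θ₀` with `Alive` for all `R ∈ Rs` and `unit_ev` (`K1 w ≥ 1`) at `v = vp wt (K1 w) θ₀`.  If all `FF Rs (jet e v)` with `∑ e ≤ Dg w N Rs.length 1 0` (`N = Rs.length * w ^ 2`) vanish,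
  `hi` with `μ = 1`, `q = 0`, `Z = univ`, `τ = Unit`, `gam = 1`, `kap = ev v` gives `FF Rs lam = 0` for all `lam`, contradiction at `ev a`.  So some is nonzero: `ldF`, `vp_add`.
-/

set_option autoImplicit false

namespace Pool.Agent.UNK

open MvPolynomial

universe u

section

variable {k : Type u} [Field k] [CharZero k] {V : Type} [Fintype V] [DecidableEq V] {w : ℕ}

theorem alive_ev (wt : V → ℕ) (hwt : Function.Injective wt)
    (A : V → Matrix (Fin w) (Fin w) (Polynomial k)) (L : List V) (hL : L.Nodup) :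
    ∀ᶠ θ in zar k (Fin (K1 w) ⊕ Fin (K1 w)), Alive A L (vp wt (K1 w) θ) := by
  have key : ∀ J : List V, J ∈ L.sublists.toFinset →
      ∀ᶠ θ in zar k (Fin (K1 w) ⊕ Fin (K1 w)), J <:+: L →
        ∀ a : V → k, (rp A J (ev a)).rank ≤ (rp A J (ev (vp wt (K1 w) θ))).rank := by
    intro J _
    by_cases hJ : J <:+: L
    · have hbd : ∀ a : V → k, (rp A J (ev a)).rank ≤ w := fun a =>
        Matrix.rank_le_width (rp A J (ev a))
      obtain ⟨a₀, ha₀⟩ : ∃ a₀ : V → k, ∀ a : V → k,
          (rp A J (ev a)).rank ≤ (rp A J (ev a₀)).rank := by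
        have hfin : (Set.range fun a : V → k => (rp A J (ev a)).rank).Finite :=
          (Set.finite_Iic w).subset (by rintro _ ⟨a, rfl⟩; exact hbd a)
        obtain ⟨m, ⟨a₀, hm⟩, hmax⟩ := Set.exists_max_image _ id hfin
          (Set.range_nonempty (fun a : V → k => (rp A J (ev a)).rank))
        refine ⟨a₀, fun a => ?_⟩
        have h1 := hmax _ ⟨a, rfl⟩
        simp only [id] at h1
        rw [← hm] at h1
        exact h1
      have hc := th1 wt hwt A J (hL.sublist hJ.sublist)
      have h1 := rk_ev wt A (K1 w) J hc (rp A J (ev a₀)).rank 1 1 a₀ (by simp)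
      filter_upwards [h1] with θ hθ _ a
      refine (ha₀ a).trans ?_
      simpa using hθ
    · exact Filter.Eventually.of_forall fun θ h => absurd h hJ
  have h2 := (Filter.eventually_all_finset L.sublists.toFinset).mpr key
  filter_upwards [h2] with θ hθ J hJ a
  exact hθ J (by simpa using hJ.sublist) hJ a

theorem th2 (wt : V → ℕ) (hwt : Function.Injective wt) (Rs : List (Row k V w))
    (hR : ∀ R ∈ Rs, R.L.Nodup ∧ ∀ u, u ∈ R.L) (a : V → k) (ha : FF Rs (ev a) ≠ 0) :
    ∃ θ : Fin (KK w Rs.length) ⊕ Fin (KK w Rs.length) → k,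
      FF Rs (ev (vp wt (KK w Rs.length) θ)) ≠ 0 := by
  have hK1 : 1 ≤ K1 w := Nat.le_add_right _ _
  have hal : ∀ᶠ θ in zar k (Fin (K1 w) ⊕ Fin (K1 w)), ∀ R ∈ Rs, Alive R.A R.L (vp wt (K1 w) θ) := by
    clear ha
    induction Rs with
    | nil => exact Filter.Eventually.of_forall fun θ R h => absurd h (by simp)
    | cons R Rs ih =>
      have h1 := ih fun R' h => hR R' (List.mem_cons_of_mem _ h)
      have h2 := alive_ev wt hwt R.A R.L (hR R List.mem_cons_self).1
      filter_upwards [h1, h2] with θ h3 h4 R' hR'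
      rcases List.mem_cons.mp hR' with h5 | h5
      · rw [h5]
        exact h4
      · exact h3 R' h5
  have hug := unit_ev wt (K1 w) hK1 Rs
  haveI := zar_neBot k (Fin (K1 w) ⊕ Fin (K1 w))
  obtain ⟨θ₀, h1, h2⟩ := (hal.and hug).exists
  set v : V → k := vp wt (K1 w) θ₀ with hv
  by_cases hz : ∀ e : V → ℕ, ∑ u, e u ≤ Dg w (Rs.length * w ^ 2) Rs.length 1 0 →
      FF Rs (jet e v) = 0
  · exfalso
    have hmix : ∀ x y : GP k V, mix Set.univ x y = x := by
      intro x y
      funext u
      simp [mix]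
    have hGF : ∀ lam : GP k V, GG Rs Set.univ (fun _ : Unit => (1 : k)) (fun _ => ev v) lam =
        FF Rs lam := by
      intro lam
      simp only [GG, hmix, one_mul, Finset.univ_unique, Finset.sum_singleton]
    have h3 := hi v (Rs.length * w ^ 2) Rs hR h1 h2 1 0 Set.univ Unit (fun _ => (1 : k))
      (fun _ => ev v) (by simp) (by simp) (fun e he => by rw [hGF]; exact hz e he) (ev a)
    rw [hGF] at h3
    exact ha h3
  · push_neg at hz
    obtain ⟨e, he, hne⟩ := hz
    obtain ⟨θ', hθ'⟩ := ldF wt hwt Rs hR _ v e he hne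
    obtain ⟨θ'', hθ''⟩ := vp_add wt (K1 w) (Dg w (Rs.length * w ^ 2) Rs.length 1 0) θ₀ θ'
    refine ⟨θ'', ?_⟩
    rw [← hθ''] at hθ'
    exact hθ'

end

end Pool.Agent.UNK
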